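import Pool.Agent.U820.LT.Fast2

/-!
# The lifts, from the masks of the labels
-/

set_option autoImplicit false

namespace Pool.Agent.U729.LT

/-- all the lifts of `σ`; `m v` is the mask of the places of the facets that contain `v`; `acc` is the mask of the
places of the facets that contain the labels chosen so far -/
def lftM (m : ℕ → ℕ) (js : List (ℕ × ℕ)) : ℕ → ℕ → Bool :=
  List.rec (motive := fun _ => ℕ → ℕ → Bool) (fun _ acc => bif' (Nat.beq acc 0) false true)
    (fun x _ ih σ acc => bif' (Nat.beq (Nat.mod σ 2) 1)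
      (bif' (ih (Nat.div σ 2) (Nat.land acc (m x.1))) (bif' (Nat.beq x.1 x.2) true
        (ih (Nat.div σ 2) (Nat.land acc (m x.2)))) false)
      (ih (Nat.div σ 2) acc)) js

/-- all the lifts of the members of `ms` -/
def lftsM (a : ℕ) (m : ℕ → ℕ) (js : List (ℕ × ℕ)) (ms : List ℕ) : Bool :=
  List.rec (motive := fun _ => Bool) true (fun s _ ih => bif' (lftM m js s a) ih false) ms

/-- **The check of the lifts with masks implies the check with the list of the facets.** Start with `a = 2 ^ N - 1`
(or the mask of the used places). -/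
theorem lfts_of_masks {fs : List ℕ} {m : ℕ → ℕ} {N w a : ℕ} {js : List (ℕ × ℕ)} {ms : List ℕ}
    (H : ∀ i < N, a.testBit i = true → ∃ f ∈ fs, ∀ v < w, (m v).testBit i = true → f.testBit v = true) (ha : a < 2 ^ N)
    (hj : ∀ x ∈ js, x.1 < w ∧ x.2 < w) (h : lftsM a m js ms = true) : lfts fs js ms = true := by
  have hN : ∀ i, a.testBit i = true → i < N := by
    intro i hi
    by_contra h1
    rw [Nat.testBit_lt_two_pow (lt_of_lt_of_le ha (Nat.pow_le_pow_right (by norm_num) (not_lt.1 h1)))] at hi
    exact absurd hi (by simp)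
  -- the places outside `a` do not matter
  have key : ∀ (js : List (ℕ × ℕ)), (∀ x ∈ js, x.1 < w ∧ x.2 < w) → ∀ σ acc cur : ℕ,
      (∀ i, acc.testBit i = true → a.testBit i = true ∧ ∀ u, cur.testBit u = true → u < w ∧ (m u).testBit i = true) →
      lftM m js σ acc = true → lft fs js σ cur = true := by
    intro js
    induction js with
    | nil =>
      intro _ σ acc cur hI h
      have h : bif' (Nat.beq acc 0) false true = true := h
      have h0 : acc ≠ 0 := by
        intro h0
        rw [h0, Nat.beq_refl, bif'_true] at h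
        exact absurd h (by simp)
      obtain ⟨i, hi⟩ := Nat.exists_testBit_of_ne_zero h0
      obtain ⟨hia, hu⟩ := hI i hi
      obtain ⟨f, hf, hfv⟩ := H i (hN i hia) hia
      show anyc cur fs = true
      refine Pool.Agent.U820.LT.anyc_complete ⟨f, hf, ?_⟩
      apply Nat.eq_of_testBit_eq
      intro u
      rw [Nat.testBit_land]
      cases hc : cur.testBit u with
      | false => simp
      | true =>
        obtain ⟨h1, h2⟩ := hu u hc
        rw [hfv u h1 h2]; rfl
    | cons x js ih =>
      intro hj σ acc cur hI h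
      have hj' : ∀ y ∈ js, y.1 < w ∧ y.2 < w := fun y hy => hj y (List.mem_cons_of_mem _ hy)
      have hx := hj x List.mem_cons_self
      have key : ∀ y, y < w → ∀ i, (Nat.land acc (m y)).testBit i = true →
          a.testBit i = true ∧ ∀ u, (cur ||| 2 ^ y).testBit u = true → u < w ∧ (m u).testBit i = true := by
        intro y hy i hi
        have hi : (acc &&& m y).testBit i = true := hi
        rw [Nat.testBit_land, Bool.and_eq_true] at hi
        obtain ⟨h1, h2⟩ := hI i hi.1
        refine ⟨h1, fun u hu => ?_⟩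
        rw [Nat.testBit_lor, Bool.or_eq_true, Nat.testBit_two_pow] at hu
        rcases hu with hu | hu
        · exact h2 u hu
        · have : y = u := by simpa using hu
          subst this
          exact ⟨hy, hi.2⟩
      have h : bif' (Nat.beq (σ % 2) 1) (bif' (lftM m js (σ / 2) (Nat.land acc (m x.1)))
        (bif' (Nat.beq x.1 x.2) true (lftM m js (σ / 2) (Nat.land acc (m x.2)))) false)
        (lftM m js (σ / 2) acc) = true := h
      show bif' (Nat.beq (σ % 2) 1) (bif' (lft fs js (σ / 2) (cur ||| 2 ^ x.1))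
        (bif' (Nat.beq x.1 x.2) true (lft fs js (σ / 2) (cur ||| 2 ^ x.2))) false)
        (lft fs js (σ / 2) cur) = true
      cases h1 : Nat.beq (σ % 2) 1 with
      | false =>
        rw [h1, bif'_false] at h
        rw [bif'_false]
        exact ih hj' _ _ _ hI h
      | true =>
        rw [h1, bif'_true, bif'_eq_true] at h
        rw [bif'_true, bif'_eq_true]
        refine ⟨ih hj' _ _ _ (key _ hx.1) h.1, ?_⟩
        cases h2 : Nat.beq x.1 x.2 with
        | true => rfl
        | false =>
          rw [h2, bif'_false] at h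
          rw [bif'_false]
          exact ih hj' _ _ _ (key _ hx.2) h.2
  induction ms with
  | nil => rfl
  | cons s ms ih =>
    have h : bif' (lftM m js s a) (lftsM a m js ms) false = true := h
    show bif' (lft fs js s 0) (lfts fs js ms) false = true
    rw [bif'_eq_true] at h ⊢
    exact ⟨key js hj s a 0 (fun i hi => ⟨hi, fun u hu => by rw [Nat.zero_testBit] at hu; exact absurd hu (by simp)⟩) h.1,
      ih h.2⟩

/-! ### the list of the facets -/

/-- the list of the facets at the used places `i < N` (`U` is the mask of the used places) -/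
def fsM (w N U : ℕ) (m : ℕ → ℕ) : List ℕ :=
  ((List.range N).filter fun i => U.testBit i).map fun i => Nat.ofBits fun v : Fin w => (m v.1).testBit i

theorem mem_fsM {w N U f : ℕ} {m : ℕ → ℕ} :
    f ∈ fsM w N U m ↔ ∃ i < N, U.testBit i = true ∧ (Nat.ofBits fun v : Fin w => (m v.1).testBit i) = f := by
  unfold fsM
  rw [List.mem_map]
  constructor
  · rintro ⟨i, hi, rfl⟩
    rw [List.mem_filter, List.mem_range] at hi
    exact ⟨i, hi.1, hi.2, rfl⟩
  · rintro ⟨i, h1, h2, rfl⟩
    exact ⟨i, by rw [List.mem_filter, List.mem_range]; exact ⟨h1, h2⟩, rfl⟩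

theorem fsM_lt {w N U : ℕ} {m : ℕ → ℕ} : ∀ f ∈ fsM w N U m, f < 2 ^ w := by
  intro f hf
  obtain ⟨i, -, -, rfl⟩ := mem_fsM.1 hf
  exact Nat.ofBits_lt_two_pow _

theorem cx_fsM {M w N U : ℕ} {m : ℕ → ℕ} : cx M (fsM w N U m) =
    {T : Finset (Fin M) | ∃ i < N, U.testBit i = true ∧ ∀ v ∈ T, v.1 < w ∧ (m v.1).testBit i = true} := by
  ext T
  constructor
  · rintro ⟨f, hf, hT⟩
    obtain ⟨i, h1, h2, rfl⟩ := mem_fsM.1 hf
    refine ⟨i, h1, h2, fun v hv => ?_⟩
    have h3 := hT hv
    rw [mem_toF] at h3
    by_cases hw : v.1 < w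
    · rw [Nat.testBit_ofBits_lt _ _ hw] at h3
      exact ⟨hw, h3⟩
    · rw [Nat.testBit_ofBits_ge _ _ (not_lt.1 hw)] at h3
      exact absurd h3 (by simp)
  · rintro ⟨i, h1, h2, h3⟩
    refine ⟨_, mem_fsM.2 ⟨i, h1, h2, rfl⟩, fun v hv => ?_⟩
    rw [mem_toF, Nat.testBit_ofBits_lt _ _ (h3 v hv).1]
    exact (h3 v hv).2

/-- **The check of the lifts with masks, for the list of the facets at the used places.** -/
theorem lfts_fsM {w N U : ℕ} {m : ℕ → ℕ} {js : List (ℕ × ℕ)} {ms : List ℕ} (hU : U < 2 ^ N)
    (hj : ∀ x ∈ js, x.1 < w ∧ x.2 < w) (h : lftsM U m js ms = true) : lfts (fsM w N U m) js ms = true := by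
  refine lfts_of_masks (N := N) (w := w) ?_ hU hj h
  intro i hi hUi
  refine ⟨_, mem_fsM.2 ⟨i, hi, hUi, rfl⟩, fun v hv h1 => ?_⟩
  rw [Nat.testBit_ofBits_lt _ _ hv]
  exact h1

end Pool.Agent.U729.LT
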