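import Pool.Agent.U729.LT.Shell

/-!
# A checker for shellings
-/

set_option autoImplicit false

namespace Pool.Agent.U729.LT

/-- `scan f r l rem`: `r` is not a subset of any member `g` of `l`, and every element of `rem` is the only element of
`f` which is not in `g`, for some member `g` of `l` -/
def scan (f r : ℕ) (l : List ℕ) : ℕ → Bool :=
  List.rec (motive := fun _ => ℕ → Bool) (fun rem => Nat.beq rem 0)
    (fun g _ ih rem => Bool.rec
      (Bool.rec (ih rem) (ih (Nat.xor rem (Nat.land rem (Nat.xor f (Nat.land f g)))))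
        (Nat.beq (Nat.land (Nat.xor f (Nat.land f g)) (Nat.sub (Nat.xor f (Nat.land f g)) 1)) 0))
      false (Nat.beq (Nat.land (Nat.land f g) r) r)) l

theorem scan_nil (f r rem : ℕ) : scan f r [] rem = Nat.beq rem 0 := rfl

/-- if-then-else for the kernel -/
def bif' {α : Type} (c : Bool) (t e : α) : α := Bool.rec (motive := fun _ => α) e t c

theorem bif'_true {α : Type} (t e : α) : bif' true t e = t := rfl

theorem bif'_false {α : Type} (t e : α) : bif' false t e = e := rfl

theorem scan_cons' (f r g : ℕ) (l : List ℕ) (rem : ℕ) : scan f r (g :: l) rem =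
    bif' (Nat.beq (Nat.land (Nat.land f g) r) r) false
      (bif' (Nat.beq (Nat.land (Nat.xor f (Nat.land f g)) (Nat.sub (Nat.xor f (Nat.land f g)) 1)) 0)
        (scan f r l (Nat.xor rem (Nat.land rem (Nat.xor f (Nat.land f g))))) (scan f r l rem)) := rfl

theorem scan_cons (f r g : ℕ) (l : List ℕ) (rem : ℕ) : scan f r (g :: l) rem =
    if (f &&& g) &&& r = r then false else
      if (f ^^^ (f &&& g)) &&& ((f ^^^ (f &&& g)) - 1) = 0 then scan f r l (rem ^^^ (rem &&& (f ^^^ (f &&& g))))
      else scan f r l rem := by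
  rw [scan_cons']
  have e1 : Nat.beq (Nat.land (Nat.land f g) r) r = decide ((f &&& g) &&& r = r) := by
    rw [Bool.eq_iff_iff, Nat.beq_eq]; simp
  have e2 : Nat.beq (Nat.land (Nat.xor f (Nat.land f g)) (Nat.sub (Nat.xor f (Nat.land f g)) 1)) 0 =
      decide ((f ^^^ (f &&& g)) &&& ((f ^^^ (f &&& g)) - 1) = 0) := by
    rw [Bool.eq_iff_iff, Nat.beq_eq]; simp
  rw [e1, e2]
  by_cases h1 : (f &&& g) &&& r = r
  · rw [if_pos h1, decide_eq_true h1]; rfl
  · rw [if_neg h1, decide_eq_false h1, bif'_false]
    by_cases h2 : (f ^^^ (f &&& g)) &&& ((f ^^^ (f &&& g)) - 1) = 0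
    · rw [if_pos h2, decide_eq_true h2]; rfl
    · rw [if_neg h2, decide_eq_false h2]; rfl

/-- a number `e` with `e &&& (e - 1) = 0` has at most one binary digit `1` -/
theorem pow_two_bits {e : ℕ} (h : e &&& (e - 1) = 0) {i j : ℕ} (hi : e.testBit i = true) (hj : e.testBit j = true) :
    i = j := by
  have he : e ≠ 0 := by
    rintro rfl
    simp at hi
  have h1 : e = 2 ^ Nat.log2 e := by
    by_contra hne
    have h2 : 2 ^ Nat.log2 e ≤ e := Nat.log2_self_le he
    have h3 : e < 2 ^ (Nat.log2 e + 1) := Nat.lt_log2_self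
    have h4 : 2 ^ Nat.log2 e ≤ e - 1 := by omega
    have h5 : e - 1 < 2 ^ (Nat.log2 e + 1) := by omega
    have h6 : e.testBit (Nat.log2 e) = true := Nat.testBit_log2 he
    have h7 : (e - 1).testBit (Nat.log2 e) = true := by
      have : Nat.log2 (e - 1) = Nat.log2 e := by
        rw [Nat.log2_eq_iff (by have := Nat.two_pow_pos (Nat.log2 e); omega)]
        exact ⟨h4, h5⟩
      rw [← this]
      exact Nat.testBit_log2 (by have := Nat.two_pow_pos (Nat.log2 e); omega)
    have h8 : (e &&& (e - 1)).testBit (Nat.log2 e) = true := by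
      rw [Nat.testBit_land, h6, h7]; rfl
    rw [h] at h8
    simp at h8
  rw [h1, Nat.testBit_two_pow] at hi hj
  simp only [decide_eq_true_eq] at hi hj
  omega

theorem scan_sound (f r : ℕ) (l : List ℕ) : ∀ rem : ℕ, scan f r l rem = true →
    (∀ g ∈ l, ∃ v, r.testBit v = true ∧ g.testBit v = false ∨ r.testBit v = true ∧ f.testBit v = false) ∧
    (∀ v, rem.testBit v = true → ∃ g ∈ l, ∀ u, f.testBit u = true → u ≠ v → g.testBit u = true) := by
  induction l with
  | nil =>
    intro rem h
    rw [scan_nil, Nat.beq_eq] at h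
    subst h
    exact ⟨by simp, by simp⟩
  | cons g l ih =>
    intro rem h
    rw [scan_cons] at h
    by_cases h1 : (f &&& g) &&& r = r
    · rw [if_pos h1] at h
      exact absurd h (by simp)
    rw [if_neg h1] at h
    have h3 : ∃ v, r.testBit v = true ∧ g.testBit v = false ∨ r.testBit v = true ∧ f.testBit v = false := by
      by_contra h4
      push Not at h4
      apply h1
      apply Nat.eq_of_testBit_eq
      intro v
      rw [Nat.testBit_land, Nat.testBit_land]
      cases hv : r.testBit v
      · simp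
      · have h5 := (h4 v).1 hv
        have h6 := (h4 v).2 hv
        simp only [ne_eq, Bool.not_eq_false] at h5 h6
        rw [h5, h6]; rfl
    by_cases h2 : (f ^^^ (f &&& g)) &&& ((f ^^^ (f &&& g)) - 1) = 0
    · rw [if_pos h2] at h
      obtain ⟨h4, h5⟩ := ih _ h
      refine ⟨?_, ?_⟩
      · intro g' hg'
        rcases List.mem_cons.1 hg' with rfl | hg'
        · exact h3
        · exact h4 g' hg'
      · intro v hv
        by_cases h6 : (f ^^^ (f &&& g)).testBit v = true
        · refine ⟨g, List.mem_cons_self, fun u hu huv => ?_⟩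
          by_contra h7
          rw [Bool.not_eq_true] at h7
          apply huv
          refine pow_two_bits h2 ?_ h6
          rw [Nat.testBit_xor, Nat.testBit_land, hu, h7]
          rfl
        · rw [Bool.not_eq_true] at h6
          obtain ⟨g', hg', h7⟩ := h5 v (by
            rw [Nat.testBit_xor, Nat.testBit_land, hv, h6]
            rfl)
          exact ⟨g', List.mem_cons_of_mem _ hg', h7⟩
    · rw [if_neg h2] at h
      obtain ⟨h4, h5⟩ := ih _ h
      refine ⟨?_, ?_⟩
      · intro g' hg'
        rcases List.mem_cons.1 hg' with rfl | hg'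
        · exact h3
        · exact h4 g' hg'
      · intro v hv
        obtain ⟨g', hg', h7⟩ := h5 v hv
        exact ⟨g', List.mem_cons_of_mem _ hg', h7⟩

/-- the number of the binary digits `1` among the first `w` digits -/
def pc (w : ℕ) : ℕ → ℕ :=
  Nat.rec (motive := fun _ => ℕ → ℕ) (fun _ => 0) (fun _ ih n => Nat.add (Nat.mod n 2) (ih (Nat.div n 2))) w

theorem pc_succ (w n : ℕ) : pc (w + 1) n = n % 2 + pc w (n / 2) := rfl

theorem pc_eq (w : ℕ) : ∀ n : ℕ, pc w n = ((Finset.range w).filter fun v => n.testBit v = true).card := by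
  induction w with
  | zero => intro n; rfl
  | succ w ih =>
    intro n
    rw [pc_succ, ih, Finset.range_add_one', Finset.filter_insert, Finset.filter_map, Nat.testBit_zero]
    have e1 : (Finset.filter ((fun v => n.testBit v = true) ∘ (⟨fun i => i + 1, fun i j h => by simpa using h⟩ : ℕ ↪ ℕ))
        (Finset.range w)) = (Finset.range w).filter fun v => (n / 2).testBit v = true := by
      refine Finset.filter_congr fun v _ => ?_
      show n.testBit (v + 1) = true ↔ _
      rw [Nat.testBit_succ]
    by_cases h : n % 2 = 1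
    · rw [if_pos (by simpa using h), Finset.card_insert_of_notMem (by simp), Finset.card_map]
      rw [show (Finset.filter ((fun v => n.testBit v = true) ∘ _) (Finset.range w)).card = _ from congrArg _ e1]
      omega
    · rw [if_neg (by simpa using h), Finset.card_map]
      rw [show (Finset.filter ((fun v => n.testBit v = true) ∘ _) (Finset.range w)).card = _ from congrArg _ e1]
      omega

/-- the step of the checker for one facet; `w` is the number of the vertices -/
def chk1 (k w : ℕ) (f r : ℕ) (pre suf : List ℕ) : Bool :=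
  bif' (Nat.blt f (Nat.pow 2 w)) (bif' (Nat.beq (pc w f) k) (bif' (Nat.beq (Nat.land r f) r)
    (bif' (scan f r pre r) (scan f (Nat.xor f r) suf (Nat.xor f r)) false) false) false) false

/-- The checker: `fs` is the list of the facets that remain, `rs` the list of their restriction sets, `pre` the list
of the facets that have been treated (in the reverse order), and `n` facets have to be treated. -/
def chk (k w : ℕ) (n : ℕ) : List ℕ → List ℕ → List ℕ → Bool :=
  Nat.rec (motive := fun _ => List ℕ → List ℕ → List ℕ → Bool) (fun _ _ _ => true)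
    (fun _ ih fs rs pre => List.rec (motive := fun _ => Bool) false
      (fun f fs' _ => List.rec (motive := fun _ => Bool) false
        (fun r rs' _ => bif' (chk1 k w f r pre fs') (ih fs' rs' (f :: pre)) false) rs) fs) n

theorem bif'_eq_true {c t : Bool} : bif' c t false = true ↔ c = true ∧ t = true := by
  cases c
  · simp [bif'_false]
  · simp [bif'_true]

theorem chk_sound (k w n : ℕ) : ∀ fs rs pre : List ℕ, chk k w n fs rs pre = true →
    n ≤ fs.length ∧ n ≤ rs.length ∧ ∀ j < n,
      chk1 k w (fs.getD j 0) (rs.getD j 0) ((fs.take j).reverse ++ pre) (fs.drop (j + 1)) = true := by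
  induction n with
  | zero => intro fs rs pre _; exact ⟨Nat.zero_le _, Nat.zero_le _, fun j hj => absurd hj (Nat.not_lt_zero _)⟩
  | succ n ih =>
    intro fs rs pre h
    cases fs with
    | nil => exact absurd h (by show ¬ (false = true); simp)
    | cons f fs =>
      cases rs with
      | nil => exact absurd h (by show ¬ (false = true); simp)
      | cons r rs =>
        have h1 : bif' (chk1 k w f r pre fs) (chk k w n fs rs (f :: pre)) false = true := h
        rw [bif'_eq_true] at h1
        obtain ⟨h2, h3, h4⟩ := ih _ _ _ h1.2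
        refine ⟨by simpa using h2, by simpa using h3, fun j hj => ?_⟩
        cases j with
        | zero => simpa using h1.1
        | succ j =>
          have := h4 j (by omega)
          simpa using this

theorem chk1_sound {k w f r : ℕ} {pre suf : List ℕ} (h : chk1 k w f r pre suf = true) :
    f < 2 ^ w ∧ pc w f = k ∧ r &&& f = r ∧ scan f r pre r = true ∧ scan f (f ^^^ r) suf (f ^^^ r) = true := by
  unfold chk1 at h
  rw [bif'_eq_true, bif'_eq_true, bif'_eq_true, bif'_eq_true] at h
  obtain ⟨h1, h2, h3, h4, h5⟩ := h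
  refine ⟨?_, Nat.eq_of_beq_eq_true h2, Nat.eq_of_beq_eq_true h3, h4, h5⟩
  rw [Nat.blt_eq] at h1
  exact h1

/-! ### the shelling -/

/-- the set with the bitmask `n` -/
def toF (M n : ℕ) : Finset (Fin M) := Finset.univ.filter fun v => n.testBit v.1 = true

theorem mem_toF {M n : ℕ} {v : Fin M} : v ∈ toF M n ↔ n.testBit v.1 = true := by simp [toF]

theorem card_toF {M w n : ℕ} (hM : w ≤ M) (hn : n < 2 ^ w) : (toF M n).card = pc w n := by
  rw [pc_eq]
  symm
  refine Finset.card_bij' (fun v hv => ⟨v, ?_⟩) (fun v _ => v.1) ?_ ?_ ?_ ?_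
  · rw [Finset.mem_filter, Finset.mem_range] at hv
    omega
  · intro v hv
    rw [Finset.mem_filter] at hv
    rw [mem_toF]
    exact hv.2
  · intro v hv
    rw [mem_toF] at hv
    rw [Finset.mem_filter, Finset.mem_range]
    refine ⟨?_, hv⟩
    by_contra h
    rw [Nat.testBit_lt_two_pow (lt_of_lt_of_le hn (Nat.pow_le_pow_right (by norm_num) (not_lt.1 h)))] at hv
    exact absurd hv (by simp)
  · intro v hv; rfl
  · intro v hv; rfl

theorem shl_of_chk {M k w : ℕ} (hM : w ≤ M) {fs rs : List ℕ} (h : chk k w fs.length fs rs [] = true) :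
    Shl k fs.length (fun j => toF M (fs.getD j 0)) (fun j => toF M (rs.getD j 0)) := by
  obtain ⟨-, -, h1⟩ := chk_sound _ _ _ _ _ _ h
  have h2 : ∀ j < fs.length, _ := fun j hj => chk1_sound (h1 j hj)
  have hsub : ∀ j < fs.length, ∀ v, (rs.getD j 0).testBit v = true → (fs.getD j 0).testBit v = true := by
    intro j hj v hv
    obtain ⟨-, -, h3, -, -⟩ := h2 j hj
    rw [← h3, Nat.testBit_land, Bool.and_eq_true] at hv
    exact hv.2
  have hlt : ∀ j < fs.length, ∀ v, (fs.getD j 0).testBit v = true → v < M := by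
    intro j hj v hv
    obtain ⟨h3, -⟩ := h2 j hj
    by_contra h
    rw [Nat.testBit_lt_two_pow (lt_of_lt_of_le h3 (Nat.pow_le_pow_right (by norm_num) (hM.trans (not_lt.1 h))))] at hv
    exact absurd hv (by simp)
  have hpre : ∀ j < fs.length, ∀ g, g ∈ (fs.take j).reverse ++ [] ↔ ∃ i < j, fs.getD i 0 = g := by
    intro j hj g
    rw [List.append_nil, List.mem_reverse, List.mem_take_iff_getElem]
    constructor
    · rintro ⟨i, hi, rfl⟩
      exact ⟨i, by omega, List.getD_eq_getElem _ _ (by omega)⟩
    · rintro ⟨i, hi, rfl⟩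
      exact ⟨i, by omega, (List.getD_eq_getElem _ _ (by omega)).symm⟩
  have hsuf : ∀ j < fs.length, ∀ g, g ∈ fs.drop (j + 1) ↔ ∃ i < fs.length, j < i ∧ fs.getD i 0 = g := by
    intro j hj g
    rw [List.mem_drop_iff_getElem]
    constructor
    · rintro ⟨i, hi, rfl⟩
      exact ⟨j + 1 + i, by omega, by omega, List.getD_eq_getElem _ _ (by omega)⟩
    · rintro ⟨i, hi, hji, rfl⟩
      refine ⟨i - (j + 1), by omega, ?_⟩
      rw [List.getD_eq_getElem _ _ hi]
      congr 1
      omega
  refine ⟨?_, ?_, ?_, ?_, ?_, ?_⟩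
  · intro j hj
    obtain ⟨h3, h4, -⟩ := h2 j hj
    rw [card_toF hM h3, h4]
  · intro j hj v hv
    rw [mem_toF] at hv ⊢
    exact hsub j hj _ hv
  · intro j hj v hv
    rw [mem_toF] at hv
    obtain ⟨-, -, -, h4, -⟩ := h2 j hj
    obtain ⟨g, hg, h5⟩ := (scan_sound _ _ _ _ h4).2 v.1 hv
    obtain ⟨i, hi, rfl⟩ := (hpre j hj g).1 hg
    refine ⟨i, hi, fun u hu => ?_⟩
    rw [Finset.mem_erase, mem_toF] at hu
    rw [mem_toF]
    exact h5 u.1 hu.2 fun h => hu.1 (Fin.ext h)
  · intro j hj v hv hvR
    rw [mem_toF] at hv hvR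
    rw [Bool.not_eq_true] at hvR
    obtain ⟨-, -, -, -, h4⟩ := h2 j hj
    obtain ⟨g, hg, h5⟩ := (scan_sound _ _ _ _ h4).2 v.1 (by rw [Nat.testBit_xor, hv, hvR]; rfl)
    obtain ⟨i, hi, hji, rfl⟩ := (hsuf j hj g).1 hg
    refine ⟨i, hi, hji, fun u hu => ?_⟩
    rw [Finset.mem_erase, mem_toF] at hu
    rw [mem_toF]
    exact h5 u.1 hu.2 fun h => hu.1 (Fin.ext h)
  · intro j hj i hi hR
    obtain ⟨-, -, -, h4, -⟩ := h2 j hj
    obtain ⟨v, hv | hv⟩ := (scan_sound _ _ _ _ h4).1 _ ((hpre j hj _).2 ⟨i, hi, rfl⟩)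
    · have h5 := hlt j hj v (hsub j hj v hv.1)
      have h6 : (⟨v, h5⟩ : Fin M) ∈ toF M (rs.getD j 0) := mem_toF.2 hv.1
      have h7 := mem_toF.1 (hR h6)
      rw [hv.2] at h7
      exact absurd h7 (by simp)
    · have h5 := hsub j hj v hv.1
      rw [hv.2] at h5
      exact absurd h5 (by simp)
  · intro i hi j hj hR
    have hj' : j < fs.length := by omega
    obtain ⟨-, -, -, -, h4⟩ := h2 j hj'
    obtain ⟨v, hv⟩ := (scan_sound _ _ _ _ h4).1 _ ((hsuf j hj' _).2 ⟨i, hi, hj, rfl⟩)
    have h5 : (fs.getD j 0 ^^^ rs.getD j 0).testBit v = true := by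
      rcases hv with hv | hv <;> exact hv.1
    have h6 : (fs.getD j 0).testBit v = true ∧ (rs.getD j 0).testBit v = false := by
      rw [Nat.testBit_xor] at h5
      cases h7 : (rs.getD j 0).testBit v
      · rw [h7] at h5
        simpa using h5
      · rw [hsub j hj' v h7, h7] at h5
        exact absurd h5 (by simp)
    have h7 := hlt j hj' v h6.1
    have h8 : (⟨v, h7⟩ : Fin M) ∈ toF M (fs.getD j 0) \ toF M (rs.getD j 0) := by
      rw [Finset.mem_sdiff, mem_toF, mem_toF, h6.2]
      exact ⟨h6.1, by simp⟩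
    have h9 := mem_toF.1 (hR h8)
    rcases hv with hv | hv
    · rw [hv.2] at h9
      exact absurd h9 (by simp)
    · rw [hv.2] at h6
      exact absurd h6.1 (by simp)

/-- the complex with the facets `fs` -/
def cx (M : ℕ) (fs : List ℕ) : Set (Finset (Fin M)) := {T | ∃ f ∈ fs, T ⊆ toF M f}

/-- **The certificate.** -/
theorem sp_of_chk {M k w : ℕ} (hM : w + 2 ≤ M) {fs rs : List ℕ} (hl : 2 ≤ fs.length)
    (h : chk k w fs.length fs rs [] = true) : Sp k (cx M fs) := by
  have h1 := shl_of_chk (M := M) (by omega) h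
  obtain ⟨-, -, h2⟩ := chk_sound _ _ _ _ _ _ h
  have hlt : ∀ j < fs.length, ∀ v : Fin M, v ∈ toF M (fs.getD j 0) → v.1 < w := by
    intro j hj v hv
    obtain ⟨h3, -⟩ := chk1_sound (h2 j hj)
    rw [mem_toF] at hv
    by_contra h
    rw [Nat.testBit_lt_two_pow (lt_of_lt_of_le h3 (Nat.pow_le_pow_right (by norm_num) (not_lt.1 h)))] at hv
    exact absurd hv (by simp)
  have h3 := sp_shell h1 hl (a := ⟨w, by omega⟩) (b := ⟨w + 1, by omega⟩)
    (fun j hj h => absurd (hlt j hj _ h) (by simp)) (fun j hj h => absurd (hlt j hj _ h) (by simp)) (by simp)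
  have e : cx M fs = {T : Finset (Fin M) | ∃ i < fs.length, T ⊆ toF M (fs.getD i 0)} := by
    ext T
    constructor
    · rintro ⟨f, hf, hT⟩
      obtain ⟨i, hi, rfl⟩ := List.mem_iff_getElem.1 hf
      exact ⟨i, hi, by rw [List.getD_eq_getElem _ _ hi]; exact hT⟩
    · rintro ⟨i, hi, hT⟩
      exact ⟨_, List.getElem_mem hi, by rw [List.getD_eq_getElem _ _ hi] at hT; exact hT⟩
  rw [e]
  exact h3

end Pool.Agent.U729.LT
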