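import Pool.Agent.U729.LT.PLS

/-!
# Embeddings of the realizations in the unit sphere, and bistellar flips
-/

set_option autoImplicit false

noncomputable section

namespace Pool.Agent.U729.LT

open Module Pool.Agent.W907.SG

variable {V : Type} [Fintype V] [LinearOrder V]

omit [LinearOrder V] in
open Classical in
/-- the support -/
def sp (x : V → ℝ) : Finset V := Finset.univ.filter fun v => x v ≠ 0

omit [LinearOrder V] in
theorem mem_sp {x : V → ℝ} {v : V} : v ∈ sp x ↔ x v ≠ 0 := by simp [sp]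

/-- the realization -/
def RX (K : Set (Finset V)) : Set (V → ℝ) := {x | (∀ v, 0 ≤ x v) ∧ ∑ v, x v = 1 ∧ sp x ∈ K}

/-- there is an embedding of the realization of `K` in the unit sphere of `ℝ^D` -/
def Em (D : ℕ) (K : Set (Finset V)) : Prop := ∃ f : (V → ℝ) → EuclideanSpace ℝ (Fin D), ContinuousOn f (RX K) ∧
  (∀ x ∈ RX K, ‖f x‖ = 1) ∧ Set.InjOn f (RX K)

omit [LinearOrder V] in
theorem Em.comp {U : Type} [Fintype U] {D : ℕ} {K : Set (Finset V)} {K' : Set (Finset U)} (h : Em D K)
    (φ : (U → ℝ) → (V → ℝ)) (hc : ContinuousOn φ (RX K'))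
    (hm : ∀ x ∈ RX K', φ x ∈ RX K) (hi : Set.InjOn φ (RX K')) : Em D K' := by
  obtain ⟨f, h1, h2, h3⟩ := h
  exact ⟨f ∘ φ, h1.comp hc hm, fun x hx => h2 _ (hm x hx), h3.comp hi hm⟩

section st

variable {K : Set (Finset V)} {A : Finset V} {m : V}

theorem Em.stel {D : ℕ} (h : Em D K) (hK : Dn K) (hm : ∀ T ∈ K, m ∉ T) (hA : A ∈ K) (hA0 : A.Nonempty) :
    Em D (st K A m) := by
  have hmA := hm A hA
  have hA1 : (0 : ℝ) < A.card := by exact_mod_cast hA0.card_pos
  obtain ⟨φ, hφ⟩ : ∃ φ : (V → ℝ) → (V → ℝ), ∀ x v, φ x v = if v = m then 0 else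
    x v + if v ∈ A then x m / A.card else 0 := ⟨_, fun _ _ => rfl⟩
  have hmin : ∀ x ∈ RX (st K A m), ∃ a ∈ A, x a = 0 := by
    intro x hx
    obtain ⟨a, ha, ha2⟩ := Finset.not_subset.1 hx.2.2.1
    exact ⟨a, ha, by rwa [mem_sp, not_not] at ha2⟩
  refine h.comp φ (Continuous.continuousOn ?_) ?_ ?_
  · refine continuous_pi fun v => ?_
    simp only [hφ]
    split_ifs <;> fun_prop
  · intro x hx
    refine ⟨fun v => ?_, ?_, ?_⟩
    · rw [hφ]
      have h1 := hx.1 v
      have h2 := hx.1 m
      split_ifs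
      · exact le_rfl
      · positivity
      · linarith
    · have e1 : ∀ v, φ x v = x v + ((if v ∈ A then x m / A.card else 0) - if v = m then x m else 0) := by
        intro v
        rw [hφ]
        by_cases hv : v = m
        · rw [if_pos hv, if_pos hv, if_neg (by rw [hv]; exact hmA), hv]; ring
        · rw [if_neg hv, if_neg hv]; ring
      rw [Finset.sum_congr rfl fun v _ => e1 v, Finset.sum_add_distrib, Finset.sum_sub_distrib, hx.2.1,
        ← Finset.sum_filter, ← Finset.sum_filter, Finset.sum_const, Finset.sum_const]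
      have e2 : (Finset.univ.filter fun v => v ∈ A) = A := by ext v; simp
      have e3 : (Finset.univ.filter fun v => v = m) = {m} := by ext v; simp
      rw [e2, e3, Finset.card_singleton, one_smul, nsmul_eq_mul, mul_div_cancel₀ _ hA1.ne']
      ring
    · rcases hx.2.2.2 with ⟨h1, h2⟩ | ⟨h1, h2⟩
      · refine hK _ _ h2 fun v hv => ?_
        rw [mem_sp, not_not] at h1
        rw [mem_sp, hφ] at hv
        rw [mem_sp]
        intro h3
        apply hv
        rw [h1, h3]
        simp
      · refine hK _ _ h2 fun v hv => ?_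
        rw [mem_sp, hφ] at hv
        rw [Finset.mem_union, Finset.mem_erase, mem_sp]
        by_contra h3
        push Not at h3
        apply hv
        by_cases hvm : v = m
        · rw [if_pos hvm]
        · rw [if_neg hvm, h3.1 hvm, if_neg h3.2, add_zero]
  · intro x hx y hy hxy
    have key : ∀ x ∈ RX (st K A m), ∀ y ∈ RX (st K A m), φ x = φ y → y m ≤ x m := by
      intro x hx y hy hxy
      obtain ⟨a, ha, ha2⟩ := hmin x hx
      have h1 := congrFun hxy a
      have ham : a ≠ m := fun h => hmA (h ▸ ha)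
      rw [hφ, hφ, if_neg ham, if_neg ham, if_pos ha, if_pos ha, ha2, zero_add] at h1
      have h2 := hy.1 a
      have h3 : y m / A.card ≤ x m / A.card := by linarith
      exact (div_le_div_iff_of_pos_right hA1).1 h3
    have h1 : x m = y m := le_antisymm (key y hy x hx hxy.symm) (key x hx y hy hxy)
    funext v
    by_cases hvm : v = m
    · rw [hvm, h1]
    · have h2 := congrFun hxy v
      rw [hφ, hφ, if_neg hvm, if_neg hvm, h1] at h2
      exact add_right_cancel h2

theorem Em.of_stel {D : ℕ} (h : Em D (st K A m)) (hK : Dn K) (hm : ∀ T ∈ K, m ∉ T) (hA : A ∈ K)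
    (hA0 : A.Nonempty) : Em D K := by
  have hmA := hm A hA
  have hA1 : (0 : ℝ) < A.card := by exact_mod_cast hA0.card_pos
  obtain ⟨μ, hμ⟩ : ∃ μ : (V → ℝ) → ℝ, ∀ y, μ y = A.inf' hA0 y := ⟨fun y => A.inf' hA0 y, fun _ => rfl⟩
  have hμc : Continuous μ := by
    have : μ = fun y => A.inf' hA0 fun a => y a := funext hμ
    rw [this]
    exact Continuous.finset_inf'_apply hA0 fun a _ => continuous_apply a
  have hμle : ∀ y, ∀ a ∈ A, μ y ≤ y a := fun y a ha => by rw [hμ]; exact Finset.inf'_le _ ha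
  have hμex : ∀ y, ∃ a ∈ A, μ y = y a := fun y => by
    obtain ⟨a, ha, h1⟩ := Finset.exists_mem_eq_inf' hA0 y
    exact ⟨a, ha, by rw [hμ, h1]⟩
  obtain ⟨φ, hφ⟩ : ∃ φ : (V → ℝ) → (V → ℝ), ∀ y v, φ y v = if v = m then A.card * μ y else
    y v - if v ∈ A then μ y else 0 := ⟨_, fun _ _ => rfl⟩
  have hym : ∀ y ∈ RX K, y m = 0 := by
    intro y hy
    have := hm _ hy.2.2
    rwa [mem_sp, not_not] at this
  have hμ0 : ∀ y ∈ RX K, 0 ≤ μ y := by
    intro y hy
    obtain ⟨a, -, h1⟩ := hμex y
    rw [h1]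
    exact hy.1 a
  refine h.comp φ (Continuous.continuousOn ?_) ?_ ?_
  · refine continuous_pi fun v => ?_
    simp only [hφ]
    split_ifs <;> fun_prop
  · intro y hy
    refine ⟨fun v => ?_, ?_, ?_⟩
    · rw [hφ]
      have h1 := hy.1 v
      have h2 := hμ0 y hy
      split_ifs with h3 h4
      · positivity
      · linarith [hμle y v h4]
      · linarith
    · have e1 : ∀ v, φ y v = y v + ((if v = m then A.card * μ y else 0) - if v ∈ A then μ y else 0) := by
        intro v
        rw [hφ]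
        by_cases hv : v = m
        · rw [if_pos hv, if_pos hv, if_neg (by rw [hv]; exact hmA), hv, hym y hy]; ring
        · rw [if_neg hv, if_neg hv]; ring
      rw [Finset.sum_congr rfl fun v _ => e1 v, Finset.sum_add_distrib, Finset.sum_sub_distrib, hy.2.1,
        ← Finset.sum_filter, ← Finset.sum_filter, Finset.sum_const, Finset.sum_const]
      have e2 : (Finset.univ.filter fun v => v ∈ A) = A := by ext v; simp
      have e3 : (Finset.univ.filter fun v => v = m) = {m} := by ext v; simp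
      rw [e2, e3, Finset.card_singleton, one_smul, nsmul_eq_mul]
      ring
    · have hA2 : ¬ A ⊆ sp (φ y) := by
        intro h1
        obtain ⟨a, ha, h2⟩ := hμex y
        have h3 := h1 ha
        rw [mem_sp, hφ, if_neg (fun h : a = m => hmA (h ▸ ha)), if_pos ha, h2, sub_self] at h3
        exact h3 rfl
      refine ⟨hA2, ?_⟩
      rcases (hμ0 y hy).eq_or_lt with h1 | h1
      · refine Or.inl ⟨?_, ?_⟩
        · rw [mem_sp, hφ, if_pos rfl, ← h1, mul_zero, not_not]
        · refine hK _ _ hy.2.2 fun v hv => ?_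
          rw [mem_sp, hφ] at hv
          rw [mem_sp]
          intro h3
          apply hv
          rw [← h1, h3]
          simp
      · refine Or.inr ⟨?_, ?_⟩
        · rw [mem_sp, hφ, if_pos rfl]
          positivity
        · refine hK _ _ hy.2.2 fun v hv => ?_
          rw [Finset.mem_union, Finset.mem_erase, mem_sp, hφ] at hv
          rw [mem_sp]
          by_cases hvA : v ∈ A
          · exact (h1.trans_le (hμle y v hvA)).ne'
          · rcases hv with ⟨h2, h3⟩ | h2
            · rw [if_neg h2, if_neg hvA, sub_zero] at h3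
              exact h3
            · exact absurd h2 hvA
  · intro x hx y hy hxy
    have h1 := congrFun hxy m
    rw [hφ, hφ, if_pos rfl, if_pos rfl] at h1
    have h2 : μ x = μ y := mul_left_cancel₀ hA1.ne' h1
    funext v
    by_cases hvm : v = m
    · rw [hvm, hym x hx, hym y hy]
    · have h3 := congrFun hxy v
      rw [hφ, hφ, if_neg hvm, if_neg hvm, h2] at h3
      exact sub_left_injective h3

end st

/-- the boundary of a simplex -/
theorem em_simplex {A : Finset V} {k : ℕ} (hk : A.card = k + 1) :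
    Em k {T : Finset V | T ⊆ A ∧ T ≠ A} := by
  classical
  obtain ⟨e⟩ : Nonempty (Fin (k + 1) ≃ A) := ⟨(Fintype.equivFinOfCardEq (by simp [hk])).symm⟩
  obtain ⟨g, hg⟩ : ∃ g : (V → ℝ) → EuclideanSpace ℝ (Fin k), ∀ x i, g x i = x (e i.castSucc) - x (e (Fin.last k)) :=
    ⟨fun x => WithLp.toLp 2 fun i => x (e i.castSucc) - x (e (Fin.last k)), fun _ _ => rfl⟩
  have hgc : Continuous g := by
    have : g = fun x => WithLp.toLp 2 fun i : Fin k => x (e i.castSucc) - x (e (Fin.last k)) := by
      funext x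
      ext i
      rw [hg]
    rw [this]
    fun_prop
  have hzero : ∀ x ∈ RX {T : Finset V | T ⊆ A ∧ T ≠ A}, (∃ a ∈ A, x a = 0) ∧ ∀ v, v ∉ A → x v = 0 := by
    intro x hx
    constructor
    · by_contra h
      push Not at h
      refine hx.2.2.2 (le_antisymm hx.2.2.1 fun a ha => ?_)
      rw [mem_sp]
      exact h a ha
    · intro v hv
      by_contra h
      exact hv (hx.2.2.1 (mem_sp.2 h))
  have hsum : ∀ x ∈ RX {T : Finset V | T ⊆ A ∧ T ≠ A}, ∑ i, x (e i) = 1 := by
    intro x hx
    rw [← hx.2.1, e.sum_comp (fun a : A => x a), Finset.sum_coe_sort A x]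
    exact Finset.sum_subset (Finset.subset_univ _) fun v _ hv => (hzero x hx).2 v hv
  -- the main property of `g`
  have hg0 : ∀ x ∈ RX {T : Finset V | T ⊆ A ∧ T ≠ A}, ∀ y ∈ RX {T : Finset V | T ⊆ A ∧ T ≠ A}, ∀ c : ℝ, 0 ≤ c →
      g x = c • g y → x = c • y := by
    intro x hx y hy c hc h
    have h1 : ∀ i, x (e i) = c * y (e i) + (x (e (Fin.last k)) - c * y (e (Fin.last k))) := by
      intro i
      refine Fin.lastCases ?_ (fun i => ?_) i
      · ring
      · have h2 : g x i = (c • g y) i := by rw [h]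
        rw [PiLp.smul_apply, hg, hg, smul_eq_mul] at h2
        linarith
    obtain ⟨δ, hδ⟩ : ∃ δ, δ = x (e (Fin.last k)) - c * y (e (Fin.last k)) := ⟨_, rfl⟩
    rw [← hδ] at h1
    obtain ⟨⟨a, ha, hxa⟩, hx0⟩ := hzero x hx
    obtain ⟨⟨b, hb, hyb⟩, hy0⟩ := hzero y hy
    have h2 := h1 (e.symm ⟨a, ha⟩)
    have h3 := h1 (e.symm ⟨b, hb⟩)
    rw [Equiv.apply_symm_apply] at h2 h3
    simp only at h2 h3
    have h4 := mul_nonneg hc (hy.1 a)
    have h5 := hx.1 b
    rw [hxa] at h2
    rw [hyb] at h3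
    have hδ0 : δ = 0 := by linarith
    funext v
    rw [Pi.smul_apply, smul_eq_mul]
    by_cases hv : v ∈ A
    · have h6 := h1 (e.symm ⟨v, hv⟩)
      rw [Equiv.apply_symm_apply, hδ0, add_zero] at h6
      exact h6
    · rw [hx0 v hv, hy0 v hv, mul_zero]
  have hgne : ∀ x ∈ RX {T : Finset V | T ⊆ A ∧ T ≠ A}, g x ≠ 0 := by
    intro x hx h
    have h1 := hg0 x hx x hx 0 le_rfl (by rw [h, zero_smul])
    rw [zero_smul] at h1
    have h2 := hx.2.1
    rw [h1] at h2
    simp at h2
  refine ⟨fun x => ‖g x‖⁻¹ • g x, ?_, ?_, ?_⟩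
  · refine ContinuousOn.smul (ContinuousOn.inv₀ hgc.norm.continuousOn fun x hx => ?_) hgc.continuousOn
    exact norm_ne_zero_iff.2 (hgne x hx)
  · intro x hx
    rw [norm_smul, norm_inv, norm_norm, inv_mul_cancel₀ (norm_ne_zero_iff.2 (hgne x hx))]
  · intro x hx y hy hxy
    have hxy : ‖g x‖⁻¹ • g x = ‖g y‖⁻¹ • g y := hxy
    have hx1 := norm_ne_zero_iff.2 (hgne x hx)
    have h1 : g x = (‖g x‖ * ‖g y‖⁻¹) • g y := by
      rw [mul_smul, ← hxy, smul_smul, mul_inv_cancel₀ hx1, one_smul]
    have h2 := hg0 x hx y hy _ (by positivity) h1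
    have h3 : ‖g x‖ * ‖g y‖⁻¹ = 1 := by
      have h4 := hx.2.1
      rw [h2] at h4
      simp only [Pi.smul_apply, smul_eq_mul] at h4
      rw [← Finset.mul_sum, hy.2.1, mul_one] at h4
      exact h4
    rw [h3, one_smul] at h2
    exact h2

/-! ### both properties, and bistellar flips -/

/-- `K` is a real homology sphere (with all its links) of dimension `k - 1` the realization of which embeds in the
unit sphere of `ℝ^k`, and `K` is a combinatorial sphere -/
def Sp (k : ℕ) (K : Set (Finset V)) : Prop := GS k K ∧ Em k K ∧ PX k K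

theorem sp_simplex {A : Finset V} (hA : A.Nonempty) {k : ℕ} (hk : A.card = k + 1) :
    Sp k {T : Finset V | T ⊆ A ∧ T ≠ A} := ⟨gs_simplex hA hk, em_simplex hk, px_simplex hk⟩

theorem Sp.stel {K : Set (Finset V)} {A : Finset V} {m : V} {k : ℕ} (h : Sp k K) (hm : ∀ T ∈ K, m ∉ T) (hA : A ∈ K)
    (hA0 : A.Nonempty) : Sp k (st K A m) :=
  ⟨h.1.stel hm hA hA0, h.2.1.stel h.1.2.1 hm hA hA0, h.2.2.stel hm hA hA0⟩

theorem Sp.of_stel {K : Set (Finset V)} {A : Finset V} {m : V} {k : ℕ} (h : Sp k (st K A m)) (hK : Dn K)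
    (h0 : ∅ ∈ K) (hm : ∀ T ∈ K, m ∉ T) (hA : A ∈ K) (hA0 : A.Nonempty) : Sp k K :=
  ⟨GS.of_stel hK h0 hm hA hA0 h.1, Em.of_stel h.2.1 hK hm hA hA0, h.2.2.of_stel hK hm hA hA0⟩

/-- the result of the flip `(A, B)` -/
def flip (K : Set (Finset V)) (A B : Finset V) : Set (Finset V) :=
  {T | ¬ A ⊆ T ∧ (T ∈ K ∨ (B ⊆ T ∧ T ⊆ A ∪ B))}

/-- `(A, B)` is an admissible bistellar flip: the link of `A` is the boundary of `B`, and `B` is not a simplex -/
structure IsFlip (K : Set (Finset V)) (A B : Finset V) : Prop where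
  neA : A.Nonempty
  neB : B.Nonempty
  dis : Disjoint A B
  hB : B ∉ K
  lk : ∀ T, Disjoint T A → (T ∪ A ∈ K ↔ T ⊂ B)

omit [Fintype V] in
theorem flip_dn {K : Set (Finset V)} {A B : Finset V} (hK : Dn K) (h : IsFlip K A B) : Dn (flip K A B) := by
  intro S T hS hTS
  refine ⟨fun h1 => hS.1 (h1.trans hTS), ?_⟩
  rcases hS.2 with h1 | ⟨h1, h2⟩
  · exact Or.inl (hK _ _ h1 hTS)
  · by_cases h3 : B ⊆ T
    · exact Or.inr ⟨h3, hTS.trans h2⟩
    · left
      have h4 : T \ A ⊂ B := by
        refine ⟨?_, fun h5 => h3 fun x hx => (Finset.mem_sdiff.1 (h5 hx)).1⟩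
        intro x hx
        rw [Finset.mem_sdiff] at hx
        rcases Finset.mem_union.1 (h2 (hTS hx.1)) with h6 | h6
        · exact absurd h6 hx.2
        · exact h6
      have h5 := (h.lk (T \ A) Finset.sdiff_disjoint).2 h4
      exact hK _ _ h5 (by rw [Finset.sdiff_union_self_eq_union]; exact Finset.subset_union_left)

theorem Sp.flip {K : Set (Finset V)} {A B : Finset V} {k : ℕ} (h : Sp k K) (hf : IsFlip K A B) (m : V)
    (hm : ∀ T ∈ K, m ∉ T) (hmB : m ∉ B) : Sp k (flip K A B) := by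
  obtain ⟨hA0, hB0, hd, hB, hlk⟩ := hf
  have hK := h.1.2.1
  have h0 := h.1.1
  have hA : A ∈ K := by
    have := (hlk ∅ (Finset.disjoint_empty_left _)).2 (Finset.empty_ssubset.2 hB0)
    rwa [Finset.empty_union] at this
  have hmA := hm A hA
  have hAB : ¬ A ⊆ B := fun h1 => by
    obtain ⟨a, ha⟩ := hA0
    exact Finset.disjoint_left.1 hd ha (h1 ha)
  have hkey : st (Pool.Agent.U729.LT.flip K A B) B m = st K A m := by
    ext T
    constructor
    · rintro ⟨h1, ⟨h2, h3, h4⟩ | ⟨h2, h3, h4⟩⟩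
      · rcases h4 with h4 | h4
        · exact ⟨h3, Or.inl ⟨h2, h4⟩⟩
        · exact absurd h4.1 h1
      · rcases h4 with h4 | ⟨h4, h5⟩
        · exact absurd (hK _ _ h4 Finset.subset_union_right) hB
        · have h6 : ¬ A ⊆ T := by
            intro h7
            apply h3
            intro x hx
            exact Finset.mem_union_left _ (Finset.mem_erase.2 ⟨fun h => hmA (h ▸ hx), h7 hx⟩)
          refine ⟨h6, Or.inr ⟨h2, ?_⟩⟩
          have h7 : T.erase m \ A ⊂ B := by
            refine ⟨?_, fun h8 => h1 fun x hx => ?_⟩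
            · intro x hx
              rw [Finset.mem_sdiff] at hx
              rcases Finset.mem_union.1 (h5 (Finset.mem_union_left _ hx.1)) with h8 | h8
              · exact absurd h8 hx.2
              · exact h8
            · exact Finset.mem_of_mem_erase (Finset.mem_sdiff.1 (h8 hx)).1
          have h8 := (hlk _ Finset.sdiff_disjoint).2 h7
          rwa [Finset.sdiff_union_self_eq_union] at h8
    · rintro ⟨h1, ⟨h2, h3⟩ | ⟨h2, h3⟩⟩
      · refine ⟨fun h4 => hB (hK _ _ h3 h4), Or.inl ⟨h2, h1, Or.inl h3⟩⟩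
      · have h4 : T.erase m \ A ⊂ B := by
          rw [← hlk _ Finset.sdiff_disjoint, Finset.sdiff_union_self_eq_union]
          exact h3
        have h5 : ¬ B ⊆ T := by
          intro h6
          apply h4.2
          intro x hx
          exact Finset.mem_sdiff.2 ⟨Finset.mem_erase.2 ⟨fun h => hmB (h ▸ hx), h6 hx⟩,
            fun h => Finset.disjoint_left.1 hd h hx⟩
        refine ⟨h5, Or.inr ⟨h2, ?_, Or.inr ⟨Finset.subset_union_right, ?_⟩⟩⟩
        · intro h6
          apply h1
          intro x hx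
          rcases Finset.mem_union.1 (h6 hx) with h7 | h7
          · exact Finset.mem_of_mem_erase h7
          · exact absurd h7 (Finset.disjoint_left.1 hd hx)
        · refine Finset.union_subset ?_ Finset.subset_union_right
          intro x hx
          by_cases hxA : x ∈ A
          · exact Finset.mem_union_left _ hxA
          · exact Finset.mem_union_right _ (h4.1 (Finset.mem_sdiff.2 ⟨hx, hxA⟩))
  have hf' : IsFlip K A B := ⟨hA0, hB0, hd, hB, hlk⟩
  refine Sp.of_stel (A := B) (m := m) ?_ (flip_dn hK hf') ⟨?_, Or.inl h0⟩ ?_ ⟨hAB, Or.inr ⟨le_rfl,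
    Finset.subset_union_right⟩⟩ hB0
  · rw [hkey]
    exact h.stel hm hA hA0
  · intro h1
    exact hA0.ne_empty (Finset.subset_empty.1 h1)
  · rintro T ⟨h1, h2 | ⟨h2, h3⟩⟩
    · exact hm T h2
    · intro h4
      rcases Finset.mem_union.1 (h3 h4) with h5 | h5
      · exact hmA h5
      · exact hmB h5

end Pool.Agent.U729.LT
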