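import Pool.Agent.U729.LT.Rel
import Pool.Agent.TH652.QDef
import Pool.Agent.R782.Bal.Emb

/-!
# Flag spheres from arbitrary triangulated spheres
-/

set_option autoImplicit false

noncomputable section

namespace Pool.Agent.U729.LT

open Module Pool.Agent.W907.SG
open Pool.Agent.R782.Bal (Rea)
open Pool.Agent.W907.SM (lk)
open Pool.Agent.TH652.Above (HSph)

/-! ### graphs -/

section graph

variable {U : Type} [Fintype U] [LinearOrder U]

/-- the Betti numbers of full subcomplexes of flag complexes -/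
theorem beta_eq (G : SimpleGraph U) (A : Set U) (i : ℕ) :
    beta G (fun _ => (- LinearMap.id : ℝ →ₗ[ℝ] ℝ)) A ∅ i =
      bX {T : Finset U | G.IsClique (T : Set U) ∧ (T : Set U) ⊆ A} i := by
  obtain ⟨X, hX⟩ : ∃ X : Set (Finset U), X = {T : Finset U | G.IsClique (T : Set U) ∧ (T : Set U) ⊆ A} := ⟨_, rfl⟩
  have hXd : Dn X := by
    intro S T hS h
    rw [hX] at hS ⊢
    exact ⟨hS.1.subset (Finset.coe_subset.2 h), (Finset.coe_subset.2 h).trans hS.2⟩
  rw [← hX]
  have h1 : ∀ i, KK G (fun _ => (- LinearMap.id : ℝ →ₗ[ℝ] ℝ)) A ∅ i = CX X i := by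
    intro i
    ext c
    rw [mem_KK, mem_CX]
    constructor
    · rintro ⟨h1, -⟩ T hT
      refine h1 T fun h2 => hT ⟨?_, h2.2.2⟩
      rw [hX]
      exact ⟨h2.1, h2.2.1⟩
    · intro h1
      refine ⟨fun T hT => h1 T fun h2 => hT ?_, fun T t _ => rfl⟩
      obtain ⟨h2, h3⟩ := h2
      rw [hX] at h2
      exact ⟨h2.1, h2.2, h3⟩
  have h2 : ∀ i, ∀ c ∈ CX X i, bd ℝ c = dX X c := by
    intro i c hc
    funext T
    by_cases hT : T ∈ X
    · rw [dX_pos _ hT]
    · rw [dX_neg _ hT, bd_apply]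
      refine Finset.sum_eq_zero fun v _ => ?_
      rw [hc, smul_zero]
      rintro ⟨h3, -⟩
      exact hT (hXd _ _ h3 (Finset.subset_insert _ _))
  have h3 : ZZ G (fun _ => (- LinearMap.id : ℝ →ₗ[ℝ] ℝ)) A ∅ i = zX X i := by
    unfold ZZ zX
    rw [h1]
    ext c
    constructor
    · rintro ⟨h4, h5⟩
      refine ⟨h4, ?_⟩
      show dX X c = 0
      rw [← h2 i c h4]
      exact h5
    · rintro ⟨h4, h5⟩
      refine ⟨h4, ?_⟩
      show bd ℝ c = 0
      rw [h2 i c h4]
      exact h5
  have h4 : BB G (fun _ => (- LinearMap.id : ℝ →ₗ[ℝ] ℝ)) A ∅ i = eX X i := by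
    unfold BB eX
    rw [h1]
    ext c
    constructor
    · rintro ⟨d, hd, rfl⟩
      exact ⟨d, hd, (h2 _ d hd).symm⟩
    · rintro ⟨d, hd, rfl⟩
      exact ⟨d, hd, h2 _ d hd⟩
  unfold beta bX
  rw [h3, h4]

omit [Fintype U] in
/-- links in flag complexes -/
theorem lk_eq (G : SimpleGraph U) {S : Finset U} (hS : G.IsClique (S : Set U)) :
    {T : Finset U | G.IsClique (T : Set U) ∧ (T : Set U) ⊆ lk G S} =
      lkX {T : Finset U | G.IsClique (T : Set U)} S := by
  ext T
  constructor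
  · rintro ⟨h1, h2⟩
    refine ⟨?_, ?_⟩
    · rw [Finset.disjoint_left]
      intro x hx hxS
      exact G.loopless.irrefl x (h2 (Finset.mem_coe.2 hx) x hxS)
    · show G.IsClique ((T ∪ S : Finset U) : Set U)
      intro x hx y hy hxy
      rw [Finset.mem_coe, Finset.mem_union] at hx hy
      rcases hx with hx | hx <;> rcases hy with hy | hy
      · exact h1 (Finset.mem_coe.2 hx) (Finset.mem_coe.2 hy) hxy
      · exact h2 (Finset.mem_coe.2 hx) y hy
      · exact (h2 (Finset.mem_coe.2 hy) x hx).symm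
      · exact hS (Finset.mem_coe.2 hx) (Finset.mem_coe.2 hy) hxy
  · rintro ⟨h1, h2⟩
    have h2 : G.IsClique ((T ∪ S : Finset U) : Set U) := h2
    refine ⟨h2.subset (by simp), fun x hx u hu => ?_⟩
    refine h2 (by simp [Finset.mem_coe.1 hx]) (by simp [hu]) ?_
    rintro rfl
    exact Finset.disjoint_left.1 h1 (Finset.mem_coe.1 hx) hu

theorem hsph_of_gs {k : ℕ} {G : SimpleGraph U} (h : GS k {T : Finset U | G.IsClique (T : Set U)}) :
    HSph k G := by
  intro S hS i
  rw [beta_eq, lk_eq G hS]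
  exact h.2.2 S hS i

omit [LinearOrder U] in
theorem rea_eq (G : SimpleGraph U) : Rea G = RX {T : Finset U | G.IsClique (T : Set U)} := by
  ext x
  have e : ((sp x : Finset U) : Set U) = {v | x v ≠ 0} := by
    ext v; simp [sp]
  constructor
  · rintro ⟨h1, h2, h3⟩
    refine ⟨h1, ?_, ?_⟩
    · rw [← h2, finsum_eq_sum_of_fintype]
    · show G.IsClique ((sp x : Finset U) : Set U)
      rw [e]; exact h3
  · rintro ⟨h1, h2, h3⟩
    refine ⟨h1, ?_, ?_⟩
    · rw [← h2, finsum_eq_sum_of_fintype]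
    · rw [← e]; exact h3

end graph

/-! ### restriction to the vertices in use -/

section map

variable {U V : Type} [Fintype U] [LinearOrder U] [Fintype V] [LinearOrder V]

omit [Fintype V] [Fintype U] in
theorem lk_map (φ : U ↪o V) (X : Set (Finset U)) (S : Finset U) :
    (fun T : Finset U => T.map φ.toEmbedding) '' (lkX X S) =
      lkX ((fun T : Finset U => T.map φ.toEmbedding) '' X) (S.map φ.toEmbedding) := by
  classical
  ext T
  constructor
  · rintro ⟨R, ⟨h1, h2⟩, rfl⟩
    refine ⟨(Finset.disjoint_map _).2 h1, ⟨R ∪ S, h2, Finset.map_union _ _⟩⟩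
  · rintro ⟨h1, R, h2, h3⟩
    have h3 : R.map φ.toEmbedding = T ∪ S.map φ.toEmbedding := h3
    have h4 : T ⊆ R.map φ.toEmbedding := by rw [h3]; exact Finset.subset_union_left
    obtain ⟨T', h5, rfl⟩ := Finset.subset_map_iff.1 h4
    refine ⟨T', ⟨(Finset.disjoint_map _).1 h1, ?_⟩, rfl⟩
    have h6 : R = T' ∪ S := by
      apply Finset.map_injective φ.toEmbedding
      rw [h3, Finset.map_union]
    rwa [← h6]

theorem sp_map {φ : U ↪o V} {X : Set (Finset U)} {k : ℕ}
    (h : Sp k ((fun T : Finset U => T.map φ.toEmbedding) '' X)) : Sp k X := by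
  classical
  have hinj := Finset.map_injective φ.toEmbedding
  have hmem : ∀ T : Finset U, T.map φ.toEmbedding ∈ (fun T : Finset U => T.map φ.toEmbedding) '' X ↔ T ∈ X := by
    intro T
    constructor
    · rintro ⟨S, hS, h⟩
      rwa [← hinj h]
    · intro h
      exact ⟨T, h, rfl⟩
  refine ⟨⟨?_, ?_, ?_⟩, ?_, px_map h.2.2⟩
  · rw [← hmem, Finset.map_empty]
    exact h.1.1
  · intro S T hS hTS
    rw [← hmem] at hS ⊢
    exact h.1.2.1 _ _ hS (Finset.map_subset_map.2 hTS)
  · intro S hS i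
    have h1 := h.1.2.2 (S.map φ.toEmbedding) ((hmem S).2 hS) i
    rwa [← lk_map, bX_map, Finset.card_map] at h1
  · obtain ⟨ψ, hψ⟩ : ∃ ψ : (U → ℝ) → (V → ℝ), (∀ x u, ψ x (φ u) = x u) ∧ (∀ x v, v ∉ Set.range φ → ψ x v = 0) ∧
        Continuous ψ := by
      refine ⟨fun x v => if h : v ∈ Set.range φ then x h.choose else 0, ?_, ?_, ?_⟩
      · intro x u
        have hu : φ u ∈ Set.range φ := ⟨u, rfl⟩
        simp only [dif_pos hu]
        congr 1
        exact φ.injective hu.choose_spec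
      · intro x v hv
        simp only [dif_neg hv]
      · refine continuous_pi fun v => ?_
        by_cases hv : v ∈ Set.range φ
        · simp only [dif_pos hv]
          exact continuous_apply _
        · simp only [dif_neg hv]
          exact continuous_const
    obtain ⟨h1, h2, h3⟩ := hψ
    refine h.2.1.comp ψ h3.continuousOn ?_ ?_
    · intro x hx
      refine ⟨fun v => ?_, ?_, ?_⟩
      · by_cases hv : v ∈ Set.range φ
        · obtain ⟨u, rfl⟩ := hv
          rw [h1]
          exact hx.1 u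
        · rw [h2 x v hv]
      · rw [← hx.2.1]
        have e1 : ∑ u, x u = ∑ v ∈ Finset.univ.map φ.toEmbedding, ψ x v := by
          rw [Finset.sum_map]
          refine Finset.sum_congr rfl fun u _ => ?_
          exact (h1 x u).symm
        rw [e1]
        symm
        refine Finset.sum_subset (Finset.subset_univ _) fun v _ hv => h2 x v ?_
        rintro ⟨u, rfl⟩
        exact hv (Finset.mem_map_of_mem _ (Finset.mem_univ u))
      · have : sp (ψ x) = (sp x).map φ.toEmbedding := by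
          ext v
          rw [mem_sp, Finset.mem_map]
          constructor
          · intro h4
            by_cases hv : v ∈ Set.range φ
            · obtain ⟨u, rfl⟩ := hv
              rw [h1] at h4
              exact ⟨u, mem_sp.2 h4, rfl⟩
            · exact absurd (h2 x v hv) h4
          · rintro ⟨u, hu, rfl⟩
            rw [mem_sp] at hu
            show ψ x (φ u) ≠ 0
            rw [h1]
            exact hu
        rw [this, hmem]
        exact hx.2.2
    · intro x _ y _ hxy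
      funext u
      rw [← h1 x u, ← h1 y u, hxy]

end map

/-! ### the flag sphere -/

theorem exists_fresh {V : Type} [Fintype V] [LinearOrder V] {K Q : Set (Finset V)} {U₀ : Finset V}
    (hU : ∀ T ∈ K, T ⊆ U₀) (hc : 2 ^ U₀.card ≤ U₀ᶜ.card) : ∃ code : Finset V → V, Fresh K Q code := by
  classical
  have h1 : Fintype.card (U₀.powerset : Finset (Finset V)) ≤ Fintype.card (U₀ᶜ : Finset V) := by
    rw [Fintype.card_coe, Fintype.card_coe, Finset.card_powerset]
    exact hc
  obtain ⟨g⟩ := Function.Embedding.nonempty_of_card_le h1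
  have hne : (U₀ᶜ : Finset V).Nonempty := by
    rw [← Finset.card_pos]
    exact lt_of_lt_of_le (by positivity) hc
  refine ⟨fun τ => if h : τ ⊆ U₀ then (g ⟨τ, Finset.mem_powerset.2 h⟩).1 else hne.choose, ⟨?_, ?_⟩⟩
  · intro τ hτ _ T hT h
    rw [dif_pos (hU τ hτ)] at h
    have h2 := (g ⟨τ, Finset.mem_powerset.2 (hU τ hτ)⟩).2
    rw [Finset.mem_compl] at h2
    exact h2 (hU T hT h)
  · intro τ hτ _ τ' hτ' _ h
    simp only [dif_pos (hU τ hτ), dif_pos (hU τ' hτ')] at h
    have h2 := g.injective (Subtype.ext h)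
    exact congrArg Subtype.val h2

/-- **Flag spheres.** Let `K` be a triangulated sphere with vertices in `U₀`, and `Q` a subcomplex of `K` which
contains all the vertices and which is the clique complex of a graph. There is a flag triangulation of the sphere, the
clique complex of a graph `H`, the vertices of which contain the vertices of `K`, such that the full subcomplex
spanned by the vertices of `K` is `Q`. -/
theorem flag_sphere {V : Type} [Fintype V] [LinearOrder V] {K Q : Set (Finset V)} {U₀ : Finset V} {k : ℕ}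
    (hS : Sp k K) (hU : ∀ T ∈ K, T ⊆ U₀) (hc : 2 ^ U₀.card ≤ U₀ᶜ.card) (hQK : Q ⊆ K) (hQ : Dn Q)
    (hQv : ∀ v, ({v} : Finset V) ∈ K → ({v} : Finset V) ∈ Q)
    (hQf : ∀ σ : Finset V, (∀ v ∈ σ, ({v} : Finset V) ∈ Q) →
      (∀ v ∈ σ, ∀ w ∈ σ, v ≠ w → ({v, w} : Finset V) ∈ Q) → σ ∈ Q) :
    ∃ (N : ℕ) (H : SimpleGraph (Fin N)) (φ : Fin N ↪o V), HSph k H ∧
      (∃ f : (Fin N → ℝ) → EuclideanSpace ℝ (Fin k), ContinuousOn f (Rea H) ∧ (∀ x ∈ Rea H, ‖f x‖ = 1) ∧
        Set.InjOn f (Rea H)) ∧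
      PLS k {T | ∃ C : Finset (Fin N), H.IsClique (C : Set (Fin N)) ∧ C.map Fin.valEmbedding = T} ∧
      (∀ v, ({v} : Finset V) ∈ K → ∃ a, φ a = v) ∧
      ∀ a b, ({φ a} : Finset V) ∈ K → ({φ b} : Finset V) ∈ K → (H.Adj a b ↔ a ≠ b ∧ ({φ a, φ b} : Finset V) ∈ Q) := by
  classical
  have hQ0 : ∅ ∈ Q := hQf ∅ (by simp) (by simp)
  obtain ⟨code, hF⟩ := exists_fresh (Q := Q) hU hc
  obtain ⟨X, hX⟩ : ∃ X, X = KD K code (K \ Q) := ⟨_, rfl⟩
  have hXs : Sp k X := by rw [hX]; exact sp_KD hS hQ hQ0 hF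
  have hXf := KD_flag (code := code) hQK hQ hF hQf
  rw [← hX] at hXf
  have hKd := hS.1.2.1
  have hXd := hXs.1.2.1
  obtain ⟨W, hW⟩ : ∃ W : Finset V, W = Finset.univ.filter fun v => ({v} : Finset V) ∈ X := ⟨_, rfl⟩
  have hWm : ∀ v, v ∈ W ↔ ({v} : Finset V) ∈ X := fun v => by rw [hW]; simp
  obtain ⟨φ, hφ⟩ : ∃ φ : Fin W.card ↪o V, ∀ v, v ∈ W ↔ ∃ a, φ a = v := by
    refine ⟨W.orderEmbOfFin rfl, fun v => ?_⟩
    have := Finset.range_orderEmbOfFin W rfl
    constructor
    · intro h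
      have h1 : v ∈ Set.range (W.orderEmbOfFin rfl) := by rw [this]; exact h
      exact h1
    · rintro ⟨a, rfl⟩
      exact Finset.orderEmbOfFin_mem W rfl a
  obtain ⟨H, hH⟩ : ∃ H : SimpleGraph (Fin W.card), ∀ a b, H.Adj a b ↔ a ≠ b ∧ ({φ a, φ b} : Finset V) ∈ X := by
    refine ⟨⟨fun a b => a ≠ b ∧ ({φ a, φ b} : Finset V) ∈ X, ⟨?_⟩, ⟨?_⟩⟩, fun a b => Iff.rfl⟩
    · rintro a b ⟨h1, h2⟩
      exact ⟨h1.symm, by rwa [Finset.pair_comm]⟩
    · rintro a ⟨h1, -⟩
      exact h1 rfl
  have himg : (fun T : Finset (Fin W.card) => T.map φ.toEmbedding) '' {T | H.IsClique (T : Set (Fin W.card))} = X := by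
    ext S
    constructor
    · rintro ⟨T, hT, rfl⟩
      have hT : H.IsClique (T : Set (Fin W.card)) := hT
      apply hXf
      · intro v hv
        obtain ⟨a, -, rfl⟩ := Finset.mem_map.1 hv
        exact (hWm _).1 ((hφ _).2 ⟨a, rfl⟩)
      · intro v hv w hw hvw
        obtain ⟨a, ha, rfl⟩ := Finset.mem_map.1 hv
        obtain ⟨b, hb, rfl⟩ := Finset.mem_map.1 hw
        exact ((hH a b).1 (hT (Finset.mem_coe.2 ha) (Finset.mem_coe.2 hb) fun h => hvw (by rw [h]))).2
    · intro hSX
      have h1 : ∀ v ∈ S, ∃ a, φ a = v := fun v hv =>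
        (hφ v).1 ((hWm v).2 (hXd _ _ hSX (Finset.singleton_subset_iff.2 hv)))
      refine ⟨Finset.univ.filter fun a => φ a ∈ S, ?_, ?_⟩
      · intro a ha b hb hab
        rw [Finset.mem_coe, Finset.mem_filter] at ha hb
        rw [hH]
        refine ⟨hab, hXd _ _ hSX ?_⟩
        intro x hx
        rw [Finset.mem_insert, Finset.mem_singleton] at hx
        rcases hx with rfl | rfl
        · exact ha.2
        · exact hb.2
      · ext v
        simp only [Finset.mem_map, Finset.mem_filter, Finset.mem_univ, true_and]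
        constructor
        · rintro ⟨a, ha, rfl⟩
          exact ha
        · intro hv
          obtain ⟨a, rfl⟩ := h1 v hv
          exact ⟨a, hv, rfl⟩
  have hHs : Sp k {T : Finset (Fin W.card) | H.IsClique (T : Set (Fin W.card))} := by
    apply sp_map (φ := φ)
    rw [himg]
    exact hXs
  have hQX : Q ⊆ X := by
    intro σ hσ
    rw [hX]
    exact ⟨σ, ∅, hQK hσ, fun h => h.2 hσ, by simp, by simp, by simp⟩
  refine ⟨W.card, H, φ, hsph_of_gs hHs.1, ?_, hHs.2.2 Fin.valEmbedding, ?_, ?_⟩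
  · rw [rea_eq]
    exact hHs.2.1
  · intro v hv
    exact (hφ v).1 ((hWm v).2 (hQX (hQv v hv)))
  · intro a b ha hb
    rw [hH]
    refine and_congr_right fun hab => ⟨fun h => ?_, fun h => hQX h⟩
    rw [hX] at h
    obtain ⟨σ, c, h1, h2, h3, h4, h5⟩ := h
    have hσQ : σ ∈ Q := by
      by_contra h6
      exact h2 ⟨h1, h6⟩
    refine hQ _ _ hσQ ?_
    intro x hx
    have h6 : x ∈ σ ∪ c.image code := by rw [← h5]; exact hx
    have h7 : ({x} : Finset V) ∈ K := by
      rw [Finset.mem_insert, Finset.mem_singleton] at hx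
      rcases hx with rfl | rfl
      · exact ha
      · exact hb
    exact mem_old hF (fun _ h => h) h3 h7 (Finset.mem_singleton_self _) h6

end Pool.Agent.U729.LT
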