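import Pool.Agent.U729.LT.Chk
import Pool.Agent.U729.LT.Fl
import Pool.Agent.N496.LT.Stm2

/-!
# From data to the flag sphere with a doubled cycle
-/

set_option autoImplicit false

namespace Pool.Agent.U729.LT

open Module Pool.Agent.W907.SG Pool.Agent.N496.LT
open Pool.Agent.R782.Bal (Rea)
open Pool.Agent.TH652.Above (HSph)

/-! ### masks -/

theorem toF_lor {n t v : ℕ} (hv : v < n) : toF n (t ||| 2 ^ v) = insert (⟨v, hv⟩ : Fin n) (toF n t) := by
  ext u
  rw [Finset.mem_insert, mem_toF, mem_toF, Nat.testBit_lor, Bool.or_eq_true, Nat.testBit_two_pow]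
  simp only [decide_eq_true_eq]
  constructor
  · rintro (h | h)
    · exact Or.inr h
    · exact Or.inl (Fin.ext h.symm)
  · rintro (h | h)
    · exact Or.inr (by rw [h])
    · exact Or.inl h

theorem toF_xor {n t v : ℕ} (hv : v < n) (ht : t.testBit v = true) :
    toF n (t ^^^ 2 ^ v) = (toF n t).erase (⟨v, hv⟩ : Fin n) := by
  ext u
  rw [Finset.mem_erase, mem_toF, mem_toF, Nat.testBit_xor, Nat.testBit_two_pow]
  by_cases h : v = u.1
  · have h1 : u = ⟨v, hv⟩ := Fin.ext h.symm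
    subst h1
    simp [ht]
  · have h1 : u ≠ ⟨v, hv⟩ := fun h2 => h (by rw [h2])
    simp [h, h1]

theorem toF_inj {n a b : ℕ} (ha : a < 2 ^ n) (hb : b < 2 ^ n) (h : toF n a = toF n b) : a = b := by
  apply Nat.eq_of_testBit_eq
  intro i
  by_cases hi : i < n
  · have h1 := Finset.ext_iff.1 h ⟨i, hi⟩
    rw [mem_toF, mem_toF] at h1
    exact Bool.eq_iff_iff.2 h1
  · have h2 : 2 ^ n ≤ 2 ^ i := Nat.pow_le_pow_right (by norm_num) (not_lt.1 hi)
    rw [Nat.testBit_lt_two_pow (ha.trans_le h2), Nat.testBit_lt_two_pow (hb.trans_le h2)]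

/-! ### the graph of `L` and its flagness -/

/-- the graph of the complex with the facets `ms` -/
def LG (n : ℕ) (ms : List ℕ) : SimpleGraph (Fin n) where
  Adj v w := v ≠ w ∧ ∃ m ∈ ms, m.testBit v.1 = true ∧ m.testBit w.1 = true
  symm := ⟨fun _ _ h => ⟨h.1.symm, h.2.imp fun _ h1 => ⟨h1.1, h1.2.2, h1.2.1⟩⟩⟩
  loopless := ⟨fun _ h => h.1 rfl⟩

/-- the mask of the closed neighbourhood of `v` -/
def nbr (ms : List ℕ) (v : ℕ) : ℕ :=
  List.rec (motive := fun _ => ℕ) 0 (fun m _ ih => bif' (Nat.testBit m v) (Nat.lor m ih) ih) ms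

theorem nbr_sound {ms : List ℕ} {m v u : ℕ} (hm : m ∈ ms) (hv : m.testBit v = true) (hu : m.testBit u = true) :
    (nbr ms v).testBit u = true := by
  induction ms with
  | nil => simp at hm
  | cons a ms ih =>
    have e : nbr (a :: ms) v = bif' (Nat.testBit a v) (Nat.lor a (nbr ms v)) (nbr ms v) := rfl
    rw [e]
    rcases List.mem_cons.1 hm with rfl | h
    · rw [hv, bif'_true]
      show (m ||| nbr ms v).testBit u = true
      rw [Nat.testBit_lor, hu, Bool.true_or]
    · have := ih h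
      cases h1 : a.testBit v
      · rw [bif'_false]; exact this
      · rw [bif'_true]
        show (a ||| nbr ms v).testBit u = true
        rw [Nat.testBit_lor, this, Bool.or_true]

/-- some member of the list contains `c` -/
def anyc (c : ℕ) (l : List ℕ) : Bool :=
  List.rec (motive := fun _ => Bool) false (fun m _ ih => bif' (Nat.beq (Nat.land c m) c) true ih) l

theorem anyc_sound {c : ℕ} {l : List ℕ} (h : anyc c l = true) : ∃ m ∈ l, ∀ u, c.testBit u = true → m.testBit u = true := by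
  induction l with
  | nil => exact absurd h (by show ¬ (false = true); simp)
  | cons a l ih =>
    have e : anyc c (a :: l) = bif' (Nat.beq (Nat.land c a) c) true (anyc c l) := rfl
    rw [e] at h
    cases h1 : Nat.beq (Nat.land c a) c
    · rw [h1, bif'_false] at h
      obtain ⟨m, hm, h2⟩ := ih h
      exact ⟨m, List.mem_cons_of_mem _ hm, h2⟩
    · refine ⟨a, List.mem_cons_self, fun u hu => ?_⟩
      have h2 : c &&& a = c := Nat.eq_of_beq_eq_true h1
      rw [← h2, Nat.testBit_land, Bool.and_eq_true] at hu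
      exact hu.2

/-- every clique that extends `cur` is contained in a facet -/
def fl (ms : List ℕ) (k : ℕ) : ℕ → ℕ → Bool :=
  Nat.rec (motive := fun _ => ℕ → ℕ → Bool) (fun _ cur => anyc cur ms)
    (fun _ ih v cur => bif' (ih (Nat.succ v) cur)
      (bif' (Nat.beq (Nat.land cur (nbr ms v)) cur) (ih (Nat.succ v) (Nat.lor cur (Nat.pow 2 v))) true) false) k

theorem fl_sound {n : ℕ} {ms : List ℕ} {C : Finset (Fin n)} (hC : (LG n ms).IsClique (C : Set (Fin n))) (k : ℕ) :
    ∀ v cur : ℕ, v + k = n → (∀ u, cur.testBit u = true ↔ ∃ h : u < n, (⟨u, h⟩ : Fin n) ∈ C ∧ u < v) →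
    fl ms k v cur = true → ∃ m ∈ ms, C ⊆ toF n m := by
  induction k with
  | zero =>
    intro v cur hv hcur h
    have h : anyc cur ms = true := h
    obtain ⟨m, hm, h1⟩ := anyc_sound h
    refine ⟨m, hm, fun u hu => ?_⟩
    rw [mem_toF]
    exact h1 _ ((hcur u.1).2 ⟨u.2, hu, by have := u.2; omega⟩)
  | succ k ih =>
    intro v cur hv hcur h
    have h : bif' (fl ms k (v + 1) cur) (bif' (Nat.beq (cur &&& (nbr ms v)) cur)
      (fl ms k (v + 1) (cur ||| 2 ^ v)) true) false = true := h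
    rw [bif'_eq_true] at h
    have hvn : v < n := by omega
    by_cases hvC : (⟨v, hvn⟩ : Fin n) ∈ C
    · have h1 : cur &&& (nbr ms v) = cur := by
        apply Nat.eq_of_testBit_eq
        intro u
        rw [Nat.testBit_land]
        cases hu : cur.testBit u
        · rfl
        · obtain ⟨h2, h3, h4⟩ := (hcur u).1 hu
          have h5 : (⟨v, hvn⟩ : Fin n) ≠ ⟨u, h2⟩ := fun h => by
            have := congrArg Fin.val h
            simp only at this
            omega
          obtain ⟨-, m, hm, h6, h7⟩ := hC (Finset.mem_coe.2 hvC) (Finset.mem_coe.2 h3) h5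
          rw [nbr_sound hm h6 h7]
          rfl
      rw [h1, Nat.beq_refl, bif'_true] at h
      refine ih (v + 1) (cur ||| 2 ^ v) (by omega) (fun u => ?_) h.2
      rw [Nat.testBit_lor, Bool.or_eq_true, hcur u, Nat.testBit_two_pow]
      simp only [decide_eq_true_eq]
      constructor
      · rintro (⟨h2, h3, h4⟩ | rfl)
        · exact ⟨h2, h3, by omega⟩
        · exact ⟨hvn, hvC, by omega⟩
      · rintro ⟨h2, h3, h4⟩
        by_cases h5 : v = u
        · exact Or.inr h5
        · exact Or.inl ⟨h2, h3, by omega⟩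
    · refine ih (v + 1) cur (by omega) (fun u => ?_) h.1
      rw [hcur u]
      constructor
      · rintro ⟨h2, h3, h4⟩
        exact ⟨h2, h3, by omega⟩
      · rintro ⟨h2, h3, h4⟩
        refine ⟨h2, h3, ?_⟩
        by_contra h5
        have h6 : u = v := by omega
        subst h6
        exact hvC h3

/-! ### the lifts -/

/-- all the lifts of `σ` (joined with `cur`) are contained in members of `fs`; `js` is the list of the pairs of lifts
of the vertices -/
def lft (fs : List ℕ) (js : List (ℕ × ℕ)) : ℕ → ℕ → Bool :=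
  List.rec (motive := fun _ => ℕ → ℕ → Bool) (fun _ cur => anyc cur fs)
    (fun x _ ih σ cur => bif' (Nat.beq (Nat.mod σ 2) 1)
      (bif' (ih (Nat.div σ 2) (Nat.lor cur (Nat.pow 2 x.1))) (bif' (Nat.beq x.1 x.2) true
        (ih (Nat.div σ 2) (Nat.lor cur (Nat.pow 2 x.2)))) false)
      (ih (Nat.div σ 2) cur)) js

/-- the position of a lift -/
def jp (js : List (ℕ × ℕ)) (i : ℕ) (a : Bool) : ℕ := if a then (js.getD i (0, 0)).2 else (js.getD i (0, 0)).1

theorem lft_sound {fs : List ℕ} (js : List (ℕ × ℕ)) : ∀ σ cur : ℕ, lft fs js σ cur = true → ∀ a : ℕ → Bool,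
    ∃ f ∈ fs, (∀ u, cur.testBit u = true → f.testBit u = true) ∧
      ∀ i < js.length, σ.testBit i = true → f.testBit (jp js i (a i)) = true := by
  induction js with
  | nil =>
    intro σ cur h a
    have h : anyc cur fs = true := h
    obtain ⟨f, hf, h1⟩ := anyc_sound h
    exact ⟨f, hf, h1, fun i hi => absurd hi (Nat.not_lt_zero _)⟩
  | cons x js ih =>
    intro σ cur h a
    have h : bif' (Nat.beq (σ % 2) 1) (bif' (lft fs js (σ / 2) (cur ||| 2 ^ x.1)) (bif' (Nat.beq x.1 x.2) true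
        (lft fs js (σ / 2) (cur ||| 2 ^ x.2))) false) (lft fs js (σ / 2) cur) = true := h
    have hstep : ∀ cur' : ℕ, lft fs js (σ / 2) cur' = true → (∀ u, cur.testBit u = true → cur'.testBit u = true) →
        (σ.testBit 0 = true → cur'.testBit (jp (x :: js) 0 (a 0)) = true) →
        ∃ f ∈ fs, (∀ u, cur.testBit u = true → f.testBit u = true) ∧
          ∀ i < (x :: js).length, σ.testBit i = true → f.testBit (jp (x :: js) i (a i)) = true := by
      intro cur' h1 h2 h3
      obtain ⟨f, hf, h4, h5⟩ := ih _ _ h1 fun i => a (i + 1)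
      refine ⟨f, hf, fun u hu => h4 u (h2 u hu), fun i hi hσ => ?_⟩
      cases i with
      | zero => exact h4 _ (h3 hσ)
      | succ i =>
        rw [Nat.testBit_succ] at hσ
        have h6 := h5 i (by simpa using hi) hσ
        unfold jp at h6 ⊢
        simpa using h6
    cases h1 : Nat.beq (σ % 2) 1
    · rw [h1, bif'_false] at h
      refine hstep cur h (fun u hu => hu) fun h2 => ?_
      rw [Nat.testBit_zero, decide_eq_true_eq] at h2
      rw [h2] at h1
      exact absurd h1 (by simp)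
    · rw [h1, bif'_true, bif'_eq_true] at h
      have hlor : ∀ y : ℕ, (∀ u, cur.testBit u = true → (cur ||| 2 ^ y).testBit u = true) ∧
          (cur ||| 2 ^ y).testBit y = true := by
        intro y
        refine ⟨fun u hu => by rw [Nat.testBit_lor, hu, Bool.true_or], ?_⟩
        rw [Nat.testBit_lor, Nat.testBit_two_pow_self, Bool.or_true]
      cases ha : a 0
      · refine hstep _ h.1 (hlor _).1 fun _ => ?_
        unfold jp
        simpa [ha] using (hlor x.1).2
      · cases h2 : Nat.beq x.1 x.2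
        · rw [h2, bif'_false] at h
          refine hstep _ h.2 (hlor _).1 fun _ => ?_
          unfold jp
          simpa [ha] using (hlor x.2).2
        · have h3 : x.1 = x.2 := Nat.eq_of_beq_eq_true h2
          refine hstep _ h.1 (hlor _).1 fun _ => ?_
          unfold jp
          have := (hlor x.1).2
          rw [h3] at this
          simpa [ha, h3] using this

/-- the check for all the facets of `L` -/
def lfts (fs : List ℕ) (js : List (ℕ × ℕ)) (ms : List ℕ) : Bool :=
  List.rec (motive := fun _ => Bool) true (fun m _ ih => bif' (lft fs js m 0) ih false) ms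

theorem lfts_sound {fs : List ℕ} {js : List (ℕ × ℕ)} {ms : List ℕ} (h : lfts fs js ms = true) :
    ∀ m ∈ ms, lft fs js m 0 = true := by
  induction ms with
  | nil => simp
  | cons a ms ih =>
    have h : bif' (lft fs js a 0) (lfts fs js ms) false = true := h
    rw [bif'_eq_true] at h
    intro m hm
    rcases List.mem_cons.1 hm with rfl | hm
    · exact h.1
    · exact ih h.2 m hm

/-! ### the cycle -/

/-- the coefficient of the simplex with the mask `t` -/
def zc (zs : List (ℕ × ℕ)) (t : ℕ) : ℕ :=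
  List.rec (motive := fun _ => ℕ) 0 (fun x _ ih => bif' (Nat.beq x.1 t) x.2 ih) zs

open Classical in
/-- the chain -/
noncomputable def zF (n : ℕ) (zs : List (ℕ × ℕ)) (T : Finset (Fin n)) : ℕ :=
  List.rec (motive := fun _ => ℕ) 0 (fun x _ ih => if toF n x.1 = T then x.2 else ih) zs

theorem zF_toF {n : ℕ} {zs : List (ℕ × ℕ)} (h : ∀ x ∈ zs, x.1 < 2 ^ n) {t : ℕ} (ht : t < 2 ^ n) :
    zF n zs (toF n t) = zc zs t := by
  induction zs with
  | nil => rfl
  | cons x zs ih =>
    classical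
    have e1 : zF n (x :: zs) (toF n t) = if toF n x.1 = toF n t then x.2 else zF n zs (toF n t) := by
      unfold zF
      exact if_congr Iff.rfl rfl rfl
    have e2 : zc (x :: zs) t = bif' (Nat.beq x.1 t) x.2 (zc zs t) := rfl
    rw [e1, e2, ih fun y hy => h y (List.mem_cons_of_mem _ hy)]
    by_cases h1 : x.1 = t
    · rw [h1, if_pos rfl, Nat.beq_refl, bif'_true]
    · rw [if_neg fun h2 => h1 (toF_inj (h x List.mem_cons_self) ht h2)]
      have h2 : Nat.beq x.1 t = false := by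
        rw [Bool.eq_false_iff]
        intro h3
        exact h1 (Nat.eq_of_beq_eq_true h3)
      rw [h2, bif'_false]

theorem zF_ne {n : ℕ} {zs : List (ℕ × ℕ)} {T : Finset (Fin n)} (h : zF n zs T ≠ 0) :
    ∃ x ∈ zs, toF n x.1 = T := by
  induction zs with
  | nil => exact absurd rfl h
  | cons x zs ih =>
    classical
    have e1 : zF n (x :: zs) T = if toF n x.1 = T then x.2 else zF n zs T := by
      unfold zF
      exact if_congr Iff.rfl rfl rfl
    rw [e1] at h
    by_cases h1 : toF n x.1 = T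
    · exact ⟨x, List.mem_cons_self, h1⟩
    · rw [if_neg h1] at h
      obtain ⟨y, hy, h2⟩ := ih h
      exact ⟨y, List.mem_cons_of_mem _ hy, h2⟩

/-- the coefficient of `t` in the boundary, modulo `p` -/
def rsum (p : ℕ) (zs : List (ℕ × ℕ)) (t n : ℕ) : ℕ :=
  Nat.rec (motive := fun _ => ℕ) 0 (fun v ih => bif' (Nat.testBit t v) ih
    (Nat.add ih (Nat.mul (zc zs (Nat.lor t (Nat.pow 2 v))) (bif' (Nat.beq (Nat.mod (pc v t) 2) 0) 1 (Nat.sub p 1))))) n

theorem rsum_sound {p : ℕ} (hp : 1 ≤ p) {n : ℕ} {zs : List (ℕ × ℕ)} (h : ∀ x ∈ zs, x.1 < 2 ^ n) {t : ℕ}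
    (ht : t < 2 ^ n) :
    ((rsum p zs t n : ℕ) : ZMod p) = ∑ v ∈ (toF n t)ᶜ, (sg v (toF n t)) • ((zF n zs (insert v (toF n t)) : ℕ) : ZMod p) := by
  have key : ∀ m, m ≤ n → ((rsum p zs t m : ℕ) : ZMod p) =
      ∑ v ∈ (toF n t)ᶜ.filter (fun v => v.1 < m), (sg v (toF n t)) •
        ((zF n zs (insert v (toF n t)) : ℕ) : ZMod p) := by
    intro m
    induction m with
    | zero => intro _; simp [rsum]
    | succ m ih =>
      intro hm
      have hmn : m < n := by omega
      have e1 : rsum p zs t (m + 1) = bif' (Nat.testBit t m) (rsum p zs t m)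
        (rsum p zs t m + zc zs (t ||| 2 ^ m) * bif' (Nat.beq (pc m t % 2) 0) 1 (p - 1)) := rfl
      cases h1 : t.testBit m
      · have e2 : (toF n t)ᶜ.filter (fun v => v.1 < m + 1) =
            insert (⟨m, hmn⟩ : Fin n) ((toF n t)ᶜ.filter (fun v => v.1 < m)) := by
          ext v
          rw [Finset.mem_insert, Finset.mem_filter, Finset.mem_filter, Finset.mem_compl, mem_toF]
          constructor
          · rintro ⟨h2, h3⟩
            by_cases h4 : v.1 = m
            · exact Or.inl (Fin.ext h4)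
            · exact Or.inr ⟨h2, by omega⟩
          · rintro (rfl | ⟨h2, h3⟩)
            · exact ⟨by simp [h1], by simp⟩
            · exact ⟨h2, by omega⟩
        rw [e1, h1, bif'_false, e2, Finset.sum_insert (by simp), ← ih (by omega), ← toF_lor hmn]
        have h2 : t ||| 2 ^ m < 2 ^ n := Nat.or_lt_two_pow ht (Nat.pow_lt_pow_right (by norm_num) hmn)
        rw [zF_toF h h2]
        have e3 : sg (⟨m, hmn⟩ : Fin n) (toF n t) = (-1) ^ pc m t := by
          unfold sg
          congr 1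
          rw [pc_eq]
          refine Finset.card_bij (fun v _ => v.1) ?_ ?_ ?_
          · intro v hv
            rw [Finset.mem_filter, mem_toF] at hv
            rw [Finset.mem_filter, Finset.mem_range]
            exact ⟨hv.2, hv.1⟩
          · intro v _ u _ huv
            exact Fin.ext huv
          · intro v hv
            rw [Finset.mem_filter, Finset.mem_range] at hv
            exact ⟨⟨v, by omega⟩, by rw [Finset.mem_filter, mem_toF]; exact ⟨hv.2, hv.1⟩, rfl⟩
        rw [e3]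
        have e4 : ((bif' (Nat.beq (pc m t % 2) 0) 1 (p - 1) : ℕ) : ZMod p) = ((-1 : ℤ) ^ pc m t : ℤ) := by
          cases h3 : Nat.beq (pc m t % 2) 0
          · rw [bif'_false]
            have h4 : pc m t % 2 = 1 := by
              have h5 : pc m t % 2 ≠ 0 := by
                intro h6
                rw [h6] at h3
                exact absurd h3 (by simp)
              omega
            rw [Odd.neg_one_pow (Nat.odd_iff.2 h4), Nat.cast_sub hp]
            simp
          · rw [bif'_true]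
            have h4 : pc m t % 2 = 0 := Nat.eq_of_beq_eq_true h3
            rw [Even.neg_one_pow (Nat.even_iff.2 h4)]
            simp
        push_cast at e4 ⊢
        rw [e4, zsmul_eq_mul]
        push_cast
        ring
      · have e2 : (toF n t)ᶜ.filter (fun v => v.1 < m + 1) = (toF n t)ᶜ.filter (fun v => v.1 < m) := by
          ext v
          rw [Finset.mem_filter, Finset.mem_filter, Finset.mem_compl, mem_toF]
          constructor
          · rintro ⟨h2, h3⟩
            refine ⟨h2, ?_⟩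
            by_contra h4
            have h5 : v.1 = m := by omega
            rw [h5] at h2
            exact h2 h1
          · rintro ⟨h2, h3⟩
            exact ⟨h2, by omega⟩
        rw [e1, h1, bif'_true, e2]
        exact ih (by omega)
  rw [key n le_rfl]
  refine Finset.sum_congr ?_ fun _ _ => rfl
  ext v
  simp

/-- the check of the cycle condition -/
def zchk (p : ℕ) (zs : List (ℕ × ℕ)) (n : ℕ) : Prop :=
  ∀ x ∈ zs, ∀ v < n, x.1.testBit v = true → rsum p zs (x.1 ^^^ 2 ^ v) n % p = 0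

/-- The data. -/
structure Data (d w n p : ℕ) (fs : List ℕ) (zs js : List (ℕ × ℕ)) (U : ℕ) (c : Fin n → Fin (d + 1)) : Prop where
  js_len : js.length = n
  z_lt : ∀ x ∈ zs, x.1 < 2 ^ n
  z_card : ∀ x ∈ zs, pc n x.1 = d + 1
  z_head : ∃ x ∈ zs, zc zs x.1 % p ≠ 0
  z_cyc : ∀ x ∈ zs, ∀ v < n, x.1.testBit v = true → rsum p zs (x.1 ^^^ 2 ^ v) n % p = 0
  cov : ∀ v : Fin n, ∃ x ∈ zs, x.1.testBit v.1 = true
  j_lt : ∀ v : Fin n, ∀ a, jp js v.1 a < w
  j_inj : ∀ v w : Fin n, ∀ a b, jp js v.1 a = jp js w.1 b → v = w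
  j_U : ∀ v : Fin n, (U.testBit v.1 = true ↔ jp js v.1 true = jp js v.1 false)
  cliqueU : ∀ v w : Fin n, U.testBit v.1 = true → U.testBit w.1 = true →
    ∃ x ∈ zs, x.1.testBit v.1 = true ∧ x.1.testBit w.1 = true
  col : ∀ x ∈ zs, ∀ v w : Fin n, x.1.testBit v.1 = true → x.1.testBit w.1 = true → v ≠ w → c v ≠ c w
  flag : fl (zs.map Prod.fst) n 0 0 = true
  lifts : lfts fs js (zs.map Prod.fst) = true

section main

variable {d w n p : ℕ} {fs rs : List ℕ} {zs js : List (ℕ × ℕ)} {U : ℕ} {c : Fin n → Fin (d + 1)}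

theorem main_data [hp : Fact p.Prime] (hD : Data d w n p fs zs js U c) (hl : 2 ≤ fs.length)
    (h : chk (2 * d + 1) w fs.length fs rs [] = true) :
    ∃ (N : ℕ) (H : SimpleGraph (Fin N)) (f : (Fin N → ℝ) → EuclideanSpace ℝ (Fin (2 * d + 1)))
      (Z : Dbl (ZMod p) H d) (c : Fin Z.n → Fin (d + 1)), HSph (2 * d + 1) H ∧ ContinuousOn f (Rea H) ∧
      (∀ x ∈ Rea H, ‖f x‖ = 1) ∧ Set.InjOn f (Rea H) ∧
      PLS (2 * d + 1) {T | ∃ C : Finset (Fin N), H.IsClique (C : Set (Fin N)) ∧ C.map Fin.valEmbedding = T} ∧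
      Z.U.card = pc n U ∧ ∀ v w a b, H.Adj (Z.j v a) (Z.j w b) → c v ≠ c w := by
  classical
  obtain ⟨M, hM⟩ : ∃ M, M = w + 2 + 2 ^ w := ⟨_, rfl⟩
  have hwM : w + 2 ≤ M := by rw [hM]; exact Nat.le_add_right _ _
  obtain ⟨K, hK⟩ : ∃ K, K = cx M fs := ⟨_, rfl⟩
  have hS : Sp (2 * d + 1) K := by rw [hK]; exact sp_of_chk hwM hl h
  have hKd := hS.1.2.1
  obtain ⟨-, -, hchk⟩ := chk_sound _ _ _ _ _ _ h
  have hfs : ∀ f ∈ fs, f < 2 ^ w := by
    intro f hf
    obtain ⟨i, hi, rfl⟩ := List.mem_iff_getElem.1 hf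
    have := (chk1_sound (hchk i hi)).1
    rwa [List.getD_eq_getElem _ _ hi] at this
  -- the old vertices
  obtain ⟨U₀, hU₀⟩ : ∃ U₀ : Finset (Fin M), U₀ = Finset.univ.filter fun v => v.1 < w := ⟨_, rfl⟩
  have hKU : ∀ T ∈ K, T ⊆ U₀ := by
    intro T hT v hv
    rw [hK] at hT
    obtain ⟨f, hf, h1⟩ := hT
    rw [hU₀, Finset.mem_filter]
    refine ⟨Finset.mem_univ _, ?_⟩
    by_contra h2
    have h3 := mem_toF.1 (h1 hv)
    rw [Nat.testBit_lt_two_pow ((hfs f hf).trans_le (Nat.pow_le_pow_right (by norm_num) (not_lt.1 h2)))] at h3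
    exact absurd h3 (by simp)
  have hcU : U₀.card = w := by
    have h1 : U₀ = Finset.univ.map ⟨fun i : Fin w => (⟨i.1, by omega⟩ : Fin M), fun i j hij => Fin.ext (by
        have := congrArg Fin.val hij
        exact this)⟩ := by
      ext v
      rw [hU₀, Finset.mem_filter, Finset.mem_map]
      constructor
      · rintro ⟨-, h1⟩
        exact ⟨⟨v.1, h1⟩, Finset.mem_univ _, rfl⟩
      · rintro ⟨i, -, rfl⟩
        exact ⟨Finset.mem_univ _, i.2⟩
    rw [h1, Finset.card_map, Finset.card_univ, Fintype.card_fin]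
  have hc1 : 2 ^ U₀.card ≤ U₀ᶜ.card := by
    rw [Finset.card_compl, hcU, Fintype.card_fin, hM]
    omega
  -- the lifts
  obtain ⟨ms, hms⟩ : ∃ ms : List ℕ, ms = zs.map Prod.fst := ⟨_, rfl⟩
  have hmem : ∀ m, m ∈ ms ↔ ∃ x ∈ zs, x.1 = m := by
    intro m
    rw [hms, List.mem_map]
  obtain ⟨J, hJ⟩ : ∃ J : Fin n → Bool → Fin M, ∀ v a, (J v a).1 = jp js v.1 a :=
    ⟨fun v a => ⟨jp js v.1 a, by have := hD.j_lt v a; omega⟩, fun _ _ => rfl⟩
  have hJinj : ∀ v w a b, J v a = J w b → v = w := by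
    intro v w a b h1
    apply hD.j_inj v w a b
    rw [← hJ, ← hJ, h1]
  have hlift : ∀ m ∈ ms, ∀ a : Fin n → Bool, (toF n m).image (fun v => J v (a v)) ∈ K := by
    intro m hm a
    have h1 := lfts_sound (by have := hD.lifts; rw [← hms] at this; exact this) m hm
    obtain ⟨f, hf, -, h2⟩ := lft_sound js m 0 h1 fun i => if hi : i < n then a ⟨i, hi⟩ else false
    rw [hK]
    refine ⟨f, hf, fun x hx => ?_⟩
    obtain ⟨v, hv, rfl⟩ := Finset.mem_image.1 hx
    rw [mem_toF] at hv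
    rw [mem_toF, hJ]
    have h3 := h2 v.1 (by rw [hD.js_len]; exact v.2) hv
    rw [dif_pos v.2] at h3
    exact h3
  have hKJ : ∀ v a, ({J v a} : Finset (Fin M)) ∈ K := by
    intro v a
    obtain ⟨x, hx, h1⟩ := hD.cov v
    refine hKd _ _ (hlift x.1 ((hmem _).2 ⟨x, hx, rfl⟩) fun _ => a) ?_
    rw [Finset.singleton_subset_iff, Finset.mem_image]
    exact ⟨v, mem_toF.2 h1, rfl⟩
  -- the graph of the lifts
  obtain ⟨GQ, hGQ⟩ : ∃ GQ : SimpleGraph (Fin M), ∀ x y, GQ.Adj x y ↔
      ∃ v w a b, (LG n ms).Adj v w ∧ x = J v a ∧ y = J w b := by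
    refine ⟨⟨fun x y => ∃ v w a b, (LG n ms).Adj v w ∧ x = J v a ∧ y = J w b, ⟨?_⟩, ⟨?_⟩⟩, fun _ _ => Iff.rfl⟩
    · rintro x y ⟨v, w, a, b, h1, h2, h3⟩
      exact ⟨w, v, b, a, h1.symm, h3, h2⟩
    · rintro x ⟨v, w, a, b, h1, h2, h3⟩
      exact h1.1 (hJinj v w a b (h2.symm.trans h3))
  obtain ⟨Q, hQ⟩ : ∃ Q : Set (Finset (Fin M)), Q = {T : Finset (Fin M) | (∀ x ∈ T, ({x} : Finset (Fin M)) ∈ K) ∧
      GQ.IsClique (T : Set (Fin M))} := ⟨_, rfl⟩
  have hQd : Dn Q := by
    intro S T hS h1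
    rw [hQ] at hS ⊢
    exact ⟨fun x hx => hS.1 x (h1 hx), hS.2.subset (Finset.coe_subset.2 h1)⟩
  have hQv : ∀ v, ({v} : Finset (Fin M)) ∈ K → ({v} : Finset (Fin M)) ∈ Q := by
    intro v hv
    rw [hQ]
    refine ⟨fun x hx => ?_, by simp⟩
    rw [Finset.mem_singleton] at hx
    rw [hx]; exact hv
  have hpair : ∀ x y, x ≠ y → (({x, y} : Finset (Fin M)) ∈ Q ↔ ({x} : Finset (Fin M)) ∈ K ∧
      ({y} : Finset (Fin M)) ∈ K ∧ GQ.Adj x y) := by
    intro x y hxy
    rw [hQ]
    constructor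
    · rintro ⟨h1, h2⟩
      exact ⟨h1 x (by simp), h1 y (by simp), h2 (by simp) (by simp) hxy⟩
    · rintro ⟨h1, h2, h3⟩
      refine ⟨fun z hz => ?_, ?_⟩
      · rw [Finset.mem_insert, Finset.mem_singleton] at hz
        rcases hz with rfl | rfl
        · exact h1
        · exact h2
      · rw [Finset.coe_insert, Finset.coe_singleton, SimpleGraph.isClique_pair]
        exact fun _ => h3
  have hQf : ∀ σ : Finset (Fin M), (∀ v ∈ σ, ({v} : Finset (Fin M)) ∈ Q) →
      (∀ v ∈ σ, ∀ w ∈ σ, v ≠ w → ({v, w} : Finset (Fin M)) ∈ Q) → σ ∈ Q := by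
    intro σ h1 h2
    have h3 : ∀ v ∈ σ, ({v} : Finset (Fin M)) ∈ K := by
      intro v hv
      have := h1 v hv
      rw [hQ] at this
      exact this.1 v (by simp)
    rw [hQ]
    refine ⟨h3, fun v hv w hw hvw => ?_⟩
    exact ((hpair v w hvw).1 (h2 v (Finset.mem_coe.1 hv) w (Finset.mem_coe.1 hw) hvw)).2.2
  have hQK : Q ⊆ K := by
    intro T hT
    rw [hQ] at hT
    obtain ⟨h1, h2⟩ := hT
    by_cases hT1 : T.card ≤ 1
    · rcases Nat.le_one_iff_eq_zero_or_eq_one.1 hT1 with h3 | h3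
      · rw [Finset.card_eq_zero] at h3
        rw [h3]; exact hS.1.1
      · obtain ⟨x, rfl⟩ := Finset.card_eq_one.1 h3
        exact h1 x (by simp)
    · -- every element is a lift
      have h3 : ∀ x ∈ T, ∃ v a, x = J v a := by
        intro x hx
        obtain ⟨y, hy, hxy⟩ : ∃ y ∈ T, y ≠ x := by
          by_contra h4
          push Not at h4
          apply hT1
          rw [Finset.card_le_one]
          intro a ha b hb
          rw [h4 a ha, h4 b hb]
        obtain ⟨v, w, a, b, -, h5, -⟩ := (hGQ _ _).1 (h2 (Finset.mem_coe.2 hx) (Finset.mem_coe.2 hy) hxy.symm)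
        exact ⟨v, a, h5⟩
      obtain ⟨C, hC⟩ : ∃ C : Finset (Fin n), C = Finset.univ.filter fun v => ∃ a, J v a ∈ T := ⟨_, rfl⟩
      have hCm : ∀ v, v ∈ C ↔ ∃ a, J v a ∈ T := fun v => by rw [hC]; simp
      have hCc : (LG n ms).IsClique (C : Set (Fin n)) := by
        intro v hv u hu hvu
        obtain ⟨a, ha⟩ := (hCm v).1 (Finset.mem_coe.1 hv)
        obtain ⟨b, hb⟩ := (hCm u).1 (Finset.mem_coe.1 hu)
        have h4 : J v a ≠ J u b := fun h5 => hvu (hJinj _ _ _ _ h5)
        obtain ⟨v', u', a', b', h5, h6, h7⟩ := (hGQ _ _).1 (h2 (Finset.mem_coe.2 ha) (Finset.mem_coe.2 hb) h4)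
        rw [hJinj _ _ _ _ h6, hJinj _ _ _ _ h7]
        exact h5
      obtain ⟨m, hm, h4⟩ := fl_sound hCc n 0 0 (by omega) (by simp) (by have := hD.flag; rw [← hms] at this; exact this)
      obtain ⟨sgn, hsgn⟩ : ∃ sgn : Fin n → Bool, ∀ v ∈ C, J v (sgn v) ∈ T := by
        refine ⟨fun v => if h : ∃ a, J v a ∈ T then h.choose else false, fun v hv => ?_⟩
        have h5 := (hCm v).1 hv
        simp only [dif_pos h5]
        exact h5.choose_spec
      refine hKd _ _ (hlift m hm sgn) fun x hx => ?_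
      obtain ⟨v, a, rfl⟩ := h3 x hx
      have hvC : v ∈ C := (hCm v).2 ⟨a, hx⟩
      rw [Finset.mem_image]
      refine ⟨v, h4 hvC, ?_⟩
      by_contra h5
      obtain ⟨v', u', a', b', h6, h7, h8⟩ := (hGQ _ _).1 (h2 (Finset.mem_coe.2 (hsgn v hvC)) (Finset.mem_coe.2 hx) h5)
      exact h6.1 ((hJinj _ _ _ _ h7).symm.trans (hJinj _ _ _ _ h8))
  obtain ⟨N, H, φ, hH1, ⟨f, hf1, hf2, hf3⟩, hH3, hφ, hH2⟩ := flag_sphere hS hKU hc1 hQK hQd hQv hQf
  choose pr hpr using hφ
  obtain ⟨j, hj⟩ : ∃ j : Fin n → Bool → Fin N, ∀ v a, φ (j v a) = J v a :=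
    ⟨fun v a => pr _ (hKJ v a), fun v a => hpr _ _⟩
  have hjK : ∀ v a, ({φ (j v a)} : Finset (Fin M)) ∈ K := fun v a => by rw [hj]; exact hKJ v a
  have hjinj : ∀ v w a b, j v a = j w b → v = w := fun v w a b h1 => hJinj v w a b (by rw [← hj, ← hj, h1])
  have hadj : ∀ v w a b, v ≠ w → (LG n ms).Adj v w → H.Adj (j v a) (j w b) := by
    intro v w a b hvw h1
    have h2 : J v a ≠ J w b := fun h3 => hvw (hJinj _ _ _ _ h3)
    rw [hH2 _ _ (hjK v a) (hjK w b), hj, hj, hpair _ _ h2]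
    refine ⟨fun h3 => hvw (hjinj _ _ _ _ h3), hKJ v a, hKJ w b, ?_⟩
    rw [hGQ]
    exact ⟨v, w, a, b, h1, rfl, rfl⟩
  have hadj2 : ∀ v w a b, H.Adj (j v a) (j w b) → (LG n ms).Adj v w := by
    intro v w a b h1
    have hne : J v a ≠ J w b := by
      intro h2
      apply h1.ne
      apply φ.injective
      rw [hj, hj, h2]
    rw [hH2 _ _ (hjK v a) (hjK w b), hj, hj, hpair _ _ hne] at h1
    obtain ⟨v', w', a', b', h5, h6, h7⟩ := (hGQ _ _).1 h1.2.2.2
    rw [hJinj _ _ _ _ h6, hJinj _ _ _ _ h7]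
    exact h5
  -- the cycle
  obtain ⟨z, hz⟩ : ∃ z : Finset (Fin n) → ZMod p, ∀ T, z T = ((zF n zs T : ℕ) : ZMod p) := ⟨_, fun _ => rfl⟩
  have hzne : ∀ T, z T ≠ 0 → ∃ x ∈ zs, toF n x.1 = T := by
    intro T hT
    apply zF_ne
    intro h1
    apply hT
    rw [hz, h1, Nat.cast_zero]
  have hclq : ∀ σ, z σ ≠ 0 → ∀ v ∈ σ, ∀ w ∈ σ, v ≠ w → (LG n ms).Adj v w := by
    intro σ hσ v hv w hw hvw
    obtain ⟨x, hx, rfl⟩ := hzne σ hσ
    exact ⟨hvw, x.1, (hmem _).2 ⟨x, hx, rfl⟩, mem_toF.1 hv, mem_toF.1 hw⟩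
  refine ⟨N, H, f, ⟨n, z, j, toF n U, ?_, ?_, ?_, ?_, ?_, ?_, ?_, ?_⟩, c, hH1, hf1, hf2, hf3, hH3, ?_, ?_⟩
  · obtain ⟨x, hx, h1⟩ := hD.z_head
    intro h2
    have h3 := congrFun h2 (toF n x.1)
    rw [hz, zF_toF hD.z_lt (hD.z_lt x hx), Pi.zero_apply, ZMod.natCast_eq_zero_iff] at h3
    exact h1 (Nat.mod_eq_zero_of_dvd h3)
  · intro σ hσ
    obtain ⟨x, hx, rfl⟩ := hzne σ hσ
    rw [card_toF le_rfl (hD.z_lt x hx), hD.z_card x hx]
  · intro τ
    by_cases h1 : ∀ v ∈ τᶜ, z (insert v τ) = 0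
    · refine Finset.sum_eq_zero fun v hv => ?_
      rw [h1 v hv, smul_zero]
    · push Not at h1
      obtain ⟨v, hv, h2⟩ := h1
      obtain ⟨x, hx, h3⟩ := hzne _ h2
      rw [Finset.mem_compl] at hv
      have h4 : x.1.testBit v.1 = true := by
        rw [← mem_toF, h3]
        exact Finset.mem_insert_self _ _
      have h5 : τ = toF n (x.1 ^^^ 2 ^ v.1) := by
        rw [toF_xor v.2 h4, h3]
        exact (Finset.erase_insert hv).symm
      have h6 : x.1 ^^^ 2 ^ v.1 < 2 ^ n :=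
        Nat.xor_lt_two_pow (hD.z_lt x hx) (Nat.pow_lt_pow_right (by norm_num) v.2)
      have h7 := rsum_sound hp.out.one_lt.le hD.z_lt h6
      rw [h5]
      have h8 := hD.z_cyc x hx v.1 v.2 h4
      rw [← Nat.dvd_iff_mod_eq_zero, ← ZMod.natCast_eq_zero_iff] at h8
      rw [h8] at h7
      rw [h7]
      exact Finset.sum_congr rfl fun u _ => by rw [hz]
  · intro v w hvw a b h1
    exact hvw (hjinj _ _ _ _ h1)
  · intro v hv
    rw [mem_toF] at hv
    apply φ.injective
    rw [hj, hj]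
    apply Fin.ext
    rw [hJ, hJ]
    exact (hD.j_U v).1 hv
  · intro v hv
    rw [mem_toF] at hv
    refine ⟨fun h1 => hv ((hD.j_U v).2 ?_), fun h1 => (hadj2 _ _ _ _ h1).1 rfl⟩
    rw [← hJ, ← hJ, ← hj, ← hj, h1]
  · intro σ hσ v hv w hw hvw a b
    exact hadj v w a b hvw (hclq σ hσ v hv w hw hvw)
  · intro v hv w hw hvw
    rw [mem_toF] at hv hw
    obtain ⟨x, hx, h1, h2⟩ := hD.cliqueU v w hv hw
    exact hadj v w true true hvw ⟨hvw, x.1, (hmem _).2 ⟨x, hx, rfl⟩, h1, h2⟩
  · show (toF n U).card = pc n U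
    by_cases hU : U < 2 ^ n
    · exact card_toF le_rfl hU
    · rw [pc_eq]
      refine Finset.card_bij (fun v _ => v.1) ?_ ?_ ?_
      · intro v hv
        rw [mem_toF] at hv
        rw [Finset.mem_filter, Finset.mem_range]
        exact ⟨v.2, hv⟩
      · intro v _ u _ huv
        exact Fin.ext huv
      · intro v hv
        rw [Finset.mem_filter, Finset.mem_range] at hv
        exact ⟨⟨v, hv.1⟩, mem_toF.2 hv.2, rfl⟩
  · intro v w a b h1
    obtain ⟨h2, m, hm, h3, h4⟩ := hadj2 v w a b h1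
    obtain ⟨x, hx, rfl⟩ := (hmem m).1 hm
    exact hD.col x hx v w h3 h4 h2

end main

end Pool.Agent.U729.LT
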