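import Pool.Agent.W907.SG.Defs
import Pool.Agent.W721.SG.MID

/-!
# Real homology of locally closed families of finite sets

`bX X i` is the `i`-th Betti number of the chain complex of a family `X` of finite subsets of `V` which is convex for
the inclusion (for example a simplicial complex, or the difference of two simplicial complexes); sets with `i`
elements are in degree `i`.
-/

set_option autoImplicit false

noncomputable section

namespace Pool.Agent.U729.LT

open Module Pool.Agent.W907.SG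

variable {V : Type} [Fintype V] [LinearOrder V]

/-- the `i`-chains -/
def CX (X : Set (Finset V)) (i : ℕ) : Submodule ℝ (Finset V → ℝ) where
  carrier := {c | ∀ T, ¬ (T ∈ X ∧ T.card = i) → c T = 0}
  add_mem' := by
    intro c d h1 h2 T hT
    rw [Pi.add_apply, h1 T hT, h2 T hT, add_zero]
  zero_mem' := fun T _ => rfl
  smul_mem' := by
    intro a c h T hT
    rw [Pi.smul_apply, h T hT, smul_zero]

open Classical in
/-- restriction to `X` -/
def rs (X : Set (Finset V)) : (Finset V → ℝ) →ₗ[ℝ] (Finset V → ℝ) where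
  toFun c T := if T ∈ X then c T else 0
  map_add' c d := by
    funext T
    by_cases h : T ∈ X <;> simp [h]
  map_smul' a c := by
    funext T
    by_cases h : T ∈ X <;> simp [h]

omit [Fintype V] [LinearOrder V] in
theorem rs_pos {X : Set (Finset V)} {T : Finset V} (c : Finset V → ℝ) (h : T ∈ X) : rs X c T = c T := if_pos h

omit [Fintype V] [LinearOrder V] in
theorem rs_neg {X : Set (Finset V)} {T : Finset V} (c : Finset V → ℝ) (h : T ∉ X) : rs X c T = 0 := if_neg h

/-- the boundary operator of `X` -/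
def dX (X : Set (Finset V)) : (Finset V → ℝ) →ₗ[ℝ] (Finset V → ℝ) := rs X ∘ₗ bd ℝ

theorem dX_pos {X : Set (Finset V)} {T : Finset V} (c : Finset V → ℝ) (h : T ∈ X) : dX X c T = bd ℝ c T :=
  rs_pos _ h

theorem dX_neg {X : Set (Finset V)} {T : Finset V} (c : Finset V → ℝ) (h : T ∉ X) : dX X c T = 0 :=
  rs_neg _ h

/-- convex families -/
def Cvx (X : Set (Finset V)) : Prop := ∀ S T R : Finset V, S ∈ X → R ∈ X → S ⊆ T → T ⊆ R → T ∈ X

/-- the `i`-cycles -/
def zX (X : Set (Finset V)) (i : ℕ) : Submodule ℝ (Finset V → ℝ) := CX X i ⊓ LinearMap.ker (dX X)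

/-- the `i`-boundaries -/
def eX (X : Set (Finset V)) (i : ℕ) : Submodule ℝ (Finset V → ℝ) := (CX X (i + 1)).map (dX X)

/-- the Betti numbers -/
def bX (X : Set (Finset V)) (i : ℕ) : ℕ := finrank ℝ (zX X i) - finrank ℝ (eX X i)

omit [Fintype V] [LinearOrder V] in
theorem mem_CX {X : Set (Finset V)} {i : ℕ} {c : Finset V → ℝ} :
    c ∈ CX X i ↔ ∀ T, ¬ (T ∈ X ∧ T.card = i) → c T = 0 := Iff.rfl

theorem dX_mem {X : Set (Finset V)} {i : ℕ} {c : Finset V → ℝ} (h : c ∈ CX X (i + 1)) : dX X c ∈ CX X i := by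
  intro T hT
  by_cases hX : T ∈ X
  · rw [dX_pos _ hX, bd_apply]
    refine Finset.sum_eq_zero fun v hv => ?_
    rw [h (insert v T), smul_zero]
    rintro ⟨-, h2⟩
    rw [Finset.card_insert_of_notMem (by simpa using hv)] at h2
    exact hT ⟨hX, by omega⟩
  · exact dX_neg _ hX

theorem dX_dX {X : Set (Finset V)} (hX : Cvx X) {i : ℕ} {c : Finset V → ℝ} (h : c ∈ CX X i) :
    dX X (dX X c) = 0 := by
  funext T
  by_cases hT : T ∈ X
  · rw [dX_pos _ hT]
    have h1 := congrFun (bd_bd (F := ℝ) c) T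
    rw [← h1, bd_apply, bd_apply]
    refine Finset.sum_congr rfl fun v _ => ?_
    congr 1
    by_cases hv : insert v T ∈ X
    · exact dX_pos _ hv
    · rw [dX_neg _ hv, bd_apply]
      symm
      refine Finset.sum_eq_zero fun u _ => ?_
      rw [h, smul_zero]
      rintro ⟨h2, -⟩
      exact hv (hX _ _ _ hT h2 (Finset.subset_insert _ _) (Finset.subset_insert _ _))
  · exact dX_neg _ hT

theorem eX_le {X : Set (Finset V)} (hX : Cvx X) (i : ℕ) : eX X i ≤ zX X i := by
  rintro _ ⟨c, hc, rfl⟩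
  exact ⟨dX_mem hc, dX_dX hX hc⟩

/-! ### exact sequences -/

section les

variable {X C : Set (Finset V)}

/-- `C` is a closed subfamily of `X` -/
def Cl (C X : Set (Finset V)) : Prop := C ⊆ X ∧ ∀ S T : Finset V, S ∈ C → T ∈ X → T ⊆ S → T ∈ C

omit [Fintype V] [LinearOrder V] in
theorem Cl.cvx (h : Cl C X) (hX : Cvx X) : Cvx C := fun S T R h1 h2 h3 h4 =>
  h.2 R T h2 (hX S T R (h.1 h1) (h.1 h2) h3 h4) h4

omit [Fintype V] [LinearOrder V] in
theorem Cl.cvx' (h : Cl C X) (hX : Cvx X) : Cvx (X \ C) := fun S T R h1 h2 h3 h4 =>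
  ⟨hX S T R h1.1 h2.1 h3 h4, fun h5 => h1.2 (h.2 T S h5 h1.1 h3)⟩

omit [Fintype V] [LinearOrder V] in
theorem CX_mono {Y : Set (Finset V)} (h : C ⊆ Y) (i : ℕ) : CX C i ≤ CX Y i := fun _ hc T hT =>
  hc T fun h1 => hT ⟨h h1.1, h1.2⟩

/-- on chains of the closed part the boundary does not change -/
theorem dX_closed (h : Cl C X) {i : ℕ} {c : Finset V → ℝ} (hc : c ∈ CX C i) : dX X c = dX C c := by
  funext T
  by_cases hT : T ∈ C
  · rw [dX_pos _ hT, dX_pos _ (h.1 hT)]
  · rw [dX_neg _ hT]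
    by_cases hX : T ∈ X
    · rw [dX_pos _ hX, bd_apply]
      refine Finset.sum_eq_zero fun v _ => ?_
      rw [hc, smul_zero]
      rintro ⟨h1, -⟩
      exact hT (h.2 _ _ h1 hX (Finset.subset_insert _ _))
    · exact dX_neg _ hX

omit [LinearOrder V] [Fintype V] in
theorem rs_mem {i : ℕ} {c : Finset V → ℝ} (hc : c ∈ CX X i) : rs (X \ C) c ∈ CX (X \ C) i := by
  intro T hT
  by_cases h1 : T ∈ X \ C
  · rw [rs_pos _ h1]
    exact hc T fun h2 => hT ⟨h1, h2.2⟩
  · exact rs_neg _ h1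

theorem dX_rs (h : Cl C X) {i : ℕ} {c : Finset V → ℝ} (hc : c ∈ CX X i) :
    dX (X \ C) (rs (X \ C) c) = rs (X \ C) (dX X c) := by
  funext T
  by_cases hT : T ∈ X \ C
  · rw [dX_pos _ hT, rs_pos _ hT, dX_pos _ hT.1, bd_apply, bd_apply]
    refine Finset.sum_congr rfl fun v _ => ?_
    congr 1
    by_cases hv : insert v T ∈ X \ C
    · exact rs_pos _ hv
    · rw [rs_neg _ hv]
      symm
      apply hc
      rintro ⟨h1, -⟩
      by_cases h2 : insert v T ∈ C
      · exact hT.2 (h.2 _ _ h2 hT.1 (Finset.subset_insert _ _))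
      · exact hv ⟨h1, h2⟩
  · rw [dX_neg _ hT, rs_neg _ hT]

omit [LinearOrder V] [Fintype V] in
/-- a chain that vanishes on the open part is a chain of the closed part -/
theorem mem_closed {i : ℕ} {c : Finset V → ℝ} (hc : c ∈ CX X i) (h0 : rs (X \ C) c = 0) : c ∈ CX C i := by
  intro T hT
  by_cases h1 : T ∈ X \ C
  · have := congrFun h0 T
    rwa [rs_pos _ h1] at this
  · refine hc T fun h2 => hT ⟨?_, h2.2⟩
    by_contra h3
    exact h1 ⟨h2.1, h3⟩

omit [LinearOrder V] [Fintype V] in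
theorem rs_open {i : ℕ} {c : Finset V → ℝ} (hc : c ∈ CX (X \ C) i) : rs (X \ C) c = c := by
  funext T
  by_cases h1 : T ∈ X \ C
  · exact rs_pos _ h1
  · rw [rs_neg _ h1]
    exact (hc T fun h2 => h1 h2.1).symm

/-- restriction of `X` to the open part -/
theorem dX_open (h : Cl C X) {i : ℕ} {c : Finset V → ℝ} (hc : c ∈ CX (X \ C) i) :
    rs (X \ C) (dX X c) = dX (X \ C) c := by
  rw [← dX_rs h (CX_mono Set.sdiff_subset i hc), rs_open hc]

theorem les_a (h : Cl C X) (hX : Cvx X) (i : ℕ) : bX X i ≤ bX C i + bX (X \ C) i := by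
  refine Pool.Agent.W721.SG.MID.mid ℝ (Finset V → ℝ) (Finset V → ℝ) (Finset V → ℝ) LinearMap.id (rs (X \ C))
    (eX C i) (zX C i) (eX X i) (zX X i) (eX (X \ C) i) (zX (X \ C) i) (eX_le (h.cvx hX) i) (eX_le hX i)
    (eX_le (h.cvx' hX) i) ?_ ?_ ?_
  · rintro _ ⟨_, ⟨c, hc, rfl⟩, rfl⟩
    exact ⟨c, CX_mono h.1 _ hc, dX_closed h hc⟩
  · rintro _ ⟨z, ⟨hz1, hz2⟩, rfl⟩
    have hz2 : dX X z = 0 := hz2
    refine ⟨rs_mem hz1, ?_⟩
    show dX (X \ C) (rs (X \ C) z) = 0
    rw [dX_rs h hz1, hz2, map_zero]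
  · rintro z ⟨hz1, hz2⟩ ⟨d, hd, hdz⟩
    have hz2 : dX X z = 0 := hz2
    have hd' : d ∈ CX X (i + 1) := CX_mono Set.sdiff_subset _ hd
    have h1 : z - dX X d ∈ CX C i := by
      refine mem_closed (Submodule.sub_mem _ hz1 (dX_mem hd')) ?_
      rw [map_sub, dX_open h hd, hdz, sub_self]
    refine ⟨z - dX X d, ⟨h1, ?_⟩, dX X d, ⟨d, hd', rfl⟩, by simp⟩
    show dX C (z - dX X d) = 0
    rw [← dX_closed h h1, map_sub, hz2, dX_dX hX hd', sub_zero]

theorem les_b (h : Cl C X) (hX : Cvx X) (i : ℕ) : bX (X \ C) (i + 1) ≤ bX X (i + 1) + bX C i := by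
  refine Pool.Agent.W721.SG.MID.mid ℝ (Finset V → ℝ) (Finset V → ℝ) (Finset V → ℝ) (rs (X \ C)) (dX X)
    (eX X (i + 1)) (zX X (i + 1)) (eX (X \ C) (i + 1)) (zX (X \ C) (i + 1)) (eX C i) (zX C i)
    (eX_le hX _) (eX_le (h.cvx' hX) _) (eX_le (h.cvx hX) i) ?_ ?_ ?_
  · rintro _ ⟨_, ⟨c, hc, rfl⟩, rfl⟩
    exact ⟨rs (X \ C) c, rs_mem hc, dX_rs h hc⟩
  · rintro _ ⟨z, ⟨hz1, hz2⟩, rfl⟩
    have hz2 : dX (X \ C) z = 0 := hz2
    have hz3 : z ∈ CX X (i + 1) := CX_mono Set.sdiff_subset _ hz1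
    have h1 : dX X z ∈ CX C i := mem_closed (dX_mem hz3) (by rw [dX_open h hz1, hz2])
    refine ⟨h1, ?_⟩
    show dX C (dX X z) = 0
    rw [← dX_closed h h1, dX_dX hX hz3]
  · rintro z ⟨hz1, hz2⟩ ⟨y, hy, hyz⟩
    have hz3 : z ∈ CX X (i + 1) := CX_mono Set.sdiff_subset _ hz1
    have hy3 : y ∈ CX X (i + 1) := CX_mono h.1 _ hy
    refine ⟨z - y, ⟨Submodule.sub_mem _ hz3 hy3, ?_⟩, 0, Submodule.zero_mem _, ?_⟩
    · show dX X (z - y) = 0
      rw [map_sub, dX_closed h hy, hyz, sub_self]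
    · have h2 : rs (X \ C) y = 0 := by
        funext T
        by_cases h3 : T ∈ X \ C
        · rw [rs_pos _ h3]
          exact hy T fun h4 => h3.2 h4.1
        · exact rs_neg _ h3
      rw [map_sub, rs_open hz1, h2, sub_zero, add_zero]

theorem les_b0 (h : Cl C X) (hX : Cvx X) : bX (X \ C) 0 ≤ bX X 0 := by
  have key := Pool.Agent.W721.SG.MID.mid ℝ (Finset V → ℝ) (Finset V → ℝ) (Finset V → ℝ) (rs (X \ C)) 0
    (eX X 0) (zX X 0) (eX (X \ C) 0) (zX (X \ C) 0) ⊥ ⊥
    (eX_le hX _) (eX_le (h.cvx' hX) _) le_rfl ?_ ?_ ?_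
  · rw [Nat.sub_self, add_zero] at key
    exact key
  · rintro _ ⟨_, ⟨c, hc, rfl⟩, rfl⟩
    exact ⟨rs (X \ C) c, rs_mem hc, dX_rs h hc⟩
  · rintro _ ⟨z, _, rfl⟩
    exact Submodule.zero_mem _
  · rintro z ⟨hz1, hz2⟩ -
    have hz3 : z ∈ CX X 0 := CX_mono Set.sdiff_subset _ hz1
    refine ⟨z, ⟨hz3, ?_⟩, 0, Submodule.zero_mem _, by rw [rs_open hz1, add_zero]⟩
    show dX X z = 0
    funext T
    by_cases hT : T ∈ X
    · rw [dX_pos _ hT, bd_apply]
      refine Finset.sum_eq_zero fun v hv => ?_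
      rw [hz3, smul_zero]
      rintro ⟨-, h2⟩
      rw [Finset.card_insert_of_notMem (by simpa using hv)] at h2
      omega
    · exact dX_neg _ hT

theorem les_c (h : Cl C X) (hX : Cvx X) (i : ℕ) : bX C i ≤ bX X i + bX (X \ C) (i + 1) := by
  refine Pool.Agent.W721.SG.MID.con ℝ (Finset V → ℝ) (Finset V → ℝ) (Finset V → ℝ) (dX X) (rs (X \ C))
    (eX C i) (zX C i) (eX X i) (zX X i) (eX (X \ C) (i + 1)) (zX (X \ C) (i + 1))
    (CX X (i + 1) ⊓ (CX C i).comap (dX X)) (eX_le (h.cvx hX) i) (eX_le hX i) (eX_le (h.cvx' hX) _) ?_ ?_ ?_ ?_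
  · rintro z ⟨hz1, hz2⟩
    have hz2 : dX C z = 0 := hz2
    refine ⟨CX_mono h.1 _ hz1, ?_⟩
    show dX X z = 0
    rw [dX_closed h hz1, hz2]
  · rintro z ⟨hz1, hz2⟩ ⟨x, hx, rfl⟩
    exact ⟨x, ⟨hx, hz1⟩, rfl⟩
  · rintro x ⟨hx1, hx2⟩
    have hx2 : dX X x ∈ CX C i := hx2
    refine ⟨rs_mem hx1, ?_⟩
    show dX (X \ C) (rs (X \ C) x) = 0
    rw [dX_rs h hx1]
    funext T
    by_cases h3 : T ∈ X \ C
    · rw [rs_pos _ h3]
      exact hx2 T fun h4 => h3.2 h4.1
    · exact rs_neg _ h3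
  · rintro x ⟨hx1, hx2⟩ ⟨y, hy, hyx⟩
    have hy' : y ∈ CX X (i + 1 + 1) := CX_mono Set.sdiff_subset _ hy
    have h1 : x - dX X y ∈ CX C (i + 1) := by
      refine mem_closed (Submodule.sub_mem _ hx1 (dX_mem hy')) ?_
      rw [map_sub, dX_open h hy, hyx, sub_self]
    refine ⟨x - dX X y, h1, ?_⟩
    rw [← dX_closed h h1, map_sub, dX_dX hX hy', sub_zero]

/-- an acyclic closed part can be removed -/
theorem bX_diff (h : Cl C X) (hX : Cvx X) (h0 : ∀ i, bX C i = 0) (i : ℕ) : bX (X \ C) i = bX X i := by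
  apply le_antisymm
  · cases i with
    | zero => exact les_b0 h hX
    | succ i =>
      have := les_b h hX i
      rwa [h0, add_zero] at this
  · have := les_a h hX i
    rwa [h0, zero_add] at this

/-- the connecting isomorphism for an acyclic family -/
theorem bX_conn (h : Cl C X) (hX : Cvx X) (h0 : ∀ i, bX X i = 0) (i : ℕ) : bX (X \ C) (i + 1) = bX C i := by
  apply le_antisymm
  · have := les_b h hX i
    rwa [h0, zero_add] at this
  · have := les_c h hX i
    rwa [h0, zero_add] at this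

theorem bX_conn0 (h : Cl C X) (hX : Cvx X) (h0 : ∀ i, bX X i = 0) : bX (X \ C) 0 = 0 := by
  have := les_b0 h hX
  rw [h0] at this
  omega

end les

/-! ### cones -/

omit [Fintype V] in
theorem sg3 (s v : V) (S : Finset V) (hsv : v ≠ s) (hs : s ∉ S) (hv : v ∉ S) :
    sg v (insert s S) * sg s (insert v S) = -(sg s S * sg v S) := by
  have h1 := sg_swap v s S hsv hv hs
  have h2 := sg_mul_self s S
  have h3 := sg_mul_self s (insert v S)
  have h4 : sg v (insert s S) * sg s (insert v S) =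
      (sg v (insert s S) * sg s S) * sg s S * sg s (insert v S) := by
    rw [mul_assoc (sg v (insert s S)), h2, mul_one]
  rw [h4, h1]
  linear_combination (-(sg v S * sg s S)) * h3

/-- `X` is a cone with apex `v` -/
def IsCone (X : Set (Finset V)) (v : V) : Prop := ∀ T, T ∈ X → insert v T ∈ X ∧ T.erase v ∈ X

theorem bX_cone {X : Set (Finset V)} {v : V} (h : IsCone X v) (i : ℕ) : bX X i = 0 := by
  have key : zX X i ≤ eX X i := by
    rintro z ⟨hz1, hz2⟩
    have hz2 : dX X z = 0 := hz2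
    refine ⟨fun T => if v ∈ T then sg v (T.erase v) • z (T.erase v) else 0, ?_, ?_⟩
    · intro T hT
      show (if v ∈ T then sg v (T.erase v) • z (T.erase v) else 0) = 0
      split_ifs with hv
      · rw [hz1, smul_zero]
        rintro ⟨h1, h2⟩
        apply hT
        refine ⟨?_, ?_⟩
        · have := (h _ h1).1
          rwa [Finset.insert_erase hv] at this
        · rw [← h2, Finset.card_erase_add_one hv]
      · rfl
    · funext T
      by_cases hT : T ∈ X
      · rw [dX_pos _ hT, bd_apply]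
        by_cases hv : v ∈ T
        · obtain ⟨S, hS⟩ : ∃ S, S = T.erase v := ⟨_, rfl⟩
          have hvS : v ∉ S := by rw [hS]; simp
          have hTS : T = insert v S := by rw [hS, Finset.insert_erase hv]
          have hSX : S ∈ X := by rw [hS]; exact (h _ hT).2
          have e1 : ∑ u ∈ Tᶜ, sg u T • (if v ∈ insert u T then sg v ((insert u T).erase v) •
              z ((insert u T).erase v) else 0) = ∑ u ∈ Tᶜ, (-(sg v S)) • (sg u S • z (insert u S)) := by
            refine Finset.sum_congr rfl fun u hu => ?_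
            rw [Finset.mem_compl] at hu
            have huv : u ≠ v := fun h' => hu (h' ▸ hv)
            have huS : u ∉ S := fun h' => hu (by rw [hTS]; exact Finset.mem_insert_of_mem h')
            rw [if_pos (Finset.mem_insert_of_mem hv), Finset.erase_insert_of_ne huv, ← hS, smul_smul, smul_smul,
              hTS, sg3 v u S huv hvS huS, neg_mul]
          rw [e1, ← Finset.smul_sum]
          have h2 := congrFun hz2 S
          rw [dX_pos _ hSX, bd_apply] at h2
          have hSc : Sᶜ = insert v Tᶜ := by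
            ext u
            simp only [Finset.mem_compl, Finset.mem_insert, hTS, not_or]
            by_cases h3 : u = v
            · subst h3; simp [hvS]
            · simp [h3]
          rw [hSc, Finset.sum_insert (by simpa using hv), Pi.zero_apply] at h2
          have h3 : ∑ u ∈ Tᶜ, sg u S • z (insert u S) = - (sg v S • z (insert v S)) := by
            rw [eq_neg_iff_add_eq_zero, ← h2]; abel
          rw [h3, smul_neg, neg_smul, neg_neg, smul_smul, sg_mul_self, one_smul, ← hTS]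
        · rw [Finset.sum_eq_single v]
          · rw [if_pos (Finset.mem_insert_self _ _), Finset.erase_insert hv, smul_smul, sg_mul_self, one_smul]
          · intro u _ huv
            rw [if_neg, smul_zero]
            intro h1
            rcases Finset.mem_insert.1 h1 with h2 | h2
            · exact huv h2.symm
            · exact hv h2
          · intro h1
            exact absurd (Finset.mem_compl.2 hv) h1
      · rw [dX_neg _ hT]
        exact (hz1 T fun h1 => hT h1.1).symm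
  unfold bX
  have := Submodule.finrank_mono (R := ℝ) key
  omega

end Pool.Agent.U729.LT
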