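import Pool.Agent.N496.LT.Stm2
import Pool.Agent.W347.SG.VERT
import Pool.Agent.W721.SG.MID

/-!
# Project LT, job P2G: the midpoints of the subdivided edges do not contribute
-/

set_option autoImplicit false

noncomputable section

namespace Pool.Agent.U729.LT

open Module Pool.Agent.W907.SG Pool.Agent.W461.SGN Pool.Agent.N496.LT

/-! ### the other inequality of the exact sequence of a vertex -/

section vert2

variable {V F M : Type} [Fintype V] [LinearOrder V] [Field F] [AddCommGroup M] [Module F M] [FiniteDimensional F M]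

open Pool.Agent.W347.SGV in
theorem vert2 (G : SimpleGraph V) (ρ : V → M →ₗ[F] M) (A S : Set V) (v : V) (hvA : v ∉ A) (i : ℕ) :
    beta G ρ A S i ≤ beta G ρ (insert v A) S i + beta G ρ (A ∩ G.neighborSet v) (insert v S) i := by
  refine Pool.Agent.W721.SG.MID.con F (Finset V → M) (Finset V → M) (Finset V → M) (bd F) (qq F v)
    (BB G ρ A S i) (ZZ G ρ A S i) (BB G ρ (insert v A) S i) (ZZ G ρ (insert v A) S i)
    (BB G ρ (A ∩ G.neighborSet v) (insert v S) i) (ZZ G ρ (A ∩ G.neighborSet v) (insert v S) i)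
    (KK G ρ (insert v A) S (i + 1) ⊓ (KK G ρ A S i).comap (bd F))
    (BB_le_ZZ _ _ _ _ _) (BB_le_ZZ _ _ _ _ _) (BB_le_ZZ _ _ _ _ _) ?_ ?_ ?_ ?_
  · exact inf_le_inf_right _ (KK_mono (Set.subset_insert _ _))
  · rintro z hz ⟨c, hc, rfl⟩
    exact ⟨c, ⟨hc, hz.1⟩, rfl⟩
  · rintro x ⟨hx1, hx2⟩
    refine ⟨qq_mem hx1, ?_⟩
    show bd F (qq F v x) = 0
    rw [qq_bd]
    have hx2 : bd F x ∈ KK G ρ A S i := hx2
    have : qq F v (bd F x) = 0 := by
      funext T
      by_cases hv : v ∈ T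
      · exact qq_of_mem _ hv
      · rw [qq_of_not _ hv, (mem_KK.1 hx2).1 (insert v T), smul_zero]
        · rfl
        · rintro ⟨-, h, -⟩
          exact hvA (h (by simp))
    rw [this, neg_zero]
  · rintro x ⟨hx1, hx2⟩ ⟨d, hd, hdx⟩
    have hd : d ∈ KK G ρ (A ∩ G.neighborSet v) (insert v S) (i + 1) := hd
    have he := lift_mem (A := A) hd
    have h1 : x + bd F (lift v d) ∈ KK G ρ (insert v A) S (i + 1) :=
      Submodule.add_mem _ hx1 (bd_mem_KK he)
    have h2 : qq F v (x + bd F (lift v d)) = 0 := by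
      have h3 := qq_bd (F := F) v (lift v d)
      rw [qq_lift hvA hd] at h3
      rw [map_add, ← hdx, h3, neg_add_cancel]
    refine ⟨x + bd F (lift v d), mem_of_qq h1 h2, ?_⟩
    rw [map_add, bd_bd, add_zero]

end vert2

/-! ### suspensions -/

section acyc

variable {V F M : Type} [Fintype V] [LinearOrder V] [Field F] [AddCommGroup M] [Module F M]

omit [Fintype V] in
theorem sg2 (s v : V) (S : Finset V) (hsv : v ≠ s) (hs : s ∉ S) (hv : v ∉ S) :
    sg v (insert s S) * sg s (insert v S) = -(sg s S * sg v S) := by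
  have h1 := sg_swap v s S hsv hv hs
  have h2 := sg_mul_self s S
  have h3 := sg_mul_self s (insert v S)
  have h4 : sg v (insert s S) * sg s (insert v S) =
      (sg v (insert s S) * sg s S) * sg s S * sg s (insert v S) := by
    rw [mul_assoc (sg v (insert s S)), h2, mul_one]
  rw [h4, h1]
  linear_combination (-(sg v S * sg s S)) * h3

/-- one half of the homotopy -/
def hs (L : M →ₗ[F] M) (s t : V) : (Finset V → M) →ₗ[F] (Finset V → M) where
  toFun c U := if s ∈ U ∧ t ∉ U then sg s (U.erase s) • L (c (U.erase s)) else 0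
  map_add' c d := by
    funext U
    simp only [Pi.add_apply, map_add]
    split_ifs
    · rw [smul_add]
    · rw [add_zero]
  map_smul' a c := by
    funext U
    simp only [Pi.smul_apply, RingHom.id_apply, map_smul]
    split_ifs
    · exact smul_comm _ _ _
    · rw [smul_zero]

omit [Fintype V] in
theorem hs_pos (L : M →ₗ[F] M) {s t : V} (c : Finset V → M) {U : Finset V} (hs1 : s ∈ U) (ht : t ∉ U) :
    hs L s t c U = sg s (U.erase s) • L (c (U.erase s)) := if_pos ⟨hs1, ht⟩

omit [Fintype V] in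
theorem hs_neg (L : M →ₗ[F] M) {s t : V} (c : Finset V → M) {U : Finset V} (h : ¬ (s ∈ U ∧ t ∉ U)) :
    hs L s t c U = 0 := if_neg h

omit [Fintype V] in
theorem hs_mem {G : SimpleGraph V} {ρ : V → M →ₗ[F] M} {B S : Set V} {s t : V} {i : ℕ} (hsB : s ∈ B)
    (hadj : ∀ u ∈ B, u ≠ s → u ≠ t → G.Adj u s) (L : M →ₗ[F] M)
    (hL : ∀ u, (u ∈ B ∧ u ≠ s ∧ u ≠ t) ∨ u ∈ S → ∀ m, ρ u m = - m → ρ u (L m) = - L m) (hLs : ∀ m, ρ s (L m) = - L m)
    {c : Finset V → M} (h : c ∈ KK G ρ B S i) : hs L s t c ∈ KK G ρ B S (i + 1) := by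
  rw [mem_KK] at h ⊢
  obtain ⟨h1, h2⟩ := h
  refine ⟨fun U hU => ?_, fun U u hu => ?_⟩
  · by_cases h0 : s ∈ U ∧ t ∉ U
    · obtain ⟨hsU, htU⟩ := h0
      rw [hs_pos L c hsU htU, h1 (U.erase s), map_zero, smul_zero]
      rintro ⟨h3, h4, h5⟩
      apply hU
      refine ⟨?_, ?_, ?_⟩
      · rw [← Finset.insert_erase hsU, Finset.coe_insert, SimpleGraph.isClique_insert]
        refine ⟨h3, fun v hv hne => (hadj v (h4 hv) hne.symm ?_).symm⟩
        rintro rfl
        exact htU (Finset.mem_of_mem_erase (Finset.mem_coe.1 hv))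
      · rw [← Finset.insert_erase hsU, Finset.coe_insert]
        exact Set.insert_subset hsB h4
      · rw [← h5, Finset.card_erase_add_one hsU]
    · exact hs_neg L c h0
  · by_cases h0 : s ∈ U ∧ t ∉ U
    · obtain ⟨hsU, htU⟩ := h0
      rw [hs_pos L c hsU htU, map_zsmul, ← smul_neg]
      congr 1
      by_cases hus : u = s
      · rw [hus, hLs]
      by_cases hc : c (U.erase s) = 0
      · rw [hc]; simp
      have hB : ((U.erase s : Finset V) : Set V) ⊆ B := by
        by_contra hB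
        exact hc (h1 _ fun h3 => hB h3.2.1)
      refine hL u ?_ _ (h2 _ u ?_)
      · rcases hu with hu | hu
        · refine Or.inl ⟨hB (Finset.mem_coe.2 (Finset.mem_erase.2 ⟨hus, hu⟩)), hus, ?_⟩
          rintro rfl
          exact htU hu
        · exact Or.inr hu
      · rcases hu with hu | hu
        · exact Or.inl (Finset.mem_erase.2 ⟨hus, hu⟩)
        · exact Or.inr hu
    · rw [hs_neg L c h0]; simp

theorem bd_hs (L : M →ₗ[F] M) {s t : V} (hst : s ≠ t) (c : Finset V → M) (hc : bd F c = 0) (T : Finset V) :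
    (t ∈ T → bd F (hs L s t c) T = 0) ∧ (s ∉ T → t ∉ T → bd F (hs L s t c) T = L (c T)) ∧
    (s ∉ T → t ∉ T → bd F (hs L s t c) (insert s T) =
      L (c (insert s T) + (sg s T * sg t T) • c (insert t T))) := by
  refine ⟨fun ht => ?_, fun hsT htT => ?_, fun hsS htS => ?_⟩
  · rw [bd_apply]
    refine Finset.sum_eq_zero fun v _ => ?_
    rw [hs_neg L c (fun h => h.2 (Finset.mem_insert_of_mem ht)), smul_zero]
  · rw [bd_apply, Finset.sum_eq_single s]
    · rw [hs_pos L c (Finset.mem_insert_self _ _) (by simp [Ne.symm hst, htT]), Finset.erase_insert hsT, smul_smul,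
        sg_mul_self, one_smul]
    · intro v _ hvs
      rw [hs_neg L c, smul_zero]
      rintro ⟨h1, -⟩
      rcases Finset.mem_insert.1 h1 with h | h
      · exact hvs h.symm
      · exact hsT h
    · intro h
      exact absurd (Finset.mem_compl.2 hsT) h
  · rw [bd_apply]
    have htc : t ∈ (insert s T)ᶜ := by simp [htS, Ne.symm hst]
    have e1 : ∑ v ∈ (insert s T)ᶜ, sg v (insert s T) • hs L s t c (insert v (insert s T)) =
        ∑ v ∈ (insert s T)ᶜ.erase t, (-(sg s T)) • L (sg v T • c (insert v T)) := by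
      rw [← Finset.add_sum_erase _ _ htc, hs_neg L c (fun h => h.2 (Finset.mem_insert_self _ _)), smul_zero, zero_add]
      refine Finset.sum_congr rfl fun v hv => ?_
      rw [Finset.mem_erase, Finset.mem_compl, Finset.mem_insert, not_or] at hv
      obtain ⟨hvt, hvs, hvT⟩ := hv
      have h1 : s ∈ insert v (insert s T) := by simp
      have h2 : t ∉ insert v (insert s T) := by simp [Ne.symm hvt, Ne.symm hst, htS]
      have h3 : (insert v (insert s T)).erase s = insert v T := by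
        rw [Finset.erase_insert_of_ne hvs, Finset.erase_insert hsS]
      rw [hs_pos L c h1 h2, h3, smul_smul, sg2 s v T hvs hsS hvT, map_zsmul, smul_smul, neg_mul]
    rw [e1, ← Finset.smul_sum, ← map_sum]
    have h2 := congrFun hc T
    rw [bd_apply] at h2
    have hSc : Tᶜ = insert s (insert t ((insert s T)ᶜ.erase t)) := by
      ext v
      simp only [Finset.mem_compl, Finset.mem_insert, Finset.mem_erase, not_or]
      by_cases h3 : v = s
      · subst h3; simp [hsS]
      · by_cases h4 : v = t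
        · subst h4; simp [htS]
        · simp [h3, h4]
    have hs1 : s ∉ insert t ((insert s T)ᶜ.erase t) := by
      simp [hst]
    have ht1 : t ∉ (insert s T)ᶜ.erase t := by simp
    rw [hSc, Finset.sum_insert hs1, Finset.sum_insert ht1, Pi.zero_apply] at h2
    have h3 : ∑ v ∈ (insert s T)ᶜ.erase t, sg v T • c (insert v T) =
        - (sg s T • c (insert s T) + sg t T • c (insert t T)) := by
      rw [eq_neg_iff_add_eq_zero, ← h2]; abel
    rw [h3, map_neg, smul_neg, neg_smul, neg_neg, ← map_zsmul, smul_add, smul_smul, smul_smul, sg_mul_self, one_smul]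

/-- the square of `u - 1` -/
def sq (ρ : V → M →ₗ[F] M) (s t : V) : M →ₗ[F] M :=
  (ρ s ∘ₗ ρ t - LinearMap.id) ∘ₗ (ρ s ∘ₗ ρ t - LinearMap.id)

omit [Fintype V] [LinearOrder V] in
theorem sq_apply (ρ : V → M →ₗ[F] M) (s t : V) (m : M) : sq ρ s t m =
    ρ s (ρ t (ρ s (ρ t m) - m)) - (ρ s (ρ t m) - m) := rfl

omit [Fintype V] [LinearOrder V] in
theorem alg (ρ : V → M →ₗ[F] M) (s t : V) (a b : M) (ha : ρ s a = - a)
    (hb : ρ t b = - b) (h1 : a + b - ρ t (a + b) = 0) (h2 : ρ t (a + b) - ρ s (ρ t (a + b)) = 0) :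
    sq ρ s t a = 0 ∧ sq ρ s t b = 0 := by
  have h3 : ρ t (a + b) = a + b := (sub_eq_zero.1 h1).symm
  rw [h3] at h2
  have h4 : ρ s (a + b) = a + b := (sub_eq_zero.1 h2).symm
  have h5 : ρ t a = a + b + b := by
    rw [map_add, hb] at h3
    rw [← h3]; abel
  have h6 : ρ s b = a + b + a := by
    rw [map_add, ha] at h4
    rw [← h4]; abel
  have h7 : ρ s (ρ t a) - a = (a + b) + (a + b) := by
    rw [h5, map_add, h4, h6]; abel
  have h8 : ρ s (ρ t b) - b = - ((a + b) + (a + b)) := by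
    rw [hb, map_neg, h6]; abel
  have h9 : ρ s (ρ t ((a + b) + (a + b))) = (a + b) + (a + b) := by
    rw [map_add, h3, map_add, h4]
  constructor
  · rw [sq_apply, h7, h9, sub_self]
  · rw [sq_apply, h8, map_neg, map_neg, h9, sub_self]

variable [FiniteDimensional F M]

theorem acyc (G : SimpleGraph V) (ρ : V → M →ₗ[F] M) (B S : Set V) (s t : V) (hst : s ≠ t) (hnadj : ¬ G.Adj s t)
    (hsB : s ∈ B) (htB : t ∈ B)
    (hadj : ∀ u ∈ B, u ≠ s → u ≠ t → G.Adj u s ∧ G.Adj u t) (hinv : ∀ v m, ρ v (ρ v m) = m)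
    (hcomm : ∀ u v, G.Adj u v → ∀ m, ρ u (ρ v m) = ρ v (ρ u m))
    (hS : ∀ u ∈ S, ∀ m, ρ u (ρ s m) = ρ s (ρ u m) ∧ ρ u (ρ t m) = ρ t (ρ u m)) (i : ℕ) :
    beta G ρ B S i ≤ 2 ^ Fintype.card V * finrank F (LinearMap.ker (sq ρ s t)) := by
  obtain ⟨L1, hL1⟩ : ∃ L1 : M →ₗ[F] M, ∀ m, L1 m = ρ t m - ρ s (ρ t m) := ⟨ρ t - ρ s ∘ₗ ρ t, fun m => rfl⟩
  obtain ⟨L2, hL2⟩ : ∃ L2 : M →ₗ[F] M, ∀ m, L2 m = m - ρ t m := ⟨LinearMap.id - ρ t, fun m => rfl⟩
  obtain ⟨φ, hφ⟩ : ∃ φ : (Finset V → M) →ₗ[F] (Finset V → M), ∀ c, φ c = bd F (hs L1 s t c + hs L2 t s c) :=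
    ⟨bd F ∘ₗ (hs L1 s t + hs L2 t s), fun c => rfl⟩
  have hcu : ∀ u, (u ∈ B ∧ u ≠ s ∧ u ≠ t) ∨ u ∈ S → ∀ m, ρ u (ρ s m) = ρ s (ρ u m) ∧ ρ u (ρ t m) = ρ t (ρ u m) := by
    rintro u (⟨h1, h2, h3⟩ | h) m
    · exact ⟨hcomm _ _ (hadj u h1 h2 h3).1 m, hcomm _ _ (hadj u h1 h2 h3).2 m⟩
    · exact hS u h m
  -- the image of the cycles consists of boundaries
  have h1 : (ZZ G ρ B S i).map φ ≤ BB G ρ B S i := by
    rintro _ ⟨c, ⟨hc, -⟩, rfl⟩
    rw [hφ]
    refine ⟨_, Submodule.add_mem _ ?_ ?_, rfl⟩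
    · refine hs_mem hsB (fun u h1 h2 h3 => (hadj u h1 h2 h3).1) L1 ?_ ?_ hc
      · intro u hu m hm
        rw [hL1, map_sub, (hcu u hu m).2, hm, (hcu u hu _).1, (hcu u hu m).2, hm, map_neg, map_neg]; abel
      · intro m
        rw [hL1, map_sub, hinv]; abel
    · refine hs_mem htB (fun u h1 h2 h3 => (hadj u h1 h3 h2).2) L2 ?_ ?_ hc
      · intro u hu m hm
        have hu' : (u ∈ B ∧ u ≠ s ∧ u ≠ t) ∨ u ∈ S := by tauto
        rw [hL2, map_sub, (hcu u hu' m).2, hm, map_neg]; abel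
      · intro m
        rw [hL2, map_sub, hinv]; abel
  -- the kernel
  have h2 : ∀ c ∈ (ZZ G ρ B S i ⊓ LinearMap.ker φ : Submodule F (Finset V → M)), ∀ T, c T ∈ LinearMap.ker (sq ρ s t) := by
    rintro c ⟨⟨hcK, hcb⟩, hcφ⟩ T
    have hcb : bd F c = 0 := hcb
    have hcφ : φ c = 0 := hcφ
    have hcK := mem_KK.1 (show c ∈ KK G ρ B S i from hcK)
    have key : ∀ U, s ∉ U → t ∉ U → sq ρ s t (c (insert s U)) = 0 ∧ sq ρ s t (c (insert t U)) = 0 := by
      intro U hs ht
      have e1 := congrFun hcφ (insert s U)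
      have e2 := congrFun hcφ (insert t U)
      rw [hφ, map_add, Pi.add_apply, (bd_hs L1 hst c hcb U).2.2 hs ht,
        (bd_hs L2 hst.symm c hcb (insert s U)).1 (by simp), add_zero, hL1, Pi.zero_apply] at e1
      rw [hφ, map_add, Pi.add_apply, (bd_hs L2 hst.symm c hcb U).2.2 ht hs,
        (bd_hs L1 hst c hcb (insert t U)).1 (by simp), zero_add, hL2, Pi.zero_apply] at e2
      have hm : ∀ e : ℤ, e * e = 1 → sq ρ s t (e • c (insert t U)) = 0 → sq ρ s t (c (insert t U)) = 0 := by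
        intro e he h
        have h3 := congrArg (fun x => e • x) h
        simp only [smul_zero] at h3
        rwa [← map_zsmul, smul_smul, he, one_smul] at h3
      have he : (sg s U * sg t U) * (sg s U * sg t U) = 1 := by
        have a1 := sg_mul_self s U
        have a2 := sg_mul_self t U
        linear_combination (sg t U * sg t U) * a1 + a2
      have e3 : c (insert s U) + (sg s U * sg t U) • c (insert t U) -
          ρ t (c (insert s U) + (sg s U * sg t U) • c (insert t U)) = 0 := by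
        have h3 := congrArg (fun x => (sg s U * sg t U) • x) e2
        simp only [smul_zero] at h3
        rw [smul_sub, ← map_zsmul, smul_add, smul_smul, mul_comm (sg t U) (sg s U), he, one_smul, add_comm] at h3
        exact h3
      have h4 := alg ρ s t (c (insert s U)) ((sg s U * sg t U) • c (insert t U))
        (hcK.2 _ s (Or.inl (by simp))) (by rw [map_zsmul, hcK.2 _ t (Or.inl (by simp)), smul_neg]) e3 e1
      exact ⟨h4.1, hm _ he h4.2⟩
    rw [LinearMap.mem_ker]
    by_cases hs : s ∈ T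
    · by_cases ht : t ∈ T
      · rw [hcK.1 T, map_zero]
        rintro ⟨h1, -⟩
        exact hnadj (h1 (Finset.mem_coe.2 hs) (Finset.mem_coe.2 ht) hst)
      · have := (key (T.erase s) (by simp) (fun h => ht (Finset.mem_of_mem_erase h))).1
        rwa [Finset.insert_erase hs] at this
    · by_cases ht : t ∈ T
      · have := (key (T.erase t) (fun h => hs (Finset.mem_of_mem_erase h)) (by simp)).2
        rwa [Finset.insert_erase ht] at this
      · have e1 := congrFun hcφ T
        rw [hφ, map_add, Pi.add_apply, (bd_hs L1 hst c hcb T).2.1 hs ht, (bd_hs L2 hst.symm c hcb T).2.1 ht hs,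
          hL1, hL2, Pi.zero_apply] at e1
        have e2 : ρ s (ρ t (c T)) - c T = 0 := by
          rw [← neg_eq_zero, ← e1]; abel
        rw [sq_apply, e2]
        simp
  -- the dimension of the kernel
  have h3 : finrank F (ZZ G ρ B S i ⊓ LinearMap.ker φ : Submodule F (Finset V → M)) ≤
      2 ^ Fintype.card V * finrank F (LinearMap.ker (sq ρ s t)) := by
    obtain ⟨ψ, hψ⟩ : ∃ ψ : (ZZ G ρ B S i ⊓ LinearMap.ker φ : Submodule F (Finset V → M)) →ₗ[F]
        (Finset V → LinearMap.ker (sq ρ s t)), ∀ c T, ((ψ c T : LinearMap.ker (sq ρ s t)) : M) = c.1 T := by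
      refine ⟨LinearMap.pi fun T => LinearMap.codRestrict _ (LinearMap.proj T ∘ₗ Submodule.subtype _)
        fun c => h2 c.1 c.2 T, fun c T => rfl⟩
    have h4 : Function.Injective ψ := by
      intro c d h
      apply Subtype.ext
      funext T
      rw [← hψ, ← hψ, h]
    have h5 := LinearMap.finrank_le_finrank_of_injective h4
    rw [Module.finrank_pi_fintype, Finset.sum_const, Finset.card_univ, Fintype.card_finset, smul_eq_mul] at h5
    exact h5
  have h4 := Pool.Agent.W721.SG.MID.rn φ (ZZ G ρ B S i)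
  have h5 := Submodule.finrank_mono (R := F) h1
  unfold beta
  omega

end acyc

/-! ### the number of invariant functions -/

section orb

variable {F : Type} [Field F]

theorem ker_comp_le {M : Type} [AddCommGroup M] [Module F M] [FiniteDimensional F M] (g : M →ₗ[F] M) :
    finrank F (LinearMap.ker (g ∘ₗ g)) ≤ 2 * finrank F (LinearMap.ker g) := by
  have h1 := Pool.Agent.W721.SG.MID.rn g (LinearMap.ker (g ∘ₗ g))
  have h2 : (LinearMap.ker (g ∘ₗ g)).map g ≤ LinearMap.ker g := by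
    rintro _ ⟨x, hx, rfl⟩
    exact hx
  have h3 := Submodule.finrank_mono (R := F) h2
  have h4 := Submodule.finrank_mono (R := F)
    (inf_le_right : LinearMap.ker (g ∘ₗ g) ⊓ LinearMap.ker g ≤ LinearMap.ker g)
  omega

/-- the space of invariant functions of a self-map of a finite set the first `k - 1` powers of which have no fixed
points -/
theorem inv_dim {Y : Type} [Fintype Y] (u : Y → Y) (k : ℕ)
    (hk : ∀ j, 1 ≤ j → j < k → ∀ y, u^[j] y ≠ y) (K : Submodule F (Y → F))
    (hK : ∀ f ∈ K, ∀ y, f (u y) = f y) : k * finrank F K ≤ Fintype.card Y := by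
  classical
  obtain ⟨q, hq⟩ : ∃ q : Setoid Y, ∀ x y, q.r x y ↔ ∃ m n, u^[m] x = u^[n] y := by
    refine ⟨⟨fun x y => ∃ m n, u^[m] x = u^[n] y, ⟨fun x => ⟨0, 0, rfl⟩, ?_, ?_⟩⟩, fun x y => Iff.rfl⟩
    · rintro x y ⟨m, n, h⟩
      exact ⟨n, m, h.symm⟩
    · rintro x y z ⟨m, n, h⟩ ⟨m', n', h'⟩
      refine ⟨m' + m, n + n', ?_⟩
      rw [Function.iterate_add_apply, h, Function.iterate_add_apply, ← h', ← Function.iterate_add_apply,
        ← Function.iterate_add_apply, add_comm]
  have hKu : ∀ f ∈ K, ∀ (n : ℕ) (y : Y), f (u^[n] y) = f y := by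
    intro f hf n
    induction n with
    | zero => intro y; rfl
    | succ n ih => intro y; rw [Function.iterate_succ_apply, ih, hK f hf]
  have hKq : ∀ f ∈ K, ∀ x y, q.r x y → f x = f y := by
    intro f hf x y hxy
    obtain ⟨m, n, h⟩ := (hq x y).1 hxy
    rw [← hKu f hf m x, h, hKu f hf n y]
  have h1 : finrank F K ≤ Fintype.card (Quotient q) := by
    obtain ⟨ψ, hψ⟩ : ∃ ψ : K →ₗ[F] (Quotient q → F), ∀ f x, ψ f x = f.1 x.out :=
      ⟨{ toFun := fun f x => f.1 x.out
         map_add' := fun _ _ => rfl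
         map_smul' := fun _ _ => rfl }, fun _ _ => rfl⟩
    have h4 : Function.Injective ψ := by
      intro f g h
      apply Subtype.ext
      funext y
      have h5 : q.r (Quotient.mk q y).out y := Quotient.exact (Quotient.out_eq _)
      have h6 := congrFun h (Quotient.mk q y)
      rw [hψ, hψ] at h6
      rw [← hKq f.1 f.2 _ _ h5, ← hKq g.1 g.2 _ _ h5, h6]
    have h5 := LinearMap.finrank_le_finrank_of_injective h4
    rwa [Module.finrank_fintype_fun_eq_card] at h5
  have h2 : Fintype.card (Fin k × Quotient q) ≤ Fintype.card Y := by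
    refine Fintype.card_le_of_injective (fun z : Fin k × Quotient q => u^[z.1] z.2.out) ?_
    have aux : ∀ (i j : ℕ) (y : Y), i < j → j < k → u^[i] y ≠ u^[j] y := by
      intro i j y hij hj h
      refine hk (j - i) (by omega) (by omega) (u^[i] y) ?_
      rw [← Function.iterate_add_apply, Nat.sub_add_cancel hij.le, h]
    rintro ⟨i, x⟩ ⟨j, y⟩ h
    have h : u^[i] x.out = u^[j] y.out := h
    have hxy : x = y := by
      rw [← Quotient.out_eq x, ← Quotient.out_eq y]
      exact Quotient.sound ((hq _ _).2 ⟨i, j, h⟩)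
    subst hxy
    rcases lt_trichotomy (i : ℕ) j with h3 | h3 | h3
    · exact absurd h (aux _ _ _ h3 j.2)
    · rw [Fin.ext h3]
    · exact absurd h.symm (aux _ _ _ h3 i.2)
  rw [Fintype.card_prod, Fintype.card_fin] at h2
  exact (Nat.mul_le_mul_left k h1).trans h2

end orb

/-! ### the powers of `s t` -/

section pow

theorem st_pow {V : Type} (G : SimpleGraph V) (s t : V) (hst : s ≠ t) (hn : ¬ G.Adj s t) (j : ℕ) (hj : 1 ≤ j) :
    ((cox G).simple s * (cox G).simple t) ^ j ≠ 1 := by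
  classical
  obtain ⟨e1, he1⟩ : ∃ e : Equiv.Perm ℤ, ∀ x, e x = - x := ⟨Equiv.neg ℤ, fun x => rfl⟩
  obtain ⟨e2, he2⟩ : ∃ e : Equiv.Perm ℤ, ∀ x, e x = 1 - x := ⟨Equiv.subLeft 1, fun x => rfl⟩
  obtain ⟨f, hf⟩ : ∃ f : V → Equiv.Perm ℤ, f = fun v => if v = s then e1 else if v = t then e2 else 1 := ⟨_, rfl⟩
  have hl : (cox G).IsLiftable f := by
    refine liftable G f ?_ ?_
    · intro v
      rw [hf]
      simp only
      split_ifs
      · ext x; rw [Equiv.Perm.mul_apply, he1, he1, neg_neg]; rfl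
      · ext x; rw [Equiv.Perm.mul_apply, he2, he2]; simp
      · simp
    · intro u v huv
      rw [hf]
      simp only
      by_cases h1 : u = s
      · by_cases h2 : v = t
        · exact absurd huv (by rw [h1, h2]; exact hn)
        · rw [if_neg (fun h : v = s => huv.ne (h1.trans h.symm)), if_neg h2]; simp
      · by_cases h2 : u = t
        · by_cases h3 : v = s
          · exact absurd huv.symm (by rw [h2, h3]; exact hn)
          · rw [if_neg h3, if_neg (fun h : v = t => huv.ne (h2.trans h.symm))]; simp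
        · rw [if_neg h1, if_neg h2]; simp
  obtain ⟨Φ, hΦ⟩ : ∃ Φ : W G →* Equiv.Perm ℤ, ∀ v, Φ ((cox G).simple v) = f v :=
    ⟨(cox G).toCoxeterSystem.lift ⟨f, hl⟩, fun v => CoxeterSystem.lift_apply_simple _ _ v⟩
  intro h
  have h1 : ∀ (j : ℕ) (x : ℤ), Φ (((cox G).simple s * (cox G).simple t) ^ j) x = x - j := by
    intro j
    induction j with
    | zero => intro x; simp
    | succ j ih =>
      intro x
      rw [pow_succ, map_mul, Equiv.Perm.mul_apply, ih, map_mul, Equiv.Perm.mul_apply, hΦ, hΦ, hf]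
      simp only [if_true, if_neg (Ne.symm hst)]
      rw [he1, he2]
      push_cast
      ring
  have h2 := h1 j 0
  rw [h, map_one, Equiv.Perm.one_apply] at h2
  omega

end pow

/-! ### the theorem -/

theorem p2g : P2G := by
  classical
  intro V F _ _ _ G A hA ε h2 hε
  obtain ⟨k, hk⟩ : ∃ k : ℕ, Fintype.card V * (2 ^ Fintype.card V * 2) / ε < k := exists_nat_gt _
  have hk0 : (0 : ℝ) < k := lt_of_le_of_lt (by positivity) hk
  rw [div_lt_iff₀ hε] at hk
  obtain ⟨E, hE⟩ : ∃ E : Finset (W G), ∀ g, g ∈ E ↔ ∃ s t j, s ≠ t ∧ ¬ G.Adj s t ∧ 1 ≤ j ∧ j < k ∧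
      g = ((cox G).simple s * (cox G).simple t) ^ j := by
    refine ⟨((Finset.univ : Finset (V × V × Fin k)).filter fun x => x.1 ≠ x.2.1 ∧ ¬ G.Adj x.1 x.2.1 ∧
      1 ≤ (x.2.2 : ℕ)).image fun x => ((cox G).simple x.1 * (cox G).simple x.2.1) ^ (x.2.2 : ℕ), fun g => ?_⟩
    simp only [Finset.mem_image, Finset.mem_filter, Finset.mem_univ, true_and]
    constructor
    · rintro ⟨⟨s, t, j⟩, ⟨h1, h3, h4⟩, rfl⟩
      exact ⟨s, t, j, h1, h3, h4, j.2, rfl⟩
    · rintro ⟨s, t, j, h1, h3, h4, h5, rfl⟩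
      exact ⟨⟨s, t, j, h5⟩, ⟨h1, h3, h4⟩, rfl⟩
  refine ⟨E, ?_, ?_⟩
  · intro h
    obtain ⟨s, t, j, h1, h3, h4, -, h5⟩ := (hE 1).1 h
    exact st_pow G s t h1 h3 j h4 h5.symm
  intro Y _ P i
  obtain ⟨ρ, hρ⟩ : ∃ ρ : V → (Y → F) →ₗ[F] (Y → F), ρ = pull F P.a := ⟨_, rfl⟩
  have hρa : ∀ v f x, ρ v f x = f (P.a v x) := fun v f x => by rw [hρ]; rfl
  rw [← hρ]
  have hinv : ∀ v m, ρ v (ρ v m) = m := by
    intro v m; funext x; rw [hρa, hρa, P.inv]
  have hcomm : ∀ u v, G.Adj u v → ∀ m, ρ u (ρ v m) = ρ v (ρ u m) := by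
    intro u v huv m; funext x; rw [hρa, hρa, hρa, hρa, P.comm u v huv]
  -- the kernel of `(st - 1)^2`
  have hker : ∀ s t, s ≠ t → ¬ G.Adj s t → k * finrank F (LinearMap.ker (sq ρ s t)) ≤ 2 * Fintype.card Y := by
    intro s t hst hn
    have h3 := ker_comp_le (ρ s ∘ₗ ρ t - LinearMap.id)
    have h4 := inv_dim (F := F) (fun y => P.ev y ((cox G).simple s * (cox G).simple t)) k (by
      intro j hj1 hj2 y
      have h5 : ∀ j, (fun y => P.ev y ((cox G).simple s * (cox G).simple t))^[j] y =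
          P.ev y (((cox G).simple s * (cox G).simple t) ^ j) := by
        intro j
        induction j with
        | zero => rw [pow_zero, P.ev_one]; rfl
        | succ j ih => rw [Function.iterate_succ_apply', ih, pow_succ, P.ev_mul y _ (_ * _)]
      rw [h5]
      exact P.free _ ((hE _).2 ⟨s, t, j, hst, hn, hj1, hj2, rfl⟩) y)
      (LinearMap.ker (ρ s ∘ₗ ρ t - LinearMap.id)) (by
      intro f hf y
      have hf : ρ s (ρ t f) - f = 0 := hf
      have h5 := congrFun hf y
      rw [Pi.sub_apply, hρa, hρa, Pi.zero_apply, sub_eq_zero] at h5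
      rw [P.ev_mul, P.ev_simple, P.ev_simple]
      exact h5)
    calc k * finrank F (LinearMap.ker (sq ρ s t)) ≤ k * (2 * finrank F (LinearMap.ker (ρ s ∘ₗ ρ t - LinearMap.id))) :=
          Nat.mul_le_mul_left k h3
      _ = 2 * (k * finrank F (LinearMap.ker (ρ s ∘ₗ ρ t - LinearMap.id))) := by ring
      _ ≤ 2 * Fintype.card Y := Nat.mul_le_mul_left 2 h4
  -- one vertex
  have hone : ∀ (B : Set V) (m : V), A ⊆ B → m ∉ B → ∀ i, k * beta G ρ (B ∩ G.neighborSet m) (insert m ∅) i ≤
      2 ^ Fintype.card V * 2 * Fintype.card Y := by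
    intro B m hAB hm i
    obtain ⟨s, hs, t, ht, hst, hn, hms, hmt, hu⟩ := hA m fun h => hm (hAB h)
    have h3 := acyc G ρ (B ∩ G.neighborSet m) (insert m ∅) s t hst hn ⟨hAB hs, hms⟩ ⟨hAB ht, hmt⟩
      (fun u hu1 hu2 hu3 => hu u hu1.2 hu2 hu3) hinv hcomm (by
        intro u hu m'
        rcases hu with rfl | hu
        · exact ⟨hcomm _ _ hms m', hcomm _ _ hmt m'⟩
        · exact absurd hu (Set.notMem_empty _)) i
    calc k * beta G ρ (B ∩ G.neighborSet m) (insert m ∅) i
        ≤ k * (2 ^ Fintype.card V * finrank F (LinearMap.ker (sq ρ s t))) := Nat.mul_le_mul_left k h3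
      _ = 2 ^ Fintype.card V * (k * finrank F (LinearMap.ker (sq ρ s t))) := by ring
      _ ≤ 2 ^ Fintype.card V * (2 * Fintype.card Y) := Nat.mul_le_mul_left _ (hker s t hst hn)
      _ = _ := by ring
  -- all the vertices
  have hD : ∀ D : Finset V, (∀ m ∈ D, m ∉ A) → (k : ℝ) * |(beta G ρ (A ∪ D) ∅ i : ℝ) - beta G ρ A ∅ i| ≤
      D.card * (2 ^ Fintype.card V * 2 * Fintype.card Y) := by
    intro D
    induction D using Finset.induction_on with
    | empty => intro _; simp
    | insert m D hm ih =>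
      intro h
      have h3 := ih fun x hx => h x (Finset.mem_insert_of_mem hx)
      have hmB : m ∉ A ∪ D := by
        rintro (h4 | h4)
        · exact h m (Finset.mem_insert_self _ _) h4
        · exact hm (Finset.mem_coe.1 h4)
      have h4 : A ∪ ((insert m D : Finset V) : Set V) = insert m (A ∪ D) := by
        rw [Finset.coe_insert, Set.union_insert]
      have h5 := hone (A ∪ D) m Set.subset_union_left hmB
      have h6 : (k : ℝ) * |(beta G ρ (insert m (A ∪ D)) ∅ i : ℝ) - beta G ρ (A ∪ D) ∅ i| ≤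
          2 ^ Fintype.card V * 2 * Fintype.card Y := by
        have h7 := vert2 G ρ (A ∪ D) ∅ m hmB i
        have h8 : ∃ j, beta G ρ (insert m (A ∪ D)) ∅ i ≤ beta G ρ (A ∪ D) ∅ i +
            beta G ρ ((A ∪ D) ∩ G.neighborSet m) (insert m ∅) j := by
          cases i with
          | zero => exact ⟨0, ((Pool.Agent.W347.SGV.vert Pool.Agent.W721.SG.MID.mid V F (Y → F) G ρ (A ∪ D) ∅ m
              hmB (Set.notMem_empty _)).1).trans (Nat.le_add_right _ _)⟩
          | succ i => exact ⟨i, (Pool.Agent.W347.SGV.vert Pool.Agent.W721.SG.MID.mid V F (Y → F) G ρ (A ∪ D) ∅ m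
              hmB (Set.notMem_empty _)).2 i⟩
        obtain ⟨j, h8⟩ := h8
        have h9 := h5 i
        have h10 := h5 j
        have h7' : (beta G ρ (A ∪ D) ∅ i : ℝ) ≤ beta G ρ (insert m (A ∪ D)) ∅ i +
          beta G ρ ((A ∪ D) ∩ G.neighborSet m) (insert m ∅) i := by exact_mod_cast h7
        have h8' : (beta G ρ (insert m (A ∪ D)) ∅ i : ℝ) ≤ beta G ρ (A ∪ D) ∅ i +
            beta G ρ ((A ∪ D) ∩ G.neighborSet m) (insert m ∅) j := by exact_mod_cast h8
        have h9' : (k : ℝ) * beta G ρ ((A ∪ D) ∩ G.neighborSet m) (insert m ∅) i ≤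
          2 ^ Fintype.card V * 2 * Fintype.card Y := by exact_mod_cast h9
        have h10' : (k : ℝ) * beta G ρ ((A ∪ D) ∩ G.neighborSet m) (insert m ∅) j ≤
          2 ^ Fintype.card V * 2 * Fintype.card Y := by exact_mod_cast h10
        rcases abs_cases ((beta G ρ (insert m (A ∪ D)) ∅ i : ℝ) - beta G ρ (A ∪ D) ∅ i) with ⟨h11, -⟩ | ⟨h11, -⟩
        · rw [h11]
          refine le_trans (mul_le_mul_of_nonneg_left ?_ hk0.le) h10'
          linarith
        · rw [h11]
          refine le_trans (mul_le_mul_of_nonneg_left ?_ hk0.le) h9'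
          linarith
      rw [h4, Finset.card_insert_of_notMem hm]
      have h7 := abs_sub_le (beta G ρ (insert m (A ∪ D)) ∅ i : ℝ) (beta G ρ (A ∪ D) ∅ i) (beta G ρ A ∅ i)
      push_cast
      nlinarith
  have h3 := hD (Finset.univ.filter fun m => m ∉ A) (by simp)
  have h4 : A ∪ ((Finset.univ.filter fun m => m ∉ A : Finset V) : Set V) = Set.univ := by
    ext x; simp [em]
  rw [h4] at h3
  have h5 : ((Finset.univ.filter fun m => m ∉ A).card : ℝ) ≤ Fintype.card V := by
    exact_mod_cast Finset.card_le_univ _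
  have h6 : (0 : ℝ) ≤ 2 ^ Fintype.card V * 2 * Fintype.card Y := by positivity
  have h7 : (k : ℝ) * |(beta G ρ Set.univ ∅ i : ℝ) - beta G ρ A ∅ i| ≤ k * (ε * Fintype.card Y) := by
    refine h3.trans ((mul_le_mul_of_nonneg_right h5 h6).trans ?_)
    have h8 : (0 : ℝ) ≤ Fintype.card Y := by positivity
    nlinarith
  exact le_of_mul_le_mul_left h7 hk0

end Pool.Agent.U729.LT
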