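import Pool.Agent.U729.LT.Stel

/-!
# Combinatorial (piecewise linear) spheres

The simplicial complexes obtained from the boundary of a `k`-simplex by stellar subdivisions and inverses of stellar
subdivisions; these are the simplicial complexes that are PL homeomorphic to the boundary of the `k`-simplex.
-/

set_option autoImplicit false

namespace Pool.Agent.U729.LT

/-- the stellar subdivision of the simplicial complex `K` at the simplex `τ`, with the new vertex `a` -/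
def stellar (K : Set (Finset ℕ)) (τ : Finset ℕ) (a : ℕ) : Set (Finset ℕ) :=
  {T | ¬ τ ⊆ T ∧ ((a ∉ T ∧ T ∈ K) ∨ (a ∈ T ∧ T.erase a ∪ τ ∈ K))}

/-- combinatorial spheres of dimension `k - 1` (the empty simplex is a simplex) -/
inductive PLS (k : ℕ) : Set (Finset ℕ) → Prop
  | simplex (S : Finset ℕ) (h : S.card = k + 1) : PLS k {T | T ⊂ S}
  | sub (K : Set (Finset ℕ)) (τ : Finset ℕ) (a : ℕ) (h : PLS k K) (hτ : τ ∈ K) (h0 : τ.Nonempty)
      (ha : ∀ T ∈ K, a ∉ T) : PLS k (stellar K τ a)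
  | inv (K : Set (Finset ℕ)) (τ : Finset ℕ) (a : ℕ) (hK : ∀ S T : Finset ℕ, S ∈ K → T ⊆ S → T ∈ K) (hτ : τ ∈ K)
      (h0 : τ.Nonempty) (ha : ∀ T ∈ K, a ∉ T) (h : PLS k (stellar K τ a)) : PLS k K

variable {V : Type} [LinearOrder V]

/-- the image of a complex -/
def img (φ : V ↪ ℕ) (K : Set (Finset V)) : Set (Finset ℕ) := {T | ∃ S ∈ K, S.map φ = T}

omit [LinearOrder V] in
theorem mem_img {φ : V ↪ ℕ} {K : Set (Finset V)} {S : Finset V} : S.map φ ∈ img φ K ↔ S ∈ K := by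
  constructor
  · rintro ⟨S', h1, h2⟩
    rwa [← Finset.map_injective φ h2]
  · intro h
    exact ⟨S, h, rfl⟩

theorem img_st (φ : V ↪ ℕ) (K : Set (Finset V)) (A : Finset V) (m : V) :
    img φ (st K A m) = stellar (img φ K) (A.map φ) (φ m) := by
  ext T
  constructor
  · rintro ⟨S, ⟨h1, h2⟩, rfl⟩
    refine ⟨fun h3 => h1 (Finset.map_subset_map.1 h3), ?_⟩
    rcases h2 with ⟨h2, h3⟩ | ⟨h2, h3⟩
    · exact Or.inl ⟨fun h4 => h2 ((Finset.mem_map' φ).1 h4), S, h3, rfl⟩
    · refine Or.inr ⟨(Finset.mem_map' φ).2 h2, _, h3, ?_⟩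
      ext x
      simp only [Finset.mem_map, Finset.mem_union, Finset.mem_erase]
      constructor
      · rintro ⟨y, ⟨h4, h5⟩ | h4, rfl⟩
        · exact Or.inl ⟨fun h6 => h4 (φ.injective h6), y, h5, rfl⟩
        · exact Or.inr ⟨y, h4, rfl⟩
      · rintro (⟨h4, y, h5, rfl⟩ | ⟨y, h4, rfl⟩)
        · exact ⟨y, Or.inl ⟨fun h6 => h4 (by rw [h6]), h5⟩, rfl⟩
        · exact ⟨y, Or.inr h4, rfl⟩
  · rintro ⟨h1, ⟨h2, S, h3, rfl⟩ | ⟨h2, S, h3, h4⟩⟩
    · refine ⟨S, ⟨fun h4 => h1 (Finset.map_subset_map.2 h4), Or.inl ⟨fun h4 => h2 ((Finset.mem_map' φ).2 h4), h3⟩⟩, rfl⟩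
    · have h5 : T ⊆ (insert m S).map φ := by
        intro x hx
        by_cases hxm : x = φ m
        · rw [hxm]
          exact (Finset.mem_map' φ).2 (Finset.mem_insert_self _ _)
        · have h6 : x ∈ S.map φ := by
            rw [h4]
            exact Finset.mem_union_left _ (Finset.mem_erase.2 ⟨hxm, hx⟩)
          exact Finset.map_subset_map.2 (Finset.subset_insert _ _) h6
      obtain ⟨R, -, rfl⟩ := Finset.subset_map_iff.1 h5
      have h6 : S = R.erase m ∪ A := by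
        apply Finset.map_injective φ
        rw [h4]
        ext x
        simp only [Finset.mem_map, Finset.mem_union, Finset.mem_erase]
        constructor
        · rintro (⟨h4, y, h5, rfl⟩ | ⟨y, h4, rfl⟩)
          · exact ⟨y, Or.inl ⟨fun h6 => h4 (by rw [h6]), h5⟩, rfl⟩
          · exact ⟨y, Or.inr h4, rfl⟩
        · rintro ⟨y, ⟨h4, h5⟩ | h4, rfl⟩
          · exact Or.inl ⟨fun h6 => h4 (φ.injective h6), y, h5, rfl⟩
          · exact Or.inr ⟨y, h4, rfl⟩
      refine ⟨R, ⟨fun h7 => h1 (Finset.map_subset_map.2 h7), Or.inr ⟨(Finset.mem_map' φ).1 h2, ?_⟩⟩, rfl⟩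
      rwa [← h6]

/-- all the copies of `K` with natural numbers as vertices are combinatorial spheres -/
def PX (k : ℕ) (K : Set (Finset V)) : Prop := ∀ φ : V ↪ ℕ, PLS k (img φ K)

omit [LinearOrder V] in
theorem px_simplex {A : Finset V} {k : ℕ} (hk : A.card = k + 1) : PX k {T : Finset V | T ⊆ A ∧ T ≠ A} := by
  intro φ
  have e : img φ {T : Finset V | T ⊆ A ∧ T ≠ A} = {T | T ⊂ A.map φ} := by
    ext T
    constructor
    · rintro ⟨S, ⟨h1, h2⟩, rfl⟩
      refine ⟨Finset.map_subset_map.2 h1, fun h3 => h2 (Finset.Subset.antisymm h1 (Finset.map_subset_map.1 h3))⟩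
    · rintro ⟨h1, h2⟩
      obtain ⟨S, h3, rfl⟩ := Finset.subset_map_iff.1 h1
      exact ⟨S, ⟨h3, fun h4 => h2 (by rw [h4])⟩, rfl⟩
  rw [e]
  exact PLS.simplex _ (by rw [Finset.card_map, hk])

theorem PX.stel {K : Set (Finset V)} {A : Finset V} {m : V} {k : ℕ} (h : PX k K) (hm : ∀ T ∈ K, m ∉ T) (hA : A ∈ K)
    (hA0 : A.Nonempty) : PX k (st K A m) := by
  intro φ
  rw [img_st]
  refine PLS.sub _ _ _ (h φ) (mem_img.2 hA) (hA0.map) ?_
  rintro T ⟨S, h1, rfl⟩ h2
  exact hm S h1 ((Finset.mem_map' φ).1 h2)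

theorem PX.of_stel {K : Set (Finset V)} {A : Finset V} {m : V} {k : ℕ} (h : PX k (st K A m)) (hK : Dn K)
    (hm : ∀ T ∈ K, m ∉ T) (hA : A ∈ K) (hA0 : A.Nonempty) : PX k K := by
  intro φ
  refine PLS.inv _ (A.map φ) (φ m) ?_ (mem_img.2 hA) (hA0.map) ?_ ?_
  · rintro _ T ⟨S, h1, rfl⟩ h2
    obtain ⟨R, h3, rfl⟩ := Finset.subset_map_iff.1 h2
    exact ⟨R, hK _ _ h1 h3, rfl⟩
  · rintro T ⟨S, h1, rfl⟩ h2
    exact hm S h1 ((Finset.mem_map' φ).1 h2)
  · rw [← img_st]
    exact h φ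

theorem px_map {U : Type} [LinearOrder U] [Finite V] {φ : U ↪o V} {X : Set (Finset U)} {k : ℕ}
    (h : PX k ((fun T : Finset U => T.map φ.toEmbedding) '' X)) : PX k X := by
  classical
  intro ψ
  -- an extension of `ψ`
  obtain ⟨χ, hχ⟩ : ∃ χ : V ↪ ℕ, ∀ u, χ (φ u) = ψ u := by
    have : Finite U := Finite.of_injective φ φ.injective
    obtain ⟨B, hB⟩ : ∃ B : ℕ, ∀ u, ψ u < B := by
      obtain ⟨B, hB⟩ := (Set.finite_range ψ).bddAbove
      exact ⟨B + 1, fun u => Nat.lt_succ_of_le (hB ⟨u, rfl⟩)⟩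
    obtain ⟨n, ⟨e⟩⟩ := Finite.exists_equiv_fin V
    refine ⟨⟨fun v => if hv : v ∈ Set.range φ then ψ hv.choose else B + (e v).1, ?_⟩, fun u => ?_⟩
    · intro v w hvw
      by_cases hv : v ∈ Set.range φ <;> by_cases hw : w ∈ Set.range φ
      · simp only [dif_pos hv, dif_pos hw] at hvw
        have h1 := ψ.injective hvw
        rw [← hv.choose_spec, ← hw.choose_spec, h1]
      · simp only [dif_pos hv, dif_neg hw] at hvw
        have := hB hv.choose
        omega
      · simp only [dif_neg hv, dif_pos hw] at hvw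
        have := hB hw.choose
        omega
      · simp only [dif_neg hv, dif_neg hw] at hvw
        apply e.injective
        apply Fin.ext
        omega
    · have hu : φ u ∈ Set.range φ := ⟨u, rfl⟩
      show (if hv : φ u ∈ Set.range φ then ψ hv.choose else B + (e (φ u)).1) = ψ u
      rw [dif_pos hu]
      congr 1
      exact φ.injective hu.choose_spec
  have e : img χ ((fun T : Finset U => T.map φ.toEmbedding) '' X) = img ψ X := by
    have e1 : ∀ S : Finset U, (S.map φ.toEmbedding).map χ = S.map ψ := by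
      intro S
      rw [Finset.map_map]
      congr 1
      ext u
      exact hχ u
    ext T
    constructor
    · rintro ⟨_, ⟨S, h1, rfl⟩, rfl⟩
      exact ⟨S, h1, (e1 S).symm⟩
    · rintro ⟨S, h1, rfl⟩
      exact ⟨_, ⟨S, h1, rfl⟩, e1 S⟩
  rw [← e]
  exact h χ

end Pool.Agent.U729.LT
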