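import Pool.Agent.U729.LT.Em

/-!
# Relative barycentric subdivision
-/

set_option autoImplicit false

noncomputable section

namespace Pool.Agent.U729.LT

open Module Pool.Agent.W907.SG

variable {V : Type} [Fintype V] [LinearOrder V]

/-- The simplices in `D` (an upper set in `K`) have been subdivided; `code τ` is the barycenter of `τ`. -/
def KD (K : Set (Finset V)) (code : Finset V → V) (D : Set (Finset V)) : Set (Finset V) :=
  {T | ∃ (σ : Finset V) (c : Finset (Finset V)), σ ∈ K ∧ σ ∉ D ∧ (∀ τ ∈ c, τ ∈ D ∧ σ ⊆ τ) ∧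
    (∀ τ ∈ c, ∀ τ' ∈ c, τ ⊆ τ' ∨ τ' ⊆ τ) ∧ T = σ ∪ c.image code}

/-- the vertices `code τ`, for `τ` in `K` but not in `Q`, are new and different -/
structure Fresh (K Q : Set (Finset V)) (code : Finset V → V) : Prop where
  new : ∀ τ ∈ K, τ ∉ Q → ∀ T ∈ K, code τ ∉ T
  inj : ∀ τ ∈ K, τ ∉ Q → ∀ τ' ∈ K, τ' ∉ Q → code τ = code τ' → τ = τ'

section step

variable {K Q : Set (Finset V)} {code : Finset V → V}

omit [Fintype V] in
/-- the old vertices -/
theorem mem_old {D : Set (Finset V)} (hF : Fresh K Q code) (hD : D ⊆ K \ Q) {σ : Finset V} {c : Finset (Finset V)}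
    (hc : ∀ τ ∈ c, τ ∈ D ∧ σ ⊆ τ) {ρ : Finset V} (hρ : ρ ∈ K) {v : V} (hv : v ∈ ρ)
    (h : v ∈ σ ∪ c.image code) : v ∈ σ := by
  rcases Finset.mem_union.1 h with h | h
  · exact h
  · obtain ⟨τ, hτ, rfl⟩ := Finset.mem_image.1 h
    have := hD (hc τ hτ).1
    exact absurd hv (hF.new τ this.1 this.2 ρ hρ)

omit [Fintype V] in
/-- the new vertices -/
theorem mem_new {D : Set (Finset V)} (hF : Fresh K Q code) (hD : D ⊆ K \ Q) {σ : Finset V} {c : Finset (Finset V)}
    (hσ : σ ∈ K) (hc : ∀ τ ∈ c, τ ∈ D ∧ σ ⊆ τ) {ρ : Finset V} (hρ : ρ ∈ K) (hρQ : ρ ∉ Q)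
    (h : code ρ ∈ σ ∪ c.image code) : ρ ∈ c := by
  rcases Finset.mem_union.1 h with h | h
  · exact absurd h (hF.new ρ hρ hρQ σ hσ)
  · obtain ⟨τ, hτ, h1⟩ := Finset.mem_image.1 h
    have := hD (hc τ hτ).1
    rwa [← hF.inj τ this.1 this.2 ρ hρ hρQ h1]

omit [Fintype V] in
theorem KD_step (hK : Dn K) (hQ : Dn Q) (hF : Fresh K Q code) {D : Set (Finset V)} (hD : D ⊆ K \ Q)
    (hup : ∀ τ ∈ D, ∀ ρ ∈ K, τ ⊆ ρ → ρ ∈ D) {τ₀ : Finset V} (h0 : τ₀ ∈ K) (h0Q : τ₀ ∉ Q) (h0D : τ₀ ∉ D)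
    (hmax : ∀ ρ ∈ K, τ₀ ⊆ ρ → ρ ≠ τ₀ → ρ ∈ D) :
    KD K code (insert τ₀ D) = st (KD K code D) τ₀ (code τ₀) := by
  have hD' : insert τ₀ D ⊆ K \ Q := Set.insert_subset ⟨h0, h0Q⟩ hD
  ext T
  constructor
  · rintro ⟨σ, c, h1, h2, h3, h4, rfl⟩
    rw [Set.mem_insert_iff, not_or] at h2
    have h5 : ¬ τ₀ ⊆ σ ∪ c.image code := by
      intro h6
      have h7 : τ₀ ⊆ σ := fun v hv => mem_old hF hD' h3 h0 hv (h6 hv)
      exact h2.2 (hmax σ h1 h7 h2.1)
    refine ⟨h5, ?_⟩
    by_cases h6 : τ₀ ∈ c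
    · right
      refine ⟨Finset.mem_union_right _ (Finset.mem_image_of_mem _ h6), τ₀, c.erase τ₀, h0, h0D, ?_, ?_, ?_⟩
      · intro τ hτ
        rw [Finset.mem_erase] at hτ
        have h7 := (h3 τ hτ.2).1
        rw [Set.mem_insert_iff] at h7
        have h8 : τ ∈ D := h7.resolve_left hτ.1
        refine ⟨h8, ?_⟩
        rcases h4 τ hτ.2 τ₀ h6 with h9 | h9
        · exact absurd (hup τ h8 τ₀ h0 h9) h0D
        · exact h9
      · intro τ hτ τ' hτ'
        exact h4 τ (Finset.mem_of_mem_erase hτ) τ' (Finset.mem_of_mem_erase hτ')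
      · have hs := (h3 τ₀ h6).2
        ext v
        simp only [Finset.mem_union, Finset.mem_erase, Finset.mem_image]
        constructor
        · rintro (⟨h7, h8 | ⟨τ, h8, rfl⟩⟩ | h7)
          · exact Or.inl (hs h8)
          · exact Or.inr ⟨τ, ⟨fun h => h7 (by rw [h]), h8⟩, rfl⟩
          · exact Or.inl h7
        · rintro (h7 | ⟨τ, ⟨h7, h8⟩, rfl⟩)
          · exact Or.inr h7
          · refine Or.inl ⟨fun h => h7 ?_, Or.inr ⟨τ, h8, rfl⟩⟩
            have := hD' (h3 τ h8).1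
            exact hF.inj τ this.1 this.2 τ₀ h0 h0Q h
    · left
      refine ⟨fun h7 => h6 (mem_new hF hD' h1 h3 h0 h0Q h7), σ, c, h1, h2.2, ?_, h4, rfl⟩
      intro τ hτ
      refine ⟨?_, (h3 τ hτ).2⟩
      have h7 := (h3 τ hτ).1
      rw [Set.mem_insert_iff] at h7
      exact h7.resolve_left fun h => h6 (h ▸ hτ)
  · rintro ⟨h1, ⟨h2, σ, c, h3, h4, h5, h6, rfl⟩ | ⟨h2, σ', c, h3, h4, h5, h6, h7⟩⟩
    · refine ⟨σ, c, h3, ?_, fun τ hτ => ⟨Set.mem_insert_of_mem _ (h5 τ hτ).1, (h5 τ hτ).2⟩, h6, rfl⟩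
      rw [Set.mem_insert_iff, not_or]
      refine ⟨?_, h4⟩
      rintro rfl
      exact h1 Finset.subset_union_left
    · have h8 : τ₀ ⊆ σ' := by
        intro v hv
        refine mem_old hF hD h5 h0 hv ?_
        rw [← h7]
        exact Finset.mem_union_right _ hv
      have h9 : σ' = τ₀ := by
        by_contra h
        exact h4 (hmax σ' h3 h8 h)
      subst h9
      obtain ⟨σ, hσ⟩ : ∃ σ, σ = T ∩ σ' := ⟨_, rfl⟩
      have hσs : σ ⊆ σ' := by rw [hσ]; exact Finset.inter_subset_right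
      have hcode : code σ' ∉ σ' := hF.new σ' h0 h0Q σ' h0
      refine ⟨σ, insert σ' c, hK _ _ h0 hσs, ?_, ?_, ?_, ?_⟩
      · rw [Set.mem_insert_iff, not_or]
        constructor
        · intro h9
          apply h1
          rw [← h9, hσ]
          exact Finset.inter_subset_left
        · intro h9
          exact h0D (hup σ h9 σ' h0 hσs)
      · intro τ hτ
        rcases Finset.mem_insert.1 hτ with rfl | hτ
        · exact ⟨Set.mem_insert _ _, hσs⟩
        · exact ⟨Set.mem_insert_of_mem _ (h5 τ hτ).1, hσs.trans (h5 τ hτ).2⟩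
      · intro τ hτ τ' hτ'
        rcases Finset.mem_insert.1 hτ with h20 | h20
        · rcases Finset.mem_insert.1 hτ' with h21 | h21
          · exact Or.inl (by rw [h20, h21])
          · exact Or.inl (by rw [h20]; exact (h5 τ' h21).2)
        · rcases Finset.mem_insert.1 hτ' with h21 | h21
          · exact Or.inr (by rw [h21]; exact (h5 τ h20).2)
          · exact h6 τ h20 τ' h21
      · ext v
        have h10 := Finset.ext_iff.1 h7 v
        simp only [Finset.mem_union, Finset.mem_erase, Finset.mem_image, Finset.mem_insert] at h10 ⊢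
        rw [hσ, Finset.mem_inter]
        constructor
        · intro h11
          by_cases h12 : v = code σ'
          · exact Or.inr ⟨σ', Or.inl rfl, h12.symm⟩
          · rcases h10.1 (Or.inl ⟨h12, h11⟩) with h13 | ⟨τ, h13, h14⟩
            · exact Or.inl ⟨h11, h13⟩
            · exact Or.inr ⟨τ, Or.inr h13, h14⟩
        · rintro (h11 | ⟨τ, rfl | h11, h12⟩)
          · exact h11.1
          · rw [← h12]; exact h2
          · rcases h10.2 (Or.inr ⟨τ, h11, h12⟩) with h13 | h13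
            · exact h13.2
            · exfalso
              have := hD (h5 τ h11).1
              exact hF.new τ this.1 this.2 σ' h0 (h12 ▸ h13)

omit [Fintype V] in
theorem KD_fresh (hF : Fresh K Q code) {D : Set (Finset V)} (hD : D ⊆ K \ Q) {τ₀ : Finset V} (h0 : τ₀ ∈ K)
    (h0Q : τ₀ ∉ Q) (h0D : τ₀ ∉ D) : ∀ T ∈ KD K code D, code τ₀ ∉ T := by
  rintro _ ⟨σ, c, h1, h2, h3, h4, rfl⟩ h5
  exact h0D (h3 τ₀ (mem_new hF hD h1 h3 h0 h0Q h5)).1

omit [Fintype V] in
theorem KD_empty : KD K code ∅ = K := by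
  ext T
  constructor
  · rintro ⟨σ, c, h1, h2, h3, h4, rfl⟩
    have : c = ∅ := by
      rw [Finset.eq_empty_iff_forall_notMem]
      intro τ hτ
      exact (h3 τ hτ).1
    rw [this]
    simpa using h1
  · intro h
    exact ⟨T, ∅, h, Set.notMem_empty _, by simp, by simp, by simp⟩

theorem sp_KD {k : ℕ} (hS : Sp k K) (hQ : Dn Q) (hQ0 : ∅ ∈ Q) (hF : Fresh K Q code) :
    Sp k (KD K code (K \ Q)) := by
  classical
  have hK := hS.1.2.1
  have key : ∀ n : ℕ, ∀ D : Set (Finset V), D ⊆ K \ Q → (∀ τ ∈ D, ∀ ρ ∈ K, τ ⊆ ρ → ρ ∈ D) →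
      (Finset.univ.filter fun T => T ∈ (K \ Q) \ D).card ≤ n → Sp k (KD K code D) →
      Sp k (KD K code (K \ Q)) := by
    intro n
    induction n with
    | zero =>
      intro D h1 _ h3 h4
      have h5 : D = K \ Q := by
        apply Set.Subset.antisymm h1
        intro T hT
        by_contra h6
        have : T ∈ (Finset.univ.filter fun T => T ∈ (K \ Q) \ D) := by
          rw [Finset.mem_filter]
          exact ⟨Finset.mem_univ _, hT, h6⟩
        rw [Nat.le_zero, Finset.card_eq_zero] at h3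
        rw [h3] at this
        exact Finset.notMem_empty _ this
      rwa [h5] at h4
    | succ n ih =>
      intro D h1 h2 h3 h4
      by_cases h5 : (Finset.univ.filter fun T => T ∈ (K \ Q) \ D).Nonempty
      · obtain ⟨τ₀, h6, h7⟩ := Finset.exists_max_image _ Finset.card h5
        rw [Finset.mem_filter] at h6
        obtain ⟨-, ⟨h8, h9⟩, h10⟩ := h6
        have hmax : ∀ ρ ∈ K, τ₀ ⊆ ρ → ρ ≠ τ₀ → ρ ∈ D := by
          intro ρ hρ h11 h12
          by_contra h13
          have h14 := h7 ρ (by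
            rw [Finset.mem_filter]
            exact ⟨Finset.mem_univ _, ⟨hρ, fun h => h9 (hQ _ _ h h11)⟩, h13⟩)
          exact h12 (Finset.eq_of_subset_of_card_le h11 h14).symm
        refine ih (insert τ₀ D) (Set.insert_subset ⟨h8, h9⟩ h1) ?_ ?_ ?_
        · rintro τ (rfl | hτ) ρ hρ h11
          · by_cases h12 : ρ = τ
            · rw [h12]; exact Set.mem_insert _ _
            · exact Set.mem_insert_of_mem _ (hmax ρ hρ h11 h12)
          · exact Set.mem_insert_of_mem _ (h2 τ hτ ρ hρ h11)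
        · have h11 : (Finset.univ.filter fun T => T ∈ (K \ Q) \ insert τ₀ D) ⊂
              (Finset.univ.filter fun T => T ∈ (K \ Q) \ D) := by
            rw [Finset.ssubset_iff_of_subset]
            · refine ⟨τ₀, ?_, ?_⟩
              · rw [Finset.mem_filter]
                exact ⟨Finset.mem_univ _, ⟨h8, h9⟩, h10⟩
              · rw [Finset.mem_filter]
                rintro ⟨-, -, h12⟩
                exact h12 (Set.mem_insert _ _)
            · intro T hT
              rw [Finset.mem_filter] at hT ⊢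
              exact ⟨hT.1, hT.2.1, fun h => hT.2.2 (Set.mem_insert_of_mem _ h)⟩
          have h12 := Finset.card_lt_card h11
          have h13 := lt_of_lt_of_le h12 h3
          refine Nat.le_of_lt_succ ?_
          convert h13
          rfl
        · rw [KD_step hK hQ hF h1 h2 h8 h9 h10 hmax]
          refine h4.stel (KD_fresh hF h1 h8 h9 h10) ⟨τ₀, ∅, h8, h10, by simp, by simp, by simp⟩ ?_
          rw [Finset.nonempty_iff_ne_empty]
          rintro rfl
          exact h9 hQ0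
      · refine ih D h1 h2 ?_ h4
        rw [Finset.not_nonempty_iff_eq_empty] at h5
        rw [h5]
        simp
  refine key _ ∅ (Set.empty_subset _) (by simp) le_rfl ?_
  rw [KD_empty]
  exact hS

/-- the final complex is a flag complex -/
theorem KD_flag (hQK : Q ⊆ K) (hQ : Dn Q) (hF : Fresh K Q code)
    (hQf : ∀ σ : Finset V, (∀ v ∈ σ, ({v} : Finset V) ∈ Q) → (∀ v ∈ σ, ∀ w ∈ σ, v ≠ w → ({v, w} : Finset V) ∈ Q) → σ ∈ Q)
    (T : Finset V) (h1 : ∀ v ∈ T, ({v} : Finset V) ∈ KD K code (K \ Q))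
    (h2 : ∀ v ∈ T, ∀ w ∈ T, v ≠ w → ({v, w} : Finset V) ∈ KD K code (K \ Q)) : T ∈ KD K code (K \ Q) := by
  classical
  -- the kinds of vertices
  have hkind : ∀ v ∈ T, ({v} : Finset V) ∈ Q ∨ ∃ τ ∈ K \ Q, v = code τ := by
    intro v hv
    obtain ⟨σ, c, h3, h4, h5, h6, h7⟩ := h1 v hv
    have h8 : v ∈ σ ∪ c.image code := by rw [← h7]; simp
    rcases Finset.mem_union.1 h8 with h9 | h9
    · left
      have : σ ∈ Q := by
        by_contra h10
        exact h4 ⟨h3, h10⟩
      exact hQ _ _ this (Finset.singleton_subset_iff.2 h9)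
    · obtain ⟨τ, hτ, h10⟩ := Finset.mem_image.1 h9
      exact Or.inr ⟨τ, (h5 τ hτ).1, h10.symm⟩
  obtain ⟨σ, hσ⟩ : ∃ σ, σ = T.filter fun v => ({v} : Finset V) ∈ Q := ⟨_, rfl⟩
  obtain ⟨c, hc⟩ : ∃ c : Finset (Finset V), c = Finset.univ.filter fun τ => τ ∈ K \ Q ∧ code τ ∈ T := ⟨_, rfl⟩
  have hnotQ : ∀ τ ∈ K \ Q, ({code τ} : Finset V) ∉ K := fun τ hτ h => hF.new τ hτ.1 hτ.2 _ h (by simp)
  -- pairs
  have hp1 : ∀ v ∈ σ, ∀ w ∈ σ, v ≠ w → ({v, w} : Finset V) ∈ Q := by
    intro v hv w hw hvw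
    rw [hσ, Finset.mem_filter] at hv hw
    obtain ⟨σ', c', h3, h4, h5, h6, h7⟩ := h2 v hv.1 w hw.1 hvw
    have hσ'Q : σ' ∈ Q := by
      by_contra h10
      exact h4 ⟨h3, h10⟩
    refine hQ _ _ hσ'Q ?_
    intro x hx
    have h8 : x ∈ σ' ∪ c'.image code := by rw [← h7]; exact hx
    rcases Finset.mem_insert.1 hx with rfl | h9
    · exact mem_old hF (fun _ h => h) h5 (hQK hv.2) (Finset.mem_singleton_self _) h8
    · rw [Finset.mem_singleton] at h9
      subst h9
      exact mem_old hF (fun _ h => h) h5 (hQK hw.2) (Finset.mem_singleton_self _) h8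
  have hσQ : σ ∈ Q := hQf σ (fun v hv => by rw [hσ, Finset.mem_filter] at hv; exact hv.2) hp1
  refine ⟨σ, c, hQK hσQ, fun h => h.2 hσQ, ?_, ?_, ?_⟩
  · intro τ hτ
    rw [hc, Finset.mem_filter] at hτ
    refine ⟨hτ.2.1, fun v hv => ?_⟩
    have hv' := hv
    rw [hσ, Finset.mem_filter] at hv'
    have hne : v ≠ code τ := by
      rintro rfl
      exact hnotQ τ hτ.2.1 (hQK hv'.2)
    obtain ⟨σ', c', h3, h4, h5, h6, h7⟩ := h2 v hv'.1 (code τ) hτ.2.2 hne
    have h8 : v ∈ σ' := by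
      refine mem_old hF (fun _ h => h) h5 (hQK hv'.2) (Finset.mem_singleton_self _) ?_
      rw [← h7]; simp
    have h9 : τ ∈ c' := by
      refine mem_new hF (fun _ h => h) h3 h5 hτ.2.1.1 hτ.2.1.2 ?_
      rw [← h7]; simp
    exact (h5 τ h9).2 h8
  · intro τ hτ τ' hτ'
    rw [hc, Finset.mem_filter] at hτ hτ'
    by_cases h3 : τ = τ'
    · exact Or.inl (h3 ▸ le_rfl)
    have hne : code τ ≠ code τ' := fun h =>
      h3 (hF.inj τ hτ.2.1.1 hτ.2.1.2 τ' hτ'.2.1.1 hτ'.2.1.2 h)
    obtain ⟨σ', c', h3, h4, h5, h6, h7⟩ := h2 _ hτ.2.2 _ hτ'.2.2 hne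
    have h8 : τ ∈ c' := by
      refine mem_new hF (fun _ h => h) h3 h5 hτ.2.1.1 hτ.2.1.2 ?_
      rw [← h7]; simp
    have h9 : τ' ∈ c' := by
      refine mem_new hF (fun _ h => h) h3 h5 hτ'.2.1.1 hτ'.2.1.2 ?_
      rw [← h7]; simp
    exact h6 τ h8 τ' h9
  · ext v
    rw [Finset.mem_union, Finset.mem_image, hσ, Finset.mem_filter]
    constructor
    · intro hv
      rcases hkind v hv with h3 | ⟨τ, h3, h4⟩
      · exact Or.inl ⟨hv, h3⟩
      · refine Or.inr ⟨τ, ?_, h4.symm⟩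
        rw [hc, Finset.mem_filter]
        exact ⟨Finset.mem_univ _, h3, h4 ▸ hv⟩
    · rintro (h3 | ⟨τ, h3, rfl⟩)
      · exact h3.1
      · rw [hc, Finset.mem_filter] at h3
        exact h3.2.2

end step

/-! ### transport along a monotone injection -/

section map

variable {U : Type} [Fintype U] [LinearOrder U]

omit [Fintype V] [Fintype U] in
theorem sg_map {φ : U ↪o V} (u : U) (T : Finset U) : sg (φ u) (T.map φ.toEmbedding) = sg u T := by
  unfold sg
  congr 1
  rw [Finset.filter_map, Finset.card_map]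
  congr 1
  ext x
  simp

theorem bX_map (φ : U ↪o V) (X : Set (Finset U)) (i : ℕ) :
    bX ((fun T : Finset U => T.map φ.toEmbedding) '' X) i = bX X i := by
  classical
  obtain ⟨Y, hY⟩ : ∃ Y : Set (Finset V), Y = (fun T : Finset U => T.map φ.toEmbedding) '' X := ⟨_, rfl⟩
  rw [← hY]
  have hmemY : ∀ T : Finset U, T.map φ.toEmbedding ∈ Y ↔ T ∈ X := by
    intro T
    rw [hY]
    constructor
    · rintro ⟨S, hS, h⟩
      have : S = T := Finset.map_injective _ h
      rwa [← this]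
    · intro h
      exact ⟨T, h, rfl⟩
  obtain ⟨P, hP⟩ : ∃ P : (Finset V → ℝ) →ₗ[ℝ] (Finset U → ℝ), ∀ c T, P c T = c (T.map φ.toEmbedding) :=
    ⟨LinearMap.funLeft ℝ ℝ (fun T : Finset U => T.map φ.toEmbedding), fun _ _ => rfl⟩
  -- the inverse
  obtain ⟨R, hR⟩ : ∃ R : (Finset U → ℝ) → (Finset V → ℝ), ∀ c,
      (∀ T ∈ X, R c (T.map φ.toEmbedding) = c T) ∧ ∀ S, S ∉ Y → R c S = 0 := by
    refine ⟨fun c S => if h : ∃ T ∈ X, T.map φ.toEmbedding = S then c h.choose else 0, fun c => ⟨fun T hT => ?_, ?_⟩⟩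
    · have h : ∃ T' ∈ X, T'.map φ.toEmbedding = T.map φ.toEmbedding := ⟨T, hT, rfl⟩
      simp only [dif_pos h]
      congr 1
      exact Finset.map_injective _ h.choose_spec.2
    · intro S hS
      simp only
      rw [dif_neg]
      rintro ⟨T, hT, rfl⟩
      exact hS ((hmemY T).2 hT)
  have hRC : ∀ i, ∀ c ∈ CX X i, R c ∈ CX Y i ∧ P (R c) = c := by
    intro i c hc
    constructor
    · intro S hS
      by_cases h1 : S ∈ Y
      · rw [hY] at h1
        obtain ⟨T, hT, rfl⟩ := h1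
        rw [(hR c).1 T hT]
        apply hc
        rintro ⟨h2, h3⟩
        exact hS ⟨(hmemY T).2 h2, by rw [Finset.card_map]; exact h3⟩
      · exact (hR c).2 S h1
    · funext T
      rw [hP]
      by_cases h1 : T ∈ X
      · exact (hR c).1 T h1
      · rw [(hR c).2 _ fun h => h1 ((hmemY T).1 h)]
        exact (hc T fun h => h1 h.1).symm
  have hPC : ∀ i, ∀ c ∈ CX Y i, P c ∈ CX X i := by
    intro i c hc T hT
    rw [hP]
    apply hc
    rintro ⟨h1, h2⟩
    rw [Finset.card_map] at h2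
    exact hT ⟨(hmemY T).1 h1, h2⟩
  have hinj : ∀ i, ∀ c ∈ CX Y i, P c = 0 → c = 0 := by
    intro i c hc h
    funext S
    by_cases h1 : S ∈ Y
    · rw [hY] at h1
      obtain ⟨T, hT, rfl⟩ := h1
      have := congrFun h T
      rwa [hP] at this
    · exact hc S fun h2 => h1 h2.1
  have hPd : ∀ i, ∀ c ∈ CX Y i, P (dX Y c) = dX X (P c) := by
    intro i c hc
    funext T
    rw [hP]
    by_cases hT : T ∈ X
    · rw [dX_pos _ hT, dX_pos _ ((hmemY T).2 hT), bd_apply, bd_apply]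
      have e1 : ∑ u ∈ Tᶜ, sg u T • P c (insert u T) =
          ∑ v ∈ Tᶜ.map φ.toEmbedding, sg v (T.map φ.toEmbedding) • c (insert v (T.map φ.toEmbedding)) := by
        rw [Finset.sum_map]
        refine Finset.sum_congr rfl fun u _ => ?_
        rw [hP, Finset.map_insert]
        have h1 := sg_map (φ := φ) u T
        rw [← h1]
        rfl
      rw [e1]
      symm
      refine Finset.sum_subset ?_ ?_
      · intro v hv
        obtain ⟨u, hu, rfl⟩ := Finset.mem_map.1 hv
        rw [Finset.mem_compl] at hu ⊢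
        rw [Finset.mem_map']
        exact hu
      · intro v hv hv2
        rw [hc, smul_zero]
        rintro ⟨h1, -⟩
        rw [hY] at h1
        obtain ⟨S, hS, h2⟩ := h1
        have h3 : v ∈ S.map φ.toEmbedding := by
          have h2' : S.map φ.toEmbedding = insert v (T.map φ.toEmbedding) := h2
          rw [h2']
          exact Finset.mem_insert_self _ _
        obtain ⟨u, -, rfl⟩ := Finset.mem_map.1 h3
        apply hv2
        rw [Finset.mem_map']
        rw [Finset.mem_compl] at hv ⊢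
        intro h4
        exact hv (Finset.mem_map_of_mem _ h4)
    · rw [dX_neg _ hT, dX_neg _ fun h => hT ((hmemY T).1 h)]
  have hz : (zX Y i).map P = zX X i := by
    apply le_antisymm
    · rintro _ ⟨c, ⟨hc1, hc2⟩, rfl⟩
      have hc2 : dX Y c = 0 := hc2
      refine ⟨hPC i c hc1, ?_⟩
      show dX X (P c) = 0
      rw [← hPd i c hc1, hc2, map_zero]
    · rintro c ⟨hc1, hc2⟩
      have hc2 : dX X c = 0 := hc2
      obtain ⟨h1, h2⟩ := hRC i c hc1
      refine ⟨R c, ⟨h1, ?_⟩, h2⟩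
      show dX Y (R c) = 0
      cases i with
      | zero =>
        -- a chain of degree `0` is a cycle
        funext S
        by_cases hS : S ∈ Y
        · rw [dX_pos _ hS, bd_apply]
          refine Finset.sum_eq_zero fun v hv => ?_
          rw [h1, smul_zero]
          rintro ⟨-, h4⟩
          rw [Finset.card_insert_of_notMem (by simpa using hv)] at h4
          omega
        · exact dX_neg _ hS
      | succ i =>
        refine hinj i _ (dX_mem h1) ?_
        rw [hPd _ _ h1, h2, hc2]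
  have he : (eX Y i).map P = eX X i := by
    apply le_antisymm
    · rintro _ ⟨_, ⟨c, hc, rfl⟩, rfl⟩
      exact ⟨P c, hPC _ c hc, (hPd _ c hc).symm⟩
    · rintro _ ⟨c, hc, rfl⟩
      obtain ⟨h1, h2⟩ := hRC _ c hc
      exact ⟨dX Y (R c), ⟨R c, h1, rfl⟩, by rw [hPd _ _ h1, h2]⟩
  have hrank : ∀ Z : Submodule ℝ (Finset V → ℝ), Z ≤ CX Y i → finrank ℝ (Z.map P) = finrank ℝ Z := by
    intro Z hZ
    have h1 := Pool.Agent.W721.SG.MID.rn P Z
    have h2 : Z ⊓ LinearMap.ker P = ⊥ := by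
      rw [eq_bot_iff]
      rintro c ⟨hc1, hc2⟩
      rw [Submodule.mem_bot]
      exact hinj i c (hZ hc1) hc2
    rw [h2, finrank_bot] at h1
    omega
  unfold bX
  rw [← hz, ← he, hrank (zX Y i) inf_le_left, hrank (eX Y i)]
  rintro _ ⟨c, hc, rfl⟩
  exact dX_mem hc

end map

end Pool.Agent.U729.LT
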