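import Pool.Agent.U729.LT.Em

/-!
# Rigidity of homology spheres, flips and shellings
-/

set_option autoImplicit false

noncomputable section

namespace Pool.Agent.U729.LT

open Module Pool.Agent.W907.SG

variable {V : Type} [Fintype V] [LinearOrder V]

omit [Fintype V] in
theorem lkX_empty (K : Set (Finset V)) : lkX K ∅ = K := by
  ext T
  simp [lkX]

omit [Fintype V] in
theorem lkX_lkX {K : Set (Finset V)} {S T : Finset V} (h : Disjoint T S) : lkX (lkX K S) T = lkX K (T ∪ S) := by
  ext R
  constructor
  · rintro ⟨h1, h2, h3⟩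
    rw [Finset.union_assoc] at h3
    rw [Finset.disjoint_union_left] at h2
    exact ⟨Finset.disjoint_union_right.2 ⟨h1, h2.1⟩, h3⟩
  · rintro ⟨h1, h2⟩
    rw [Finset.disjoint_union_right] at h1
    exact ⟨h1.1, Finset.disjoint_union_left.2 ⟨h1.2, h⟩, by rwa [Finset.union_assoc]⟩

theorem GS.lk {k : ℕ} {K : Set (Finset V)} (h : GS k K) {S : Finset V} (hS : S ∈ K) :
    GS (k - S.card) (lkX K S) := by
  have hc := h.card_le hS
  refine ⟨⟨Finset.disjoint_empty_left _, by rwa [Finset.empty_union]⟩, h.2.1.lk S, ?_⟩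
  rintro T ⟨h1, h2⟩ i
  rw [lkX_lkX h1, h.2.2 _ h2, Finset.card_union_of_disjoint h1]
  by_cases h3 : i + T.card = k - S.card
  · rw [if_pos h3, if_pos (by omega)]
  · rw [if_neg h3, if_neg (by omega)]

/-- A homology sphere that contains the boundary of a simplex of the same dimension is this boundary. -/
theorem gs_rigid (l : ℕ) : ∀ (L : Set (Finset V)) (R : Finset V), GS l L → R.card = l + 1 →
    (∀ T, T ⊂ R → T ∈ L) → ∀ T ∈ L, T ⊂ R := by
  classical
  induction l with
  | zero =>
    intro L R h hR _ T hT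
    have h1 := h.card_le hT
    have h2 : T = ∅ := Finset.card_eq_zero.1 (Nat.le_zero.1 h1)
    rw [h2, Finset.empty_ssubset, ← Finset.card_pos]
    omega
  | succ l ih =>
    intro L R h hR hsub
    have h0 := h.1
    have hLd := h.2.1
    -- simplices that meet `R`
    have h1 : ∀ T ∈ L, ∀ v ∈ T, v ∈ R → T ⊂ R := by
      intro T hT v hvT hvR
      have hv : ({v} : Finset V) ∈ L := hLd _ _ hT (Finset.singleton_subset_iff.2 hvT)
      have h2 := h.lk hv
      rw [Finset.card_singleton, Nat.add_sub_cancel] at h2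
      have h3 := ih (lkX L {v}) (R.erase v) h2 (by rw [Finset.card_erase_of_mem hvR]; omega) (by
        intro S hS
        have hvS : v ∉ S := fun h => (Finset.mem_erase.1 (hS.1 h)).1 rfl
        refine ⟨Finset.disjoint_singleton_right.2 hvS, hsub _ ?_⟩
        rw [Finset.union_comm, ← Finset.insert_eq]
        refine ⟨Finset.insert_subset hvR (hS.1.trans (Finset.erase_subset _ _)), fun h4 => hS.2 ?_⟩
        intro x hx
        rw [Finset.mem_erase] at hx
        rcases Finset.mem_insert.1 (h4 hx.2) with h5 | h5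
        · exact absurd h5 hx.1
        · exact h5) (T.erase v) (by
        refine ⟨Finset.disjoint_singleton_right.2 (Finset.notMem_erase _ _), ?_⟩
        rw [Finset.union_comm, ← Finset.insert_eq, Finset.insert_erase hvT]
        exact hT)
      refine ⟨fun x hx => ?_, fun h4 => h3.2 fun x hx => ?_⟩
      · by_cases hxv : x = v
        · rw [hxv]; exact hvR
        · exact Finset.mem_of_mem_erase (h3.1 (Finset.mem_erase.2 ⟨hxv, hx⟩))
      · rw [Finset.mem_erase] at hx ⊢
        exact ⟨hx.1, h4 hx.2⟩
    -- there are no vertices outside of `R`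
    have h2 : ∀ w, ({w} : Finset V) ∈ L → w ∈ R := by
      intro w hw
      by_contra hwR
      obtain ⟨a, ha⟩ : R.Nonempty := by rw [← Finset.card_pos]; omega
      have haw : a ≠ w := fun h => hwR (h ▸ ha)
      obtain ⟨b, hb⟩ : (R.erase a).Nonempty := by
        rw [← Finset.card_pos, Finset.card_erase_of_mem ha]; omega
      rw [Finset.mem_erase] at hb
      have haL : ∀ v ∈ R, ({v} : Finset V) ∈ L := by
        intro v hv
        apply hsub
        refine ⟨Finset.singleton_subset_iff.2 hv, fun h4 => ?_⟩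
        have h5 := Finset.card_le_card h4
        rw [Finset.card_singleton] at h5
        omega
      have hcyc : ∀ x y : V, x ≠ y → ({x} : Finset V) ∈ L → ({y} : Finset V) ∈ L →
          (Pi.single {x} 1 - Pi.single {y} 1 : Finset V → ℝ) ∈ zX L 1 := by
        intro x y hxy hx hy
        have h3 : (Pi.single {x} 1 - Pi.single {y} 1 : Finset V → ℝ) ∈ CX L 1 := by
          intro T hT
          rw [Pi.sub_apply, Pi.single_eq_of_ne, Pi.single_eq_of_ne, sub_zero]
          · rintro rfl
            exact hT ⟨hy, Finset.card_singleton _⟩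
          · rintro rfl
            exact hT ⟨hx, Finset.card_singleton _⟩
        refine ⟨h3, ?_⟩
        show dX L _ = 0
        funext T
        by_cases hT0 : T = ∅
        · subst hT0
          rw [dX_pos _ h0, bd_apply]
          have e1 : ∀ v : V, sg v ∅ = 1 := fun v => by simp [sg]
          have e2 : ∑ v ∈ (∅ : Finset V)ᶜ, sg v ∅ • (Pi.single {x} 1 - Pi.single {y} 1 : Finset V → ℝ) (insert v ∅) =
              ∑ v, ((if v = x then 1 else 0) - (if v = y then (1 : ℝ) else 0)) := by
            refine Finset.sum_congr (by simp) fun v _ => ?_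
            rw [e1, one_smul, Pi.sub_apply, Pi.single_apply, Pi.single_apply]
            simp
          rw [e2, Finset.sum_sub_distrib]
          simp
        · by_cases hT : T ∈ L
          · rw [dX_pos _ hT, bd_apply]
            refine Finset.sum_eq_zero fun v hv => ?_
            rw [h3, smul_zero]
            rintro ⟨-, h5⟩
            rw [Finset.card_insert_of_notMem (by simpa using hv)] at h5
            exact hT0 (Finset.card_eq_zero.1 (by omega))
          · exact dX_neg _ hT
      have hb1 := h.2.2 ∅ h0 1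
      rw [lkX_empty, Finset.card_empty, add_zero] at hb1
      have hle := eX_le hLd.cvx 1
      by_cases hl : l = 0
      · -- dimension zero
        subst hl
        rw [if_pos rfl] at hb1
        have h4 : CX L 2 = ⊥ := by
          rw [eq_bot_iff]
          intro c hc
          rw [Submodule.mem_bot]
          funext T
          refine hc T ?_
          rintro ⟨h5, h6⟩
          have := h.card_le h5
          omega
        have h5 : finrank ℝ (zX L 1) = 1 := by
          unfold bX eX at hb1
          rw [h4, Submodule.map_bot, finrank_bot, Nat.sub_zero] at hb1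
          exact hb1
        have hz1 := hcyc a b hb.1.symm (haL a ha) (haL b hb.2)
        have hz2 := hcyc a w haw (haL a ha) hw
        have hc1n : (⟨_, hz1⟩ : zX L 1) ≠ 0 := by
          intro h6
          have h7 := congrArg (fun c : zX L 1 => (c : Finset V → ℝ) {a}) h6
          simp only [Pi.sub_apply, Pi.single_eq_same, ZeroMemClass.coe_zero, Pi.zero_apply] at h7
          rw [Pi.single_eq_of_ne (by simpa using hb.1.symm)] at h7
          norm_num at h7
        obtain ⟨r, hr⟩ := (finrank_eq_one_iff_of_nonzero' (⟨_, hz1⟩ : zX L 1) hc1n).1 h5 ⟨_, hz2⟩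
        have h6 := congrArg (fun c : zX L 1 => (c : Finset V → ℝ) {w}) hr
        have hbw : b ≠ w := fun h => hwR (h ▸ hb.2)
        simp only [SetLike.mk_smul_mk, Pi.smul_apply, Pi.sub_apply, Pi.single_eq_same] at h6
        rw [Pi.single_eq_of_ne (by simpa using haw.symm), Pi.single_eq_of_ne (by simpa using hbw.symm)] at h6
        norm_num at h6
      · rw [if_neg (by omega)] at hb1
        have h4 : eX L 1 = zX L 1 := by
          apply Submodule.eq_of_le_of_finrank_le hle
          unfold bX at hb1
          omega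
        have h5 := hcyc a w haw (haL a ha) hw
        rw [← h4] at h5
        obtain ⟨d, hd, hdc⟩ := h5
        -- sum over the vertices in `R`
        have h6 : ∑ v ∈ R, dX L d {v} = 1 := by
          rw [hdc, Finset.sum_eq_single a]
          · rw [Pi.sub_apply, Pi.single_eq_same, Pi.single_eq_of_ne (by simpa using haw), sub_zero]
          · intro v hv hva
            have hvw : v ≠ w := fun h => hwR (h ▸ hv)
            rw [Pi.sub_apply, Pi.single_eq_of_ne (by simpa using hva), Pi.single_eq_of_ne (by simpa using hvw), sub_zero]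
          · intro h; exact absurd ha h
        have h7 : ∀ v ∈ R, dX L d {v} = ∑ u ∈ R.erase v, (sg u {v} : ℝ) * d {u, v} := by
          intro v hv
          rw [dX_pos _ (haL v hv), bd_apply]
          have e1 : ∑ u ∈ R.erase v, (sg u {v} : ℝ) * d {u, v} = ∑ u ∈ R.erase v, sg u {v} • d (insert u {v}) := by
            refine Finset.sum_congr rfl fun u _ => ?_
            rw [zsmul_eq_mul]
          rw [e1]
          symm
          refine Finset.sum_subset ?_ ?_
          · intro u hu
            rw [Finset.mem_erase] at hu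
            simpa using hu.1
          · intro u hu hu2
            rw [hd, smul_zero]
            rintro ⟨h8, -⟩
            have h9 := h1 _ h8 v (by simp) hv
            apply hu2
            rw [Finset.mem_compl, Finset.mem_singleton] at hu
            exact Finset.mem_erase.2 ⟨hu, h9.1 (by simp)⟩
        rw [Finset.sum_congr rfl h7, Finset.sum_sigma'] at h6
        have h8 : ∑ x ∈ R.sigma fun v => R.erase v, (sg x.2 {x.1} : ℝ) * d {x.2, x.1} = 0 := by
          refine Finset.sum_involution (fun (x : Σ _ : V, V) _ => ⟨x.2, x.1⟩) ?_ ?_ ?_ ?_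
          · rintro ⟨v, u⟩ hx
            simp only [Finset.mem_sigma, Finset.mem_erase] at hx
            simp only
            rw [Finset.pair_comm v u, ← add_mul]
            have : sg u {v} + sg v {u} = 0 := by
              have h9 := sg_swap u v ∅ hx.2.1 (Finset.notMem_empty _) (Finset.notMem_empty _)
              have e1 : ∀ v : V, sg v ∅ = 1 := fun v => by simp [sg]
              rw [e1, e1, mul_one, mul_one] at h9
              have e2 : ∀ v : V, insert v (∅ : Finset V) = {v} := fun v => rfl
              rw [e2, e2] at h9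
              rw [h9]
              ring
            have h10 : (sg u {v} : ℝ) + (sg v {u} : ℝ) = 0 := by exact_mod_cast this
            rw [h10, zero_mul]
          · rintro ⟨v, u⟩ hx _ h9
            simp only [Finset.mem_sigma, Finset.mem_erase] at hx
            simp only [Sigma.mk.injEq, heq_eq_eq] at h9
            exact hx.2.1 h9.1
          · rintro ⟨v, u⟩ hx
            simp only [Finset.mem_sigma, Finset.mem_erase] at hx ⊢
            exact ⟨hx.2.2, fun e => hx.2.1 e.symm, hx.1⟩
          · rintro ⟨v, u⟩ _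
            rfl
        rw [h8] at h6
        norm_num at h6
    intro T hT
    by_cases hT0 : T = ∅
    · rw [hT0, Finset.empty_ssubset, ← Finset.card_pos]
      omega
    · obtain ⟨w, hw⟩ := Finset.nonempty_iff_ne_empty.2 hT0
      exact h1 T hT w hw (h2 w (hLd _ _ hT (Finset.singleton_subset_iff.2 hw)))

/-- the link condition of a flip is automatic -/
theorem isFlip_of_gs {K : Set (Finset V)} {A B : Finset V} {k : ℕ} (h : GS k K) (hA : A.Nonempty) (hB : B.Nonempty)
    (hd : Disjoint A B) (hc : A.card + B.card = k + 1) (hBK : B ∉ K) (hf : ∀ b ∈ B, B.erase b ∪ A ∈ K) :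
    IsFlip K A B := by
  have hK := h.2.1
  obtain ⟨b, hb⟩ := hB
  have hAK : A ∈ K := hK _ _ (hf b hb) Finset.subset_union_right
  refine ⟨hA, ⟨b, hb⟩, hd, hBK, fun T hTA => ⟨fun h1 => ?_, fun h1 => ?_⟩⟩
  · refine gs_rigid _ (lkX K A) B (h.lk hAK) ?_ ?_ T ⟨hTA, h1⟩
    · have := h.card_le hAK
      omega
    · intro S hS
      obtain ⟨x, hx, hxS⟩ := Finset.exists_of_ssubset hS
      refine ⟨hd.symm.mono_left hS.1, hK _ _ (hf x hx) (Finset.union_subset_union_left ?_)⟩
      intro y hy
      exact Finset.mem_erase.2 ⟨fun h => hxS (h ▸ hy), hS.1 hy⟩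
  · obtain ⟨x, hx, hxS⟩ := Finset.exists_of_ssubset h1
    refine hK _ _ (hf x hx) (Finset.union_subset_union_left ?_)
    intro y hy
    exact Finset.mem_erase.2 ⟨fun h => hxS (h ▸ hy), h1.1 hy⟩

/-! ### shellings -/

/-- A shelling of a sphere, with the restriction sets `R j`. -/
structure Shl (k m : ℕ) (F R : ℕ → Finset V) : Prop where
  card : ∀ j < m, (F j).card = k
  sub : ∀ j < m, R j ⊆ F j
  ridge1 : ∀ j < m, ∀ v ∈ R j, ∃ i < j, (F j).erase v ⊆ F i
  ridge2 : ∀ j < m, ∀ v ∈ F j, v ∉ R j → ∃ i < m, j < i ∧ (F j).erase v ⊆ F i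
  new : ∀ j < m, ∀ i < j, ¬ R j ⊆ F i
  old : ∀ i < m, ∀ j < i, ¬ F j \ R j ⊆ F i

/-- the intermediate spheres: the union of the first facets and the cone over its boundary -/
def Sj (m : ℕ) (F : ℕ → Finset V) (a : V) (j : ℕ) : Set (Finset V) :=
  {T | (a ∉ T ∧ ∃ i < j, T ⊆ F i) ∨ (a ∈ T ∧ (∃ i < j, T.erase a ⊆ F i) ∧ ∃ i < m, j ≤ i ∧ T.erase a ⊆ F i)}

section shell

variable {k m : ℕ} {F R : ℕ → Finset V} {a : V}

omit [Fintype V] in
/-- faces that do not contain the restriction set are in a previous facet -/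
theorem Shl.lower (h : Shl k m F R) {j : ℕ} (hj : j < m) {T : Finset V} (hT : T ⊆ F j) (hR : ¬ R j ⊆ T) :
    ∃ i < j, T ⊆ F i := by
  obtain ⟨v, hv, hvT⟩ := Finset.not_subset.1 hR
  obtain ⟨i, hi, h1⟩ := h.ridge1 j hj v hv
  exact ⟨i, hi, fun x hx => h1 (Finset.mem_erase.2 ⟨fun h => hvT (h ▸ hx), hT hx⟩)⟩

omit [Fintype V] in
theorem Shl.upper (h : Shl k m F R) {j : ℕ} (hj : j < m) {T : Finset V} (hT : T ⊆ F j) (hR : ¬ F j \ R j ⊆ T) :
    ∃ i < m, j < i ∧ T ⊆ F i := by
  obtain ⟨v, hv, hvT⟩ := Finset.not_subset.1 hR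
  rw [Finset.mem_sdiff] at hv
  obtain ⟨i, hi, hji, h1⟩ := h.ridge2 j hj v hv.1 hv.2
  exact ⟨i, hi, hji, fun x hx => h1 (Finset.mem_erase.2 ⟨fun h => hvT (h ▸ hx), hT hx⟩)⟩

theorem shl_base (h : Shl k m F R) (hm : 0 < m) (ha : ∀ j < m, a ∉ F j) : Sp k (Sj m F a 1) := by
  have hR0 : R 0 = ∅ := by
    rw [Finset.eq_empty_iff_forall_notMem]
    intro v hv
    obtain ⟨i, hi, -⟩ := h.ridge1 0 hm v hv
    omega
  have e : Sj m F a 1 = {T : Finset V | T ⊆ insert a (F 0) ∧ T ≠ insert a (F 0)} := by
    ext T
    constructor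
    · rintro (⟨h1, i, h2, h3⟩ | ⟨h1, ⟨i, h2, h3⟩, ⟨i', h4, h5, h6⟩⟩)
      · have h4 : i = 0 := by omega
        subst h4
        refine ⟨h3.trans (Finset.subset_insert _ _), ?_⟩
        rintro rfl
        exact h1 (Finset.mem_insert_self _ _)
      · have h7 : i = 0 := by omega
        subst h7
        refine ⟨?_, ?_⟩
        · intro x hx
          by_cases hxa : x = a
          · rw [hxa]; exact Finset.mem_insert_self _ _
          · exact Finset.mem_insert_of_mem (h3 (Finset.mem_erase.2 ⟨hxa, hx⟩))
        · rintro rfl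
          rw [Finset.erase_insert (ha 0 hm)] at h6
          refine h.old i' h4 0 (by omega) ?_
          rw [hR0, Finset.sdiff_empty]
          exact h6
    · rintro ⟨h1, h2⟩
      by_cases haT : a ∈ T
      · have h3 : T.erase a ⊆ F 0 := by
          intro x hx
          rw [Finset.mem_erase] at hx
          rcases Finset.mem_insert.1 (h1 hx.2) with h4 | h4
          · exact absurd h4 hx.1
          · exact h4
        refine Or.inr ⟨haT, ⟨0, by omega, h3⟩, ?_⟩
        obtain ⟨i, h4, h5, h6⟩ := h.upper hm h3 (by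
          rw [hR0, Finset.sdiff_empty]
          intro h4
          apply h2
          rw [← Finset.insert_erase haT, Finset.Subset.antisymm h3 h4])
        exact ⟨i, h4, by omega, h6⟩
      · refine Or.inl ⟨haT, 0, by omega, ?_⟩
        intro x hx
        rcases Finset.mem_insert.1 (h1 hx) with h4 | h4
        · exact absurd (h4 ▸ hx) haT
        · exact h4
  rw [e]
  refine sp_simplex (Finset.insert_nonempty _ _) ?_
  rw [Finset.card_insert_of_notMem (ha 0 hm), h.card 0 hm]

theorem shl_step (h : Shl k m F R) (ha : ∀ j < m, a ∉ F j) {b : V} (hb : ∀ j < m, b ∉ F j) (hab : a ≠ b)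
    {j : ℕ} (hj1 : 1 ≤ j) (hj2 : j + 1 < m) (hS : Sp k (Sj m F a j)) : Sp k (Sj m F a (j + 1)) := by
  have hj : j < m := by omega
  have hRn : (R j).Nonempty := by
    rw [Finset.nonempty_iff_ne_empty]
    intro h1
    exact h.new j hj 0 (by omega) (by rw [h1]; exact Finset.empty_subset _)
  have hsub := h.sub j hj
  have haF := ha j hj
  have haR : a ∉ R j := fun h1 => haF (hsub h1)
  have haD : a ∉ F j \ R j := fun h1 => haF (Finset.mem_sdiff.1 h1).1
  have hf : IsFlip (Sj m F a j) (insert a (F j \ R j)) (R j) := by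
    refine isFlip_of_gs hS.1 (Finset.insert_nonempty _ _) hRn ?_ ?_ ?_ ?_
    · rw [Finset.disjoint_insert_left]
      exact ⟨haR, Finset.sdiff_disjoint⟩
    · rw [Finset.card_insert_of_notMem haD, ← h.card j hj]
      have := Finset.card_sdiff_add_card_eq_card hsub
      omega
    · rintro (⟨-, i, h1, h2⟩ | ⟨h1, -⟩)
      · exact h.new j hj i h1 h2
      · exact haR h1
    · intro v hv
      right
      have e1 : ((R j).erase v ∪ insert a (F j \ R j)).erase a = (F j).erase v := by
        ext x
        simp only [Finset.mem_erase, Finset.mem_union, Finset.mem_insert, Finset.mem_sdiff]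
        constructor
        · rintro ⟨h1, ⟨h2, h3⟩ | h2 | ⟨h2, h3⟩⟩
          · exact ⟨h2, hsub h3⟩
          · exact absurd h2 h1
          · exact ⟨fun h4 => h3 (h4 ▸ hv), h2⟩
        · rintro ⟨h1, h2⟩
          refine ⟨fun h3 => haF (h3 ▸ h2), ?_⟩
          by_cases h3 : x ∈ R j
          · exact Or.inl ⟨h1, h3⟩
          · exact Or.inr (Or.inr ⟨h2, h3⟩)
      rw [e1]
      refine ⟨Finset.mem_union_right _ (Finset.mem_insert_self _ _), h.ridge1 j hj v hv, j, hj, le_rfl,
        Finset.erase_subset _ _⟩
  have hfl := hS.flip hf b (by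
    rintro T (⟨h1, i, h2, h3⟩ | ⟨h1, ⟨i, h2, h3⟩, -⟩) h4
    · exact hb i (by omega) (h3 h4)
    · exact hb i (by omega) (h3 (Finset.mem_erase.2 ⟨hab.symm, h4⟩))) (fun h1 => hb j hj (hsub h1))
  have e : flip (Sj m F a j) (insert a (F j \ R j)) (R j) = Sj m F a (j + 1) := by
    ext T
    have hAB : insert a (F j \ R j) ∪ R j = insert a (F j) := by
      rw [Finset.insert_union, Finset.sdiff_union_of_subset hsub]
    constructor
    · rintro ⟨h1, h2 | ⟨h2, h3⟩⟩
      · rcases h2 with ⟨h2, i, h3, h4⟩ | ⟨h2, ⟨i, h3, h4⟩, ⟨i', h5, h6, h7⟩⟩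
        · exact Or.inl ⟨h2, i, by omega, h4⟩
        · refine Or.inr ⟨h2, ⟨i, by omega, h4⟩, ?_⟩
          by_cases h8 : i' = j
          · subst h8
            obtain ⟨i'', h9, h10, h11⟩ := h.upper hj h7 (fun h9 => h1 (Finset.insert_subset h2
              (h9.trans (Finset.erase_subset _ _))))
            exact ⟨i'', h9, by omega, h11⟩
          · exact ⟨i', h5, by omega, h7⟩
      · rw [hAB] at h3
        by_cases h4 : a ∈ T
        · have h5 : T.erase a ⊆ F j := by
            intro x hx
            rw [Finset.mem_erase] at hx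
            rcases Finset.mem_insert.1 (h3 hx.2) with h6 | h6
            · exact absurd h6 hx.1
            · exact h6
          refine Or.inr ⟨h4, ⟨j, by omega, h5⟩, ?_⟩
          obtain ⟨i, h6, h7, h8⟩ := h.upper hj h5 (fun h6 => h1 (Finset.insert_subset h4
            (h6.trans (Finset.erase_subset _ _))))
          exact ⟨i, h6, by omega, h8⟩
        · refine Or.inl ⟨h4, j, by omega, ?_⟩
          intro x hx
          rcases Finset.mem_insert.1 (h3 hx) with h6 | h6
          · exact absurd (h6 ▸ hx) h4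
          · exact h6
    · rintro (⟨h1, i, h2, h3⟩ | ⟨h1, ⟨i, h2, h3⟩, ⟨i', h4, h5, h6⟩⟩)
      · refine ⟨fun h4 => h1 (h4 (Finset.mem_insert_self _ _)), ?_⟩
        by_cases h4 : i = j
        · subst h4
          by_cases h5 : R i ⊆ T
          · exact Or.inr ⟨h5, by rw [hAB]; exact h3.trans (Finset.subset_insert _ _)⟩
          · exact Or.inl (Or.inl ⟨h1, h.lower hj h3 h5⟩)
        · exact Or.inl (Or.inl ⟨h1, i, by omega, h3⟩)
      · have h7 : ¬ insert a (F j \ R j) ⊆ T := by
          intro h8
          refine h.old i' h4 j (by omega) (fun x hx => h6 (Finset.mem_erase.2 ⟨fun h9 => haD (h9 ▸ hx), ?_⟩))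
          exact h8 (Finset.mem_insert_of_mem hx)
        refine ⟨h7, ?_⟩
        by_cases h8 : i = j
        · subst h8
          by_cases h9 : R i ⊆ T.erase a
          · refine Or.inr ⟨h9.trans (Finset.erase_subset _ _), ?_⟩
            rw [hAB, ← Finset.insert_erase h1]
            exact Finset.insert_subset_insert _ h3
          · exact Or.inl (Or.inr ⟨h1, h.lower hj h3 h9, i', h4, by omega, h6⟩)
        · exact Or.inl (Or.inr ⟨h1, ⟨i, by omega, h3⟩, i', h4, by omega, h6⟩)
  rwa [e] at hfl

/-- **Shellable spheres.** -/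
theorem sp_shell (h : Shl k m F R) (hm : 2 ≤ m) (ha : ∀ j < m, a ∉ F j) {b : V} (hb : ∀ j < m, b ∉ F j)
    (hab : a ≠ b) : Sp k {T : Finset V | ∃ i < m, T ⊆ F i} := by
  have h1 : ∀ j, 1 ≤ j → j < m → Sp k (Sj m F a j) := by
    intro j hj
    induction j, hj using Nat.le_induction with
    | base => intro _; exact shl_base h (by omega) ha
    | succ j hj ih => intro h1; exact shl_step h ha hb hab hj h1 (ih (by omega))
  obtain ⟨j, hj⟩ : ∃ j, j + 1 = m := ⟨m - 1, by omega⟩
  have hjm : j < m := by omega
  have h2 := h1 j (by omega) hjm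
  have hRj : R j = F j := by
    apply Finset.Subset.antisymm (h.sub j hjm)
    intro v hv
    by_contra h3
    obtain ⟨i, h4, h5, -⟩ := h.ridge2 j hjm v hv h3
    omega
  obtain ⟨K, hK⟩ : ∃ K : Set (Finset V), K = {T : Finset V | ∃ i < m, T ⊆ F i} := ⟨_, rfl⟩
  rw [← hK]
  have hne : (F j).Nonempty := by
    rw [Finset.nonempty_iff_ne_empty]
    intro h3
    exact h.new j hjm 0 (by omega) (by rw [hRj, h3]; exact Finset.empty_subset _)
  have e : st K (F j) a = Sj m F a j := by
    ext T
    constructor
    · rintro ⟨h3, ⟨h4, h5⟩ | ⟨h4, h5⟩⟩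
      · left
        refine ⟨h4, ?_⟩
        rw [hK] at h5
        obtain ⟨i, h6, h7⟩ := h5
        by_cases h8 : i = j
        · subst h8
          exact h.lower hjm h7 (by rw [hRj]; exact h3)
        · exact ⟨i, by omega, h7⟩
      · right
        rw [hK] at h5
        obtain ⟨i, h6, h7⟩ := h5
        have h8 : F j ⊆ F i := Finset.subset_union_right.trans h7
        have h9 : F j = F i := Finset.eq_of_subset_of_card_le h8 (by rw [h.card i h6, h.card j hjm])
        have h10 : T.erase a ⊆ F j := by rw [h9]; exact Finset.subset_union_left.trans h7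
        refine ⟨h4, h.lower hjm h10 ?_, j, hjm, le_rfl, h10⟩
        rw [hRj]
        exact fun h11 => h3 (h11.trans (Finset.erase_subset _ _))
    · rintro (⟨h3, i, h4, h5⟩ | ⟨h3, ⟨i, h4, h5⟩, ⟨i', h6, h7, h8⟩⟩)
      · refine ⟨fun h6 => ?_, Or.inl ⟨h3, by rw [hK]; exact ⟨i, by omega, h5⟩⟩⟩
        refine h.new j hjm i h4 ?_
        rw [hRj]
        exact h6.trans h5
      · have h9 : i' = j := by omega
        subst h9
        refine ⟨fun h10 => ?_, Or.inr ⟨h3, ?_⟩⟩
        · refine h.new i' hjm i h4 ?_
          rw [hRj]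
          intro x hx
          exact h5 (Finset.mem_erase.2 ⟨fun h11 => ha i' hjm (h11 ▸ hx), h10 hx⟩)
        · rw [hK]
          exact ⟨i', hjm, Finset.union_subset h8 le_rfl⟩
  refine Sp.of_stel (A := F j) (m := a) ?_ ?_ ?_ ?_ ?_ hne
  · rw [e]; exact h2
  · intro S T hS hTS
    rw [hK] at hS ⊢
    obtain ⟨i, h3, h4⟩ := hS
    exact ⟨i, h3, hTS.trans h4⟩
  · rw [hK]
    exact ⟨0, by omega, Finset.empty_subset _⟩
  · intro T hT h3
    rw [hK] at hT
    obtain ⟨i, h4, h5⟩ := hT
    exact ha i h4 (h5 h3)
  · rw [hK]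
    exact ⟨j, hjm, le_rfl⟩

end shell

end Pool.Agent.U729.LT
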