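import Pool.Agent.U729.LT.Hom

/-!
# Stellar subdivisions of real homology spheres (general simplicial complexes)
-/

set_option autoImplicit false

noncomputable section

namespace Pool.Agent.U729.LT

open Module Pool.Agent.W907.SG

variable {V : Type} [Fintype V] [LinearOrder V]

/-- closed under subsets -/
def Dn (K : Set (Finset V)) : Prop := ∀ S T : Finset V, S ∈ K → T ⊆ S → T ∈ K

/-- the link of `S` -/
def lkX (K : Set (Finset V)) (S : Finset V) : Set (Finset V) := {T | Disjoint T S ∧ T ∪ S ∈ K}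

/-- `K` is a simplicial complex, and for each of its simplices `S` (the empty one included) the link of `S` has the
reduced real homology of the sphere of dimension `k - 1 - |S|` -/
def GS (k : ℕ) (K : Set (Finset V)) : Prop :=
  ∅ ∈ K ∧ Dn K ∧ ∀ S ∈ K, ∀ i, bX (lkX K S) i = if i + S.card = k then 1 else 0

omit [Fintype V] [LinearOrder V] in
theorem Dn.cvx {K : Set (Finset V)} (h : Dn K) : Cvx K := fun _ T R _ h2 _ h4 => h R T h2 h4

omit [Fintype V] in
theorem Dn.lk {K : Set (Finset V)} (h : Dn K) (S : Finset V) : Dn (lkX K S) := fun T R h1 h2 =>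
  ⟨h1.1.mono_left h2, h _ _ h1.2 (Finset.union_subset_union_left h2)⟩

/-! ### the one-point complex -/

theorem bX_empty (i : ℕ) : bX ({∅} : Set (Finset V)) i = if i = 0 then 1 else 0 := by
  have h1 : ∀ i, 0 < i → CX ({∅} : Set (Finset V)) i = ⊥ := by
    intro i hi
    rw [eq_bot_iff]
    intro c hc
    rw [Submodule.mem_bot]
    funext T
    refine hc T ?_
    rintro ⟨h1, h2⟩
    rw [Set.mem_singleton_iff] at h1
    rw [h1, Finset.card_empty] at h2
    omega
  have h2 : zX ({∅} : Set (Finset V)) 0 = Submodule.span ℝ {Pi.single ∅ 1} := by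
    apply le_antisymm
    · rintro c ⟨hc, -⟩
      rw [Submodule.mem_span_singleton]
      refine ⟨c ∅, ?_⟩
      funext T
      by_cases hT : T = ∅
      · subst hT; simp
      · rw [Pi.smul_apply, Pi.single_eq_of_ne hT, smul_zero]
        exact (hc T fun h => hT h.1).symm
    · rw [Submodule.span_singleton_le_iff_mem]
      have h3 : (Pi.single ∅ 1 : Finset V → ℝ) ∈ CX ({∅} : Set (Finset V)) 0 := by
        intro T hT
        rw [Pi.single_eq_of_ne]
        rintro rfl
        exact hT ⟨rfl, rfl⟩
      refine ⟨h3, ?_⟩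
      show dX _ _ = 0
      funext T
      by_cases hT : T ∈ ({∅} : Set (Finset V))
      · rw [dX_pos _ hT, bd_apply]
        refine Finset.sum_eq_zero fun v _ => ?_
        rw [Pi.single_eq_of_ne, smul_zero]
        exact Finset.insert_ne_empty _ _
      · exact dX_neg _ hT
  unfold bX eX
  rw [h1 (i + 1) (by omega), Submodule.map_bot, finrank_bot, Nat.sub_zero]
  by_cases hi : i = 0
  · subst hi
    rw [h2, if_pos rfl, finrank_span_singleton]
    intro h
    have := congrFun h ∅
    simp at this
  · rw [if_neg hi]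
    unfold zX
    rw [h1 i (by omega), bot_inf_eq, finrank_bot]

theorem GS.card_le {k : ℕ} {K : Set (Finset V)} (h : GS k K) {S : Finset V} (hS : S ∈ K) : S.card ≤ k := by
  classical
  obtain ⟨T, hT, hmax⟩ := Finset.exists_max_image (Finset.univ.filter fun T : Finset V => T ∈ K ∧ S ⊆ T)
    Finset.card ⟨S, by simp [hS]⟩
  rw [Finset.mem_filter] at hT
  have h1 : lkX K T = {∅} := by
    ext R
    rw [Set.mem_singleton_iff]
    constructor
    · rintro ⟨h2, h3⟩
      have h4 := hmax (R ∪ T) (by
        rw [Finset.mem_filter]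
        exact ⟨Finset.mem_univ _, h3, hT.2.2.trans Finset.subset_union_right⟩)
      rw [Finset.card_union_of_disjoint h2] at h4
      rw [← Finset.card_eq_zero]
      omega
    · rintro rfl
      exact ⟨Finset.disjoint_empty_left _, by rw [Finset.empty_union]; exact hT.2.1⟩
  have h2 := h.2.2 T hT.2.1 0
  rw [h1, bX_empty, if_pos rfl, zero_add] at h2
  have h3 := Finset.card_le_card hT.2.2
  by_contra h4
  rw [if_neg (by omega)] at h2
  omega

/-! ### joins with a simplex and with its boundary -/

/-- the sets that contain `A` -/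
def XA (A : Finset V) (L : Set (Finset V)) : Set (Finset V) := {T | A ⊆ T ∧ T \ A ∈ L}

/-- the join of the boundary of `A` and `L` -/
def bj (A : Finset V) (L : Set (Finset V)) : Set (Finset V) := {T | ¬ A ⊆ T ∧ T \ A ∈ L}

theorem bX_XA (A : Finset V) {L : Set (Finset V)} (hL : Dn L) : (∀ T ∈ L, Disjoint T A) → ∀ i,
    bX (XA A L) i = if A.card ≤ i then bX L (i - A.card) else 0 := by
  induction A using Finset.induction_on with
  | empty =>
    intro _ i
    have : XA ∅ L = L := by
      ext T
      simp [XA]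
    simp [this]
  | insert v A hv ih =>
    intro hd i
    have hd' : ∀ T ∈ L, Disjoint T A ∧ v ∉ T := by
      intro T hT
      have := hd T hT
      rw [Finset.disjoint_insert_right] at this
      exact ⟨this.2, this.1⟩
    obtain ⟨Y, hY⟩ : ∃ Y : Set (Finset V), Y = {T | A ⊆ T ∧ T \ (insert v A) ∈ L} := ⟨_, rfl⟩
    have hYc : Cvx Y := by
      intro S T R hS hR h1 h2
      rw [hY] at hS hR ⊢
      exact ⟨hS.1.trans h1, hL _ _ hR.2 (Finset.sdiff_subset_sdiff h2 le_rfl)⟩
    have hCl : Cl (XA A L) Y := by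
      constructor
      · intro T hT
        rw [hY]
        exact ⟨hT.1, hL _ _ hT.2 (Finset.sdiff_subset_sdiff le_rfl (Finset.subset_insert _ _))⟩
      · intro S T hS hT hTS
        rw [hY] at hT
        refine ⟨hT.1, hL _ _ hS.2 (Finset.sdiff_subset_sdiff hTS le_rfl)⟩
    have hcone : IsCone Y v := by
      intro T hT
      rw [hY] at hT ⊢
      refine ⟨⟨hT.1.trans (Finset.subset_insert _ _), ?_⟩, ⟨?_, ?_⟩⟩
      · have : insert v T \ insert v A = T \ insert v A := by
          ext x; simp only [Finset.mem_sdiff, Finset.mem_insert]; tauto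
        rw [this]
        exact hT.2
      · intro x hx
        exact Finset.mem_erase.2 ⟨fun h => hv (h ▸ hx), hT.1 hx⟩
      · have : T.erase v \ insert v A = T \ insert v A := by
          ext x; simp only [Finset.mem_sdiff, Finset.mem_insert, Finset.mem_erase]; tauto
        rw [this]
        exact hT.2
    have hdiff : Y \ XA A L = XA (insert v A) L := by
      ext T
      rw [hY]
      constructor
      · rintro ⟨⟨h1, h2⟩, h3⟩
        have hvT : v ∈ T := by
          by_contra h4
          apply h3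
          refine ⟨h1, ?_⟩
          have : T \ A = T \ insert v A := by
            ext x
            simp only [Finset.mem_sdiff, Finset.mem_insert, not_or]
            constructor
            · rintro ⟨h5, h6⟩
              exact ⟨h5, fun h => h4 (h ▸ h5), h6⟩
            · rintro ⟨h5, -, h6⟩
              exact ⟨h5, h6⟩
          rw [this]
          exact h2
        exact ⟨Finset.insert_subset hvT h1, h2⟩
      · rintro ⟨h1, h2⟩
        rw [Finset.insert_subset_iff] at h1
        refine ⟨⟨h1.2, h2⟩, fun h3 => ?_⟩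
        exact (hd' _ h3.2).2 (Finset.mem_sdiff.2 ⟨h1.1, hv⟩)
    have hac := bX_cone hcone
    rw [← hdiff, Finset.card_insert_of_notMem hv]
    cases i with
    | zero => rw [bX_conn0 hCl hYc hac, if_neg (by omega)]
    | succ i =>
      rw [bX_conn hCl hYc hac, ih (fun T hT => (hd' T hT).1)]
      by_cases h : A.card ≤ i
      · rw [if_pos h, if_pos (by omega)]
        congr 1
        omega
      · rw [if_neg h, if_neg (by omega)]

theorem bX_bj {A : Finset V} (hA : A.Nonempty) {L : Set (Finset V)} (hL : Dn L) (hd : ∀ T ∈ L, Disjoint T A)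
    (i : ℕ) : bX (bj A L) i = if A.card ≤ i + 1 then bX L (i + 1 - A.card) else 0 := by
  obtain ⟨a, ha⟩ := hA
  obtain ⟨Y, hY⟩ : ∃ Y : Set (Finset V), Y = {T | T \ A ∈ L} := ⟨_, rfl⟩
  have hYd : Dn Y := by
    intro S T hS h
    rw [hY] at hS ⊢
    exact hL _ _ hS (Finset.sdiff_subset_sdiff h le_rfl)
  have hCl : Cl (bj A L) Y := by
    refine ⟨fun T hT => by rw [hY]; exact hT.2, fun S T hS hT h => ⟨fun h1 => hS.1 (h1.trans h), ?_⟩⟩
    rw [hY] at hT
    exact hT
  have hcone : IsCone Y a := by
    intro T hT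
    rw [hY] at hT ⊢
    constructor
    · show insert a T \ A ∈ L
      rw [Finset.insert_sdiff_of_mem _ ha]
      exact hT
    · exact hL _ _ hT (Finset.sdiff_subset_sdiff (Finset.erase_subset _ _) le_rfl)
  have hdiff : Y \ bj A L = XA A L := by
    ext T
    rw [hY]
    constructor
    · rintro ⟨h1, h2⟩
      refine ⟨?_, h1⟩
      by_contra h3
      exact h2 ⟨h3, h1⟩
    · rintro ⟨h1, h2⟩
      exact ⟨h2, fun h3 => h3.1 h1⟩
  rw [← bX_conn hCl hYd.cvx (bX_cone hcone), hdiff, bX_XA A hL hd]

/-! ### the subdivision -/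

/-- the stellar subdivision of `K` at the simplex `A`, with the new vertex `m` -/
def st (K : Set (Finset V)) (A : Finset V) (m : V) : Set (Finset V) :=
  {T | ¬ A ⊆ T ∧ ((m ∉ T ∧ T ∈ K) ∨ (m ∈ T ∧ T.erase m ∪ A ∈ K))}

section st

variable {K : Set (Finset V)} {A : Finset V} {m : V}

omit [Fintype V] in
theorem st_dn (hK : Dn K) : Dn (st K A m) := by
  intro S T hS h
  refine ⟨fun h1 => hS.1 (h1.trans h), ?_⟩
  rcases hS.2 with ⟨h1, h2⟩ | ⟨h1, h2⟩
  · exact Or.inl ⟨fun h3 => h1 (h h3), hK _ _ h2 h⟩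
  · by_cases h3 : m ∈ T
    · exact Or.inr ⟨h3, hK _ _ h2 (Finset.union_subset_union_left (Finset.erase_subset_erase _ h))⟩
    · refine Or.inl ⟨h3, hK _ _ h2 ?_⟩
      intro x hx
      refine Finset.mem_union_left _ (Finset.mem_erase.2 ⟨?_, h hx⟩)
      rintro rfl
      exact h3 hx

omit [Fintype V] in
theorem st_lk_m (hK : Dn K) (hm : ∀ T ∈ K, m ∉ T) (hA : A ∈ K) {S : Finset V} (hmS : m ∉ S) :
    lkX (st K A m) (insert m S) = bj (A \ S) (lkX K (A ∪ S)) := by
  have hmA := hm A hA
  ext T
  constructor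
  · rintro ⟨h1, h2, h3⟩
    rw [Finset.disjoint_insert_right] at h1
    rcases h3 with ⟨h3, -⟩ | ⟨-, h3⟩
    · exact absurd (Finset.mem_union_right _ (Finset.mem_insert_self _ _)) h3
    have h4 : (T ∪ insert m S).erase m ∪ A = T \ (A \ S) ∪ (A ∪ S) := by
      ext x
      simp only [Finset.mem_union, Finset.mem_erase, Finset.mem_insert, Finset.mem_sdiff]
      constructor
      · rintro (⟨h5, h6 | h6 | h6⟩ | h5)
        · tauto
        · exact absurd h6 h5
        · tauto
        · tauto
      · rintro (⟨h5, -⟩ | h5 | h5)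
        · exact Or.inl ⟨fun h => h1.1 (h ▸ h5), Or.inl h5⟩
        · exact Or.inr h5
        · exact Or.inl ⟨fun h => hmS (h ▸ h5), Or.inr (Or.inr h5)⟩
    rw [h4] at h3
    refine ⟨fun h5 => h2 ?_, ?_, h3⟩
    · intro x hx
      by_cases hxS : x ∈ S
      · exact Finset.mem_union_right _ (Finset.mem_insert_of_mem hxS)
      · exact Finset.mem_union_left _ (h5 (Finset.mem_sdiff.2 ⟨hx, hxS⟩))
    · rw [Finset.disjoint_left]
      intro x hx hx2
      rw [Finset.mem_sdiff, Finset.mem_sdiff] at hx
      have hxS : x ∉ S := fun h => (Finset.disjoint_left.1 h1.2 hx.1) h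
      rcases Finset.mem_union.1 hx2 with h | h
      · exact hx.2 ⟨h, hxS⟩
      · exact hxS h
  · rintro ⟨h1, h2, h3⟩
    have hmT : m ∉ T := by
      intro h
      exact hm _ h3 (Finset.mem_union_left _ (Finset.mem_sdiff.2 ⟨h, fun h' => hmA (Finset.mem_sdiff.1 h').1⟩))
    have hTS : Disjoint T S := by
      rw [Finset.disjoint_left]
      intro x hx hxS
      exact (Finset.disjoint_left.1 h2 (Finset.mem_sdiff.2 ⟨hx, fun h => (Finset.mem_sdiff.1 h).2 hxS⟩))
        (Finset.mem_union_right _ hxS)
    refine ⟨Finset.disjoint_insert_right.2 ⟨hmT, hTS⟩, fun h4 => h1 ?_, Or.inr ⟨?_, hK _ _ h3 ?_⟩⟩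
    · intro x hx
      rw [Finset.mem_sdiff] at hx
      rcases Finset.mem_union.1 (h4 hx.1) with h | h
      · exact h
      · rcases Finset.mem_insert.1 h with h | h
        · exact absurd (h ▸ hx.1) hmA
        · exact absurd h hx.2
    · exact Finset.mem_union_right _ (Finset.mem_insert_self _ _)
    · intro x
      simp only [Finset.mem_union, Finset.mem_erase, Finset.mem_insert, Finset.mem_sdiff]
      tauto

omit [Fintype V] in
theorem st_lk_far (hK : Dn K) (hm : ∀ T ∈ K, m ∉ T) (hA : A ∈ K) {S : Finset V} (hmS : m ∉ S)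
    (hS : S ∪ A ∉ K) : lkX (st K A m) S = lkX K S := by
  have hmA := hm A hA
  ext T
  constructor
  · rintro ⟨h1, h2, h3⟩
    rcases h3 with ⟨h3, h4⟩ | ⟨h3, h4⟩
    · exact ⟨h1, h4⟩
    · exfalso
      apply hS
      refine hK _ _ h4 (Finset.union_subset_union_left ?_)
      intro x hx
      exact Finset.mem_erase.2 ⟨fun h => hmS (h ▸ hx), Finset.mem_union_right _ hx⟩
  · rintro ⟨h1, h2⟩
    refine ⟨h1, fun h3 => hS ?_, Or.inl ⟨hm _ h2, h2⟩⟩
    exact hK _ _ h2 (Finset.union_subset Finset.subset_union_right h3)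

theorem st_lk_near (hK : Dn K) (hm : ∀ T ∈ K, m ∉ T) (hA : A ∈ K) {S : Finset V} (hmS : m ∉ S)
    (hAS : ¬ A ⊆ S) (hS : S ∪ A ∈ K) (i : ℕ) : bX (lkX (st K A m) S) i = bX (lkX K S) i := by
  have hmA := hm A hA
  obtain ⟨C, hC⟩ : ∃ C : Set (Finset V), C = {T | Disjoint T S ∧ T ∪ S ∪ A ∈ K} := ⟨_, rfl⟩
  obtain ⟨C', hC'⟩ : ∃ C' : Set (Finset V), C' = {T | Disjoint T S ∧ ¬ A ⊆ T ∪ S ∧ T.erase m ∪ S ∪ A ∈ K} := ⟨_, rfl⟩
  obtain ⟨a, haA, haS⟩ := Finset.not_subset.1 hAS
  have hCl : Cl C (lkX K S) := by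
    rw [hC]
    refine ⟨fun T hT => ⟨hT.1, hK _ _ hT.2 Finset.subset_union_left⟩, fun R T hR hT h => ⟨hT.1, ?_⟩⟩
    exact hK _ _ hR.2 (Finset.union_subset_union_left (Finset.union_subset_union_left h))
  have e1 : ∀ T : Finset V, (T ∪ S).erase m = T.erase m ∪ S := by
    intro T
    rw [Finset.erase_union_distrib, Finset.erase_eq_of_notMem hmS]
  have hCl' : Cl C' (lkX (st K A m) S) := by
    rw [hC']
    refine ⟨fun T hT => ⟨hT.1, hT.2.1, ?_⟩, fun R T hR hT h => ⟨hT.1, hT.2.1, ?_⟩⟩
    · by_cases h1 : m ∈ T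
      · refine Or.inr ⟨Finset.mem_union_left _ h1, ?_⟩
        rw [e1]
        exact hT.2.2
      · refine Or.inl ⟨fun h2 => ?_, ?_⟩
        · rcases Finset.mem_union.1 h2 with h3 | h3
          · exact h1 h3
          · exact hmS h3
        · have := hT.2.2
          rw [Finset.erase_eq_of_notMem h1] at this
          exact hK _ _ this Finset.subset_union_left
    · exact hK _ _ hR.2.2 (Finset.union_subset_union_left (Finset.union_subset_union_left
        (Finset.erase_subset_erase _ h)))
  have hcone : IsCone C a := by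
    intro T hT
    rw [hC] at hT ⊢
    refine ⟨⟨Finset.disjoint_insert_left.2 ⟨haS, hT.1⟩, ?_⟩, hT.1.mono_left (Finset.erase_subset _ _), ?_⟩
    · refine hK _ _ hT.2 ?_
      intro x
      simp only [Finset.mem_union, Finset.mem_insert]
      rintro (((rfl | h) | h) | h)
      · exact Or.inr haA
      · exact Or.inl (Or.inl h)
      · exact Or.inl (Or.inr h)
      · exact Or.inr h
    · exact hK _ _ hT.2 (Finset.union_subset_union_left (Finset.union_subset_union_left (Finset.erase_subset _ _)))
  have hcone' : IsCone C' m := by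
    intro T hT
    rw [hC'] at hT ⊢
    refine ⟨⟨Finset.disjoint_insert_left.2 ⟨hmS, hT.1⟩, ?_, ?_⟩, hT.1.mono_left (Finset.erase_subset _ _),
      fun h => hT.2.1 (h.trans (Finset.union_subset_union_left (Finset.erase_subset _ _))), ?_⟩
    · intro h
      apply hT.2.1
      intro x hx
      rcases Finset.mem_union.1 (h hx) with h1 | h1
      · rcases Finset.mem_insert.1 h1 with h2 | h2
        · exact absurd (h2 ▸ hx) hmA
        · exact Finset.mem_union_left _ h2
      · exact Finset.mem_union_right _ h1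
    · rw [Finset.erase_insert_eq_erase]
      exact hT.2.2
    · rw [Finset.erase_idem]
      exact hT.2.2
  have hdiff : lkX (st K A m) S \ C' = lkX K S \ C := by
    ext T
    rw [hC, hC']
    constructor
    · rintro ⟨⟨h1, h2, h3⟩, h4⟩
      rcases h3 with ⟨h3, h5⟩ | ⟨h3, h5⟩
      · refine ⟨⟨h1, h5⟩, fun h6 => h4 ⟨h1, h2, ?_⟩⟩
        rw [Finset.erase_eq_of_notMem fun h => h3 (Finset.mem_union_left _ h)]
        exact h6.2
      · exfalso
        apply h4
        refine ⟨h1, h2, ?_⟩
        rwa [e1] at h5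
    · rintro ⟨⟨h1, h2⟩, h3⟩
      have hmT : m ∉ T ∪ S := hm _ h2
      have hAT : ¬ A ⊆ T ∪ S := by
        intro h4
        apply h3
        refine ⟨h1, ?_⟩
        rw [Finset.union_eq_left.2 h4]
        exact h2
      refine ⟨⟨h1, hAT, Or.inl ⟨hmT, h2⟩⟩, fun h4 => h3 ⟨h1, ?_⟩⟩
      have := h4.2.2
      rwa [Finset.erase_eq_of_notMem fun h => hmT (Finset.mem_union_left _ h)] at this
  rw [← bX_diff hCl' ((st_dn hK).lk S).cvx (bX_cone hcone') i, hdiff,
    bX_diff hCl (hK.lk S).cvx (bX_cone hcone) i]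

theorem st_lk (hK : Dn K) (hm : ∀ T ∈ K, m ∉ T) (hA : A ∈ K) {S : Finset V} (hmS : m ∉ S)
    (hAS : ¬ A ⊆ S) (i : ℕ) : bX (lkX (st K A m) S) i = bX (lkX K S) i := by
  by_cases hS : S ∪ A ∈ K
  · exact st_lk_near hK hm hA hmS hAS hS i
  · rw [st_lk_far hK hm hA hmS hS]

theorem GS.stel {k : ℕ} (h : GS k K) (hm : ∀ T ∈ K, m ∉ T) (hA : A ∈ K) (hA0 : A.Nonempty) :
    GS k (st K A m) := by
  obtain ⟨h0, hK, hS⟩ := h
  refine ⟨⟨fun h1 => ?_, Or.inl ⟨Finset.notMem_empty _, h0⟩⟩, st_dn hK, fun S hS' i => ?_⟩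
  · rw [Finset.subset_empty] at h1
    exact hA0.ne_empty h1
  by_cases hmS : m ∈ S
  · obtain ⟨R, hR⟩ : ∃ R, R = S.erase m := ⟨_, rfl⟩
    have hmR : m ∉ R := by rw [hR]; simp
    have hSR : S = insert m R := by rw [hR, Finset.insert_erase hmS]
    have h1 : R ∪ A ∈ K := by
      rcases hS'.2 with ⟨h1, -⟩ | ⟨-, h1⟩
      · exact absurd hmS h1
      · rw [hR]; exact h1
    have h2 : ¬ A ⊆ R := fun h => hS'.1 (h.trans (by rw [hSR]; exact Finset.subset_insert _ _))
    have h3 : (A \ R).Nonempty := Finset.sdiff_nonempty.2 h2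
    have h4 := hS (A ∪ R) (by rwa [Finset.union_comm])
    have h5 := GS.card_le ⟨h0, hK, hS⟩ (show A ∪ R ∈ K by rwa [Finset.union_comm])
    have h6 : (A ∪ R).card = (A \ R).card + R.card := by
      rw [← Finset.card_union_of_disjoint Finset.sdiff_disjoint, Finset.sdiff_union_self_eq_union]
    rw [hSR, st_lk_m hK hm hA hmR, bX_bj h3 (hK.lk _), h4, Finset.card_insert_of_notMem hmR]
    · by_cases h7 : (A \ R).card ≤ i + 1
      · rw [if_pos h7]
        by_cases h8 : i + (R.card + 1) = k
        · rw [if_pos h8, if_pos (by omega)]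
        · rw [if_neg h8, if_neg (by omega)]
      · rw [if_neg h7, if_neg (by omega)]
    · intro T hT
      exact hT.1.mono_right (Finset.sdiff_subset.trans Finset.subset_union_left)
  · rw [st_lk hK hm hA hmS hS'.1]
    refine hS S ?_ i
    rcases hS'.2 with ⟨-, h1⟩ | ⟨h1, -⟩
    · exact h1
    · exact absurd h1 hmS

theorem GS.of_stel {k : ℕ} (hK : Dn K) (h0 : ∅ ∈ K) (hm : ∀ T ∈ K, m ∉ T) (hA : A ∈ K) (hA0 : A.Nonempty)
    (h : GS k (st K A m)) : GS k K := by
  refine ⟨h0, hK, fun S hS i => ?_⟩
  have hmS := hm S hS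
  by_cases hAS : A ⊆ S
  · obtain ⟨a, ha⟩ := hA0
    have hmA := hm A hA
    have h1 : a ∈ S := hAS ha
    have h2 : m ∉ S.erase a := fun h => hmS (Finset.mem_of_mem_erase h)
    have h3 : insert m (S.erase a) ∈ st K A m := by
      refine ⟨fun h4 => ?_, Or.inr ⟨Finset.mem_insert_self _ _, ?_⟩⟩
      · rcases Finset.mem_insert.1 (h4 ha) with h5 | h5
        · exact hmA (h5 ▸ ha)
        · simp at h5
      · rw [Finset.erase_insert h2]
        refine hK _ _ hS (Finset.union_subset (Finset.erase_subset _ _) hAS)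
    have h4 := h.2.2 _ h3 i
    have h5 : lkX (st K A m) (insert m (S.erase a)) = lkX K S := by
      rw [st_lk_m hK hm hA h2]
      have e1 : A \ S.erase a = {a} := by
        ext x
        simp only [Finset.mem_sdiff, Finset.mem_erase, Finset.mem_singleton, not_and]
        constructor
        · rintro ⟨h5, h6⟩
          by_contra h7
          exact h6 h7 (hAS h5)
        · rintro rfl
          exact ⟨ha, fun h => absurd rfl h⟩
      have e2 : A ∪ S.erase a = S := by
        ext x
        simp only [Finset.mem_union, Finset.mem_erase]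
        constructor
        · rintro (h5 | h5)
          · exact hAS h5
          · exact h5.2
        · intro h5
          by_cases h6 : x = a
          · exact Or.inl (h6 ▸ ha)
          · exact Or.inr ⟨h6, h5⟩
      rw [e1, e2]
      ext T
      constructor
      · rintro ⟨h6, h7⟩
        rw [Finset.singleton_subset_iff] at h6
        rwa [Finset.sdiff_singleton_eq_erase, Finset.erase_eq_of_notMem h6] at h7
      · intro h6
        have h7 : a ∉ T := fun h => Finset.disjoint_left.1 h6.1 h h1
        refine ⟨by rwa [Finset.singleton_subset_iff], ?_⟩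
        rwa [Finset.sdiff_singleton_eq_erase, Finset.erase_eq_of_notMem h7]
    rw [h5] at h4
    rw [h4, Finset.card_insert_of_notMem h2, Finset.card_erase_add_one h1]
  · rw [← st_lk hK hm hA hmS hAS]
    exact h.2.2 S ⟨hAS, Or.inl ⟨hmS, hS⟩⟩ i

end st

/-! ### the boundary of a simplex -/

theorem gs_simplex {A : Finset V} (hA : A.Nonempty) {k : ℕ} (hk : A.card = k + 1) :
    GS k {T : Finset V | T ⊆ A ∧ T ≠ A} := by
  refine ⟨⟨Finset.empty_subset _, hA.ne_empty.symm⟩, ?_, ?_⟩
  · intro S T hS h
    refine ⟨h.trans hS.1, fun h1 => hS.2 (le_antisymm hS.1 (by rw [← h1]; exact h))⟩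
  · intro S hS i
    have h1 : lkX {T : Finset V | T ⊆ A ∧ T ≠ A} S = bj (A \ S) {∅} := by
      ext T
      constructor
      · rintro ⟨h1, h2, h3⟩
        refine ⟨fun h4 => h3 (le_antisymm h2 ?_), ?_⟩
        · intro x hx
          by_cases hxS : x ∈ S
          · exact Finset.mem_union_right _ hxS
          · exact Finset.mem_union_left _ (h4 (Finset.mem_sdiff.2 ⟨hx, hxS⟩))
        · rw [Set.mem_singleton_iff, Finset.sdiff_eq_empty_iff_subset]
          intro x hx
          exact Finset.mem_sdiff.2 ⟨h2 (Finset.mem_union_left _ hx), Finset.disjoint_left.1 h1 hx⟩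
      · rintro ⟨h1, h2⟩
        rw [Set.mem_singleton_iff, Finset.sdiff_eq_empty_iff_subset] at h2
        refine ⟨?_, ?_, ?_⟩
        · rw [Finset.disjoint_left]
          intro x hx
          exact (Finset.mem_sdiff.1 (h2 hx)).2
        · exact Finset.union_subset (h2.trans Finset.sdiff_subset) hS.1
        · intro h3
          apply h1
          intro x hx
          rw [Finset.mem_sdiff] at hx
          have := hx.1
          rw [← h3] at this
          rcases Finset.mem_union.1 this with h | h
          · exact h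
          · exact absurd h hx.2
    have h2 : (A \ S).Nonempty := by
      rw [Finset.sdiff_nonempty]
      exact fun h => hS.2 (le_antisymm hS.1 h)
    have h3 : (A \ S).card + S.card = A.card := by
      rw [Finset.card_sdiff_of_subset hS.1]
      have := Finset.card_le_card hS.1
      omega
    have h4 := h2.card_pos
    rw [h1, bX_bj h2]
    · simp only [bX_empty]
      by_cases h7 : (A \ S).card ≤ i + 1
      · rw [if_pos h7]
        by_cases h8 : i + S.card = k
        · rw [if_pos h8, if_pos (by omega)]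
        · rw [if_neg h8, if_neg (by omega)]
      · rw [if_neg h7, if_neg (by omega)]
    · intro T R hT h
      rw [Set.mem_singleton_iff] at hT ⊢
      rw [hT] at h
      exact Finset.subset_empty.1 h
    · intro T hT
      rw [Set.mem_singleton_iff] at hT
      rw [hT]
      exact Finset.disjoint_empty_left _

end Pool.Agent.U729.LT
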